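import Pool.Agent.Q106.PK.Stm

/-!
# Project PK (helper106), job INEQ: the splitting inequality (helper265)
-/

set_option autoImplicit false

namespace Pool.Agent.Q106.PK

open Finset

/-- the four directions -/
def ineq_D : Finset (ℤ × ℤ) := {(1, 0), (-1, 0), (0, 1), (0, -1)}

theorem ineq_card_D : ineq_D.card = 4 := by decide

theorem ineq_norm (h3 : S_BOXA) : ∃ nm : Finset (ℤ × ℤ) → Finset (ℤ × ℤ),
    ∀ (Q : Finset (ℤ × ℤ)) (v : ℤ × ℤ), Q.Nonempty → BoxA (tr v Q) → nm Q = tr v Q := by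
  classical
  refine ⟨fun Q => if h : Q.Nonempty then tr (h3 Q h).choose Q else ∅, fun Q v hQ hv => ?_⟩
  simp only [dif_pos hQ]
  rw [(h3 Q hQ).choose_spec.2 v hv]

theorem ineq_card (h2 : S_REP) (h3 : S_BOXA) (h4 : S_FIN) (k : ℕ) : (h4 k).toFinset.card = t k := by
  rw [h2 k BoxA (fun P hP => h3 P hP.2.1)]
  rw [← Set.ncard_eq_toFinset_card _ (h4 k), ← Nat.card_coe_set_eq]
  rfl

theorem t_INEQ (h1 : S_COVER) (h2 : S_REP) (h3 : S_BOXA) (h4 : S_FIN) : S_INEQ := by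
  classical
  intro n hn
  obtain ⟨nm, hnm⟩ := ineq_norm h3
  have hmem : ∀ k P, P ∈ (h4 k).toFinset ↔ IsOmino k P ∧ BoxA P := by
    intro k P
    rw [Set.Finite.mem_toFinset]
    rfl
  obtain ⟨K, hK⟩ : ∃ K, K = (Finset.Icc 1 (n - 1)).filter (fun k => n ≤ 4 * k + 1 ∧ 2 * k ≤ n) :=
    ⟨_, rfl⟩
  have hsub : (h4 n).toFinset ⊆ K.biUnion (fun k =>
      ((h4 k).toFinset ×ˢ (h4 (n - k)).toFinset).biUnion (fun XY =>
        ((XY.1 ×ˢ XY.2) ×ˢ ineq_D).image (fun q =>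
          nm (XY.1 ∪ tr (q.1.1 + q.2 - q.1.2) XY.2)))) := by
    intro P hP
    rw [hmem] at hP
    obtain ⟨k, X, Y, c, c', d, v, hk1, hk2, hk3, hk4, hX, hXA, hY, hYA, hc, hc', hd, hPv⟩ :=
      h1 n P hP.1 hn
    rw [mem_biUnion]
    refine ⟨k, by rw [hK, mem_filter, mem_Icc]; exact ⟨⟨hk1, hk2⟩, hk3, hk4⟩, ?_⟩
    rw [mem_biUnion]
    refine ⟨(X, Y), by rw [mem_product, hmem, hmem]; exact ⟨⟨hX, hXA⟩, hY, hYA⟩, ?_⟩
    rw [mem_image]
    refine ⟨((c, c'), d), by rw [mem_product, mem_product]; exact ⟨⟨hc, hc'⟩, hd⟩, ?_⟩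
    have hne : (X ∪ tr (c + d - c') Y).Nonempty := ⟨c, mem_union_left _ hc⟩
    show nm (X ∪ tr (c + d - c') Y) = P
    rw [hnm _ v hne (by rw [← hPv]; exact hP.2), ← hPv]
  rw [← hK, ← ineq_card h2 h3 h4 n]
  refine (card_le_card hsub).trans (card_biUnion_le.trans (sum_le_sum fun k hk => ?_))
  refine card_biUnion_le.trans ?_
  have hb : ∀ XY ∈ (h4 k).toFinset ×ˢ (h4 (n - k)).toFinset,
      (((XY.1 ×ˢ XY.2) ×ˢ ineq_D).image (fun q =>
          nm (XY.1 ∪ tr (q.1.1 + q.2 - q.1.2) XY.2))).card ≤ k * (n - k) * 4 := by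
    intro XY hXY
    rw [mem_product, hmem, hmem] at hXY
    refine card_image_le.trans ?_
    rw [card_product, card_product, ineq_card_D, hXY.1.1.1, hXY.2.1.1]
  refine (sum_le_card_nsmul _ _ _ hb).trans ?_
  rw [card_product, ineq_card h2 h3 h4, ineq_card h2 h3 h4, smul_eq_mul]
  apply le_of_eq
  ring

end Pool.Agent.Q106.PK
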