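import Pool.Agent.Q17.ML2.Stm

/-!
# Project CA (helper17), job E1: totally split primes and the embeddings (helper265)
-/

set_option autoImplicit false

namespace Pool.Agent.Q265.CA_E1

open NumberField Pool.Agent.Q17.ML2 Pool.Agent.TH9.J3098 UniqueFactorizationMonoid

section

variable {K M N : Type} [Field K] [NumberField K] [Field M] [NumberField M] [Algebra K M]
    [Field N] [NumberField N] [Algebra K N]

theorem mp_comp_algebraMap (φ : M →ₐ[K] N) :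
    (mp φ).comp (algebraMap (𝓞 K) (𝓞 M)) = algebraMap (𝓞 K) (𝓞 N) := by
  ext x
  show φ (algebraMap K M (x : K)) = algebraMap K N (x : K)
  exact φ.commutes _

theorem comap_over (φ : M →ₐ[K] N) {p : Ideal (𝓞 K)} {P : Ideal (𝓞 N)}
    (hP : P ∈ p.primesOver (𝓞 N)) : P.comap (mp φ) ∈ p.primesOver (𝓞 M) := by
  have h1 : P.IsPrime := hP.1
  have h2 : P.LiesOver p := hP.2
  refine ⟨Ideal.comap_isPrime _ _, ⟨?_⟩⟩
  rw [h2.over, Ideal.under_def, Ideal.under_def, Ideal.comap_comap, mp_comp_algebraMap]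

theorem mp_galRestrict (σ : N ≃ₐ[K] N) (φ : M →ₐ[K] N) (x : 𝓞 M) :
    galRestrict (𝓞 K) K N (𝓞 N) σ (mp φ x) = mp (σ.toAlgHom.comp φ) x := by
  apply RingOfIntegers.coe_injective
  have h := algebraMap_galRestrict_apply (𝓞 K) (K := K) (L := N) (B := 𝓞 N) σ (mp φ x)
  exact h

theorem comap_gal (σ : N ≃ₐ[K] N) (φ : M →ₐ[K] N) (P : Ideal (𝓞 N)) :
    (P.comap (galRestrict (𝓞 K) K N (𝓞 N) σ)).comap (mp φ) = P.comap (mp (σ.toAlgHom.comp φ)) := by
  ext x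
  rw [Ideal.mem_comap, Ideal.mem_comap, Ideal.mem_comap, mp_galRestrict]

theorem comap_gal_over (σ : N ≃ₐ[K] N) {p : Ideal (𝓞 K)} {P : Ideal (𝓞 N)}
    (hP : P ∈ p.primesOver (𝓞 N)) :
    P.comap (galRestrict (𝓞 K) K N (𝓞 N) σ) ∈ p.primesOver (𝓞 N) := by
  have hQ1 : P.IsPrime := hP.1
  have hQ2 : P.LiesOver p := hP.2
  refine ⟨Ideal.comap_isPrime _ _, ⟨?_⟩⟩
  rw [hQ2.over]
  ext x
  simp only [Ideal.under_def, Ideal.mem_comap]
  rw [AlgEquiv.commutes]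

theorem lying_over (φ : M →ₐ[K] N) (Q : Ideal (𝓞 M)) (hQ : Q.IsPrime) :
    ∃ P : Ideal (𝓞 N), P.IsPrime ∧ P.comap (mp φ) = Q := by
  letI : Algebra M N := (φ : M →+* N).toAlgebra
  obtain ⟨P, -, hP, hc⟩ := Ideal.exists_ideal_over_prime_of_isIntegral (S := 𝓞 N) Q ⊥ (by
    rw [← RingHom.ker_eq_comap_bot, (RingHom.injective_iff_ker_eq_bot _).1
      (FaithfulSMul.algebraMap_injective (𝓞 M) (𝓞 N))]
    exact bot_le)
  exact ⟨P, hP, hc⟩

theorem surj [IsGalois K N] (φ₀ : M →ₐ[K] N) {p : Ideal (𝓞 K)} {P : Ideal (𝓞 N)}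
    (hP : P ∈ p.primesOver (𝓞 N)) {Q : Ideal (𝓞 M)} (hQ : Q ∈ p.primesOver (𝓞 M)) :
    ∃ φ : M →ₐ[K] N, P.comap (mp φ) = Q := by
  obtain ⟨P', hP', hc⟩ := lying_over φ₀ Q hQ.1
  have h2 : Q.LiesOver p := hQ.2
  have hP'p : P' ∈ p.primesOver (𝓞 N) := by
    refine ⟨hP', ⟨?_⟩⟩
    rw [h2.over, ← hc, Ideal.under_def, Ideal.under_def, Ideal.comap_comap, mp_comp_algebraMap]
  obtain ⟨σ, hσ⟩ := Ideal.exists_comap_galRestrict_eq (𝓞 K) K N (𝓞 N) hP hP'p
  exact ⟨σ.toAlgHom.comp φ₀, by rw [← comap_gal, hσ, hc]⟩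

theorem inj [IsGalois K N] (hcard : Nat.card (M →ₐ[K] N) = Module.finrank K M)
    {p : Ideal (𝓞 K)} (hs : Set.ncard (p.primesOver (𝓞 M)) = Module.finrank K M)
    (P : Ideal (𝓞 N)) (hP : P ∈ p.primesOver (𝓞 N)) (φ ψ : M →ₐ[K] N)
    (h : P.comap (mp φ) = P.comap (mp ψ)) : φ = ψ := by
  let Φ : (M →ₐ[K] N) → p.primesOver (𝓞 M) := fun φ => ⟨P.comap (mp φ), comap_over φ hP⟩
  have hsurj : Function.Surjective Φ := by
    rintro ⟨Q, hQ⟩
    obtain ⟨χ, hχ⟩ := surj φ hP hQ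
    exact ⟨χ, Subtype.ext hχ⟩
  haveI : FiniteDimensional K M := Module.Finite.of_restrictScalars_finite ℚ K M
  haveI : Finite (M →ₐ[K] N) := inferInstance
  have hb : Function.Bijective Φ := by
    refine hsurj.bijective_of_nat_card_le ?_
    rw [Nat.card_coe_set_eq, hs, hcard]
  exact hb.1 (Subtype.ext h)

theorem e_one [IsGalois K N] (hcard : Nat.card (M →ₐ[K] N) = Module.finrank K M)
    (hfix : ∀ σ : N ≃ₐ[K] N, (∀ φ : M →ₐ[K] N, σ.toAlgHom.comp φ = φ) → σ = 1)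
    {p : Ideal (𝓞 K)} (hp : p.IsPrime) (hp0 : p ≠ ⊥)
    (hs : Set.ncard (p.primesOver (𝓞 M)) = Module.finrank K M)
    (P : Ideal (𝓞 N)) (hP : P ∈ p.primesOver (𝓞 N)) :
    v P (p.map (algebraMap (𝓞 K) (𝓞 N))) = 1 := by
  classical
  haveI : FiniteDimensional K N := Module.Finite.of_restrictScalars_finite ℚ K N
  haveI h1 : P.IsPrime := hP.1
  haveI h2 : P.LiesOver p := hP.2
  haveI := hp
  let Ψ : (N ≃ₐ[K] N) → p.primesOver (𝓞 N) := fun σ =>
    ⟨P.comap (galRestrict (𝓞 K) K N (𝓞 N) σ), comap_gal_over σ hP⟩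
  have hinj : Function.Injective Ψ := by
    intro σ τ h
    have h3 : P.comap (galRestrict (𝓞 K) K N (𝓞 N) σ) = P.comap (galRestrict (𝓞 K) K N (𝓞 N) τ) :=
      congrArg Subtype.val h
    have h4 : ∀ φ : M →ₐ[K] N, σ.toAlgHom.comp φ = τ.toAlgHom.comp φ := by
      intro φ
      apply inj hcard hs P hP
      rw [← comap_gal, ← comap_gal, h3]
    have h5 : σ⁻¹ * τ = 1 := by
      apply hfix
      intro φ
      ext x
      have h6 := DFunLike.congr_fun (h4 φ) x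
      change σ (φ x) = τ (φ x) at h6
      show σ.symm (τ (φ x)) = φ x
      rw [← h6, AlgEquiv.symm_apply_apply]
    exact (inv_mul_eq_one.1 h5)
  haveI hpm : p.IsMaximal := hp.isMaximal hp0
  haveI : Finite (p.primesOver (𝓞 N)) := IsDedekindDomain.primesOver_finite p (𝓞 N)
  have hle : Nat.card (N ≃ₐ[K] N) ≤ (p.primesOver (𝓞 N)).ncard := by
    rw [← Nat.card_coe_set_eq]
    exact Nat.card_le_card_of_injective Ψ hinj
  have hpos : 0 < Nat.card (N ≃ₐ[K] N) := Nat.card_pos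
  have hmain := Ideal.ncard_primesOver_mul_ramificationIdxIn_mul_inertiaDegIn p (𝓞 N) (N ≃ₐ[K] N)
  have he : Ideal.ramificationIdxIn p (𝓞 N) = 1 := by
    obtain ⟨a, ha⟩ : ∃ a, a = (p.primesOver (𝓞 N)).ncard := ⟨_, rfl⟩
    obtain ⟨e, he⟩ : ∃ e, e = Ideal.ramificationIdxIn p (𝓞 N) := ⟨_, rfl⟩
    obtain ⟨f, hf⟩ : ∃ f, f = Ideal.inertiaDegIn p (𝓞 N) := ⟨_, rfl⟩
    rw [← ha, ← he, ← hf] at hmain
    rw [← ha] at hle
    rw [← he]
    have ha0 : 0 < a := lt_of_lt_of_le hpos hle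
    have hef : e * f = 1 := by
      have h7 : e * f ≠ 0 := by
        intro h0
        rw [h0, mul_zero] at hmain
        omega
      have h8 : e * f ≤ 1 := by
        by_contra h9
        have h10 : a * 2 ≤ a * (e * f) := Nat.mul_le_mul_left a (by omega)
        omega
      omega
    exact Nat.eq_one_of_mul_eq_one_right hef
  rw [Ideal.ramificationIdxIn_eq_ramificationIdx p P (N ≃ₐ[K] N)] at he
  rw [Ideal.IsDedekindDomain.ramificationIdx_eq_normalizedFactors_count p P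
    (Ideal.map_ne_bot_of_ne_bot hp0)] at he
  exact he

theorem v_map [IsGalois K N] (hcard : Nat.card (M →ₐ[K] N) = Module.finrank K M)
    (hfix : ∀ σ : N ≃ₐ[K] N, (∀ φ : M →ₐ[K] N, σ.toAlgHom.comp φ = φ) → σ = 1)
    {p : Ideal (𝓞 K)} (hp : p.IsPrime) (hp0 : p ≠ ⊥)
    (hs : Set.ncard (p.primesOver (𝓞 M)) = Module.finrank K M)
    (P : Ideal (𝓞 N)) (hP : P ∈ p.primesOver (𝓞 N)) (φ : M →ₐ[K] N) (I : Ideal (𝓞 M))
    (hI : I ≠ ⊥) : v P (I.map (mp φ)) = v (P.comap (mp φ)) I := by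
  classical
  obtain ⟨Q, hQ⟩ : ∃ Q, Q = P.comap (mp φ) := ⟨_, rfl⟩
  have hQo : Q ∈ p.primesOver (𝓞 M) := by rw [hQ]; exact comap_over φ hP
  have hQp : Q.IsPrime := hQo.1
  have hQl : Q.LiesOver p := hQo.2
  have hinjφ : Function.Injective (mp φ) := by
    intro x y hxy
    apply RingOfIntegers.coe_injective
    have h := congrArg (fun z : 𝓞 N => (z : N)) hxy
    exact (φ : M →+* N).injective h
  have hmap0 : ∀ J : Ideal (𝓞 M), J ≠ ⊥ → J.map (mp φ) ≠ ⊥ := by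
    intro J hJ h
    exact hJ ((Ideal.map_eq_bot_iff_of_injective hinjφ).1 h)
  have hQ0 : Q ≠ ⊥ := by
    rintro h
    apply hp0
    rw [hQl.over, h, Ideal.under_def, ← RingHom.ker_eq_comap_bot,
      (RingHom.injective_iff_ker_eq_bot _).1 (FaithfulSMul.algebraMap_injective (𝓞 K) (𝓞 M))]
  rw [← hQ]
  have hQprime : Prime Q := Ideal.prime_of_isPrime hQ0 hQp
  -- the prime Q itself
  have hpM : p.map (algebraMap (𝓞 K) (𝓞 M)) ≤ Q := by
    rw [Ideal.map_le_iff_le_comap, ← Ideal.under_def, ← hQl.over]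
  have hpM0 : p.map (algebraMap (𝓞 K) (𝓞 M)) ≠ ⊥ := Ideal.map_ne_bot_of_ne_bot hp0
  obtain ⟨J, hJ⟩ := Ideal.dvd_iff_le.2 hpM
  have hJ0 : J ≠ ⊥ := by
    rintro rfl
    apply hpM0
    rw [hJ, Ideal.mul_bot]
  have hPN : p.map (algebraMap (𝓞 K) (𝓞 N)) = Q.map (mp φ) * J.map (mp φ) := by
    rw [← mp_comp_algebraMap φ, ← Ideal.map_map, hJ, Ideal.map_mul]
  have he := e_one hcard hfix hp hp0 hs P hP
  rw [hPN, v_mul P (hmap0 Q hQ0) (hmap0 J hJ0)] at he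
  have hQle : Q.map (mp φ) ≤ P := by
    rw [Ideal.map_le_iff_le_comap, hQ]
  have hvQ : v P (Q.map (mp φ)) = 1 := by
    have h1 : 0 < v P (Q.map (mp φ)) := by
      unfold v
      rw [Multiset.count_pos]
      exact (Ideal.mem_normalizedFactors_iff (hmap0 Q hQ0)).mpr ⟨hP.1, hQle⟩
    omega
  -- powers
  have hpow : ∀ k : ℕ, v P ((Q ^ k).map (mp φ)) = k := by
    intro k
    induction k with
    | zero =>
      unfold v
      rw [pow_zero, Ideal.one_eq_top, Ideal.map_top, ← Ideal.one_eq_top, normalizedFactors_one,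
        Multiset.count_zero]
    | succ k ih =>
      rw [pow_succ, Ideal.map_mul, v_mul P (hmap0 _ (pow_ne_zero k hQ0)) (hmap0 _ hQ0), ih, hvQ]
  have hpow' : ∀ k : ℕ, v Q (Q ^ k) = k := by
    intro k
    unfold v
    rw [normalizedFactors_pow, normalizedFactors_irreducible hQprime.irreducible,
      Multiset.count_nsmul, normalize_eq, Multiset.count_singleton_self, mul_one]
  obtain ⟨X, hIX, hX⟩ :=
    (FiniteMultiplicity.of_prime_left hQprime hI).exists_eq_pow_mul_and_not_dvd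
  obtain ⟨k, hk⟩ : ∃ k, k = multiplicity Q I := ⟨_, rfl⟩
  rw [← hk] at hIX
  have hX0 : X ≠ ⊥ := by
    rintro rfl
    apply hI
    rw [hIX, Ideal.mul_bot]
  have hXQ : ¬ X ≤ Q := fun h => hX (Ideal.dvd_iff_le.2 h)
  have hXP : ¬ X.map (mp φ) ≤ P := by
    intro h
    apply hXQ
    rw [hQ, ← Ideal.map_le_iff_le_comap]
    exact h
  rw [hIX, Ideal.map_mul, v_mul P (hmap0 _ (pow_ne_zero k hQ0)) (hmap0 X hX0), hpow,
    v_zero P _ (hmap0 X hX0) hXP, v_mul Q (pow_ne_zero k hQ0) hX0, hpow',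
    v_zero Q X hX0 hXQ]

end

theorem t_E1 : S_E1 := by
  intro K M N _ _ _ _ _ _ _ _ _ hcard hfix p hp hp0 hs P hP
  exact ⟨fun φ => comap_over φ hP, inj hcard hs P hP,
    fun φ I hI => v_map hcard hfix hp hp0 hs P hP φ I hI⟩

end Pool.Agent.Q265.CA_E1
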