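import Mathlib
import Pool.Agent.Q2.PM.Stm

/-! Project PM (helper2), job B1: chief factors below a normal 2-subgroup -/

set_option autoImplicit false

namespace Q265.PM_B1

open Subgroup Q2.PM
open Q2.TN (IsPNil IsSyl IsChief Nm)

variable {G : Type} [Group G] [Finite G]

theorem two_dvd {M V : Subgroup G} [M.Normal] (hlt : M < V) (hV : IsPGroup 2 V) :
    2 ∣ Nat.card (V.map (QuotientGroup.mk' M)) := by
  have h1 : IsPGroup 2 (V.map (QuotientGroup.mk' M)) := hV.map _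
  obtain ⟨n, hn⟩ := IsPGroup.iff_card.1 h1
  rcases n with _ | n
  · exfalso
    rw [pow_zero] at hn
    have h2 : V.map (QuotientGroup.mk' M) = ⊥ := Subgroup.card_eq_one.1 hn
    rw [Subgroup.map_eq_bot_iff, QuotientGroup.ker_mk'] at h2
    exact hlt.not_ge h2
  · rw [hn]
    exact dvd_pow_self 2 (Nat.succ_ne_zero n)

theorem fix {M V U : Subgroup G} [M.Normal] [V.Normal] (hlt : M < V) (hV : IsPGroup 2 V)
    (hU : IsPGroup 2 U) : ∃ x ∈ V, x ∉ M ∧ ∀ y ∈ U, (y * x * y⁻¹ : G ⧸ M) = x := by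
  haveI hn : (V.map (QuotientGroup.mk' M)).Normal :=
    Subgroup.Normal.map inferInstance _ (QuotientGroup.mk'_surjective M)
  letI act : MulAction U (V.map (QuotientGroup.mk' M)) :=
    MulAction.compHom _ (((MulAut.conjNormal (H := V.map (QuotientGroup.mk' M))).comp
      (QuotientGroup.mk' M)).comp U.subtype)
  have hsm : ∀ (u : U) (v : V.map (QuotientGroup.mk' M)),
      ((u • v : V.map (QuotientGroup.mk' M)) : G ⧸ M) =
        ((u : G) : G ⧸ M) * (v : G ⧸ M) * ((u : G) : G ⧸ M)⁻¹ := by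
    intro u v
    exact MulAut.conjNormal_apply _ _
  obtain ⟨b, hb, hb1⟩ := hU.exists_fixed_point_of_prime_dvd_card_of_fixed_point
    (V.map (QuotientGroup.mk' M)) (two_dvd hlt hV) (a := 1) (by
      intro u
      apply Subtype.ext
      rw [hsm]
      simp)
  obtain ⟨x, hx, hxb⟩ := Subgroup.mem_map.1 b.2
  refine ⟨x, hx, ?_, ?_⟩
  · intro hxM
    apply hb1
    apply Subtype.ext
    rw [← hxb]
    exact ((QuotientGroup.eq_one_iff x).2 hxM).symm
  · intro y hy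
    have h := congrArg Subtype.val (hb ⟨y, hy⟩)
    rw [hsm, ← hxb] at h
    exact h

theorem comm {M V U : Subgroup G} (hMV : IsChief M V) (hV : IsPGroup 2 V) (hUn : U.Normal)
    (hU : IsPGroup 2 U) : ∀ x ∈ V, ∀ y ∈ U, x * y * x⁻¹ * y⁻¹ ∈ M := by
  obtain ⟨hM, hVn, hlt, hmax⟩ := hMV
  obtain ⟨x0, hx0, hx0M, hfix⟩ := fix hlt hV hU
  let L : Subgroup G :=
    { carrier := {x | x ∈ V ∧ ∀ y ∈ U, ((x : G ⧸ M) * (y : G ⧸ M)) = (y : G ⧸ M) * (x : G ⧸ M)}
      one_mem' := ⟨V.one_mem, fun y _ => by simp⟩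
      mul_mem' := by
        rintro a b ⟨ha, ha'⟩ ⟨hb, hb'⟩
        refine ⟨V.mul_mem ha hb, fun y hy => ?_⟩
        rw [QuotientGroup.mk_mul, mul_assoc, hb' y hy, ← mul_assoc, ha' y hy, mul_assoc]
      inv_mem' := by
        rintro a ⟨ha, ha'⟩
        refine ⟨V.inv_mem ha, fun y hy => ?_⟩
        rw [QuotientGroup.mk_inv, inv_mul_eq_iff_eq_mul, ← mul_assoc, ha' y hy,
          mul_inv_cancel_right] }
  have hLn : L.Normal := by
    refine ⟨fun a ha g => ⟨hVn.conj_mem a ha.1 g, fun y hy => ?_⟩⟩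
    have h1 := ha.2 (g⁻¹ * y * g) (by
      have := hUn.conj_mem y hy g⁻¹
      rwa [inv_inv] at this)
    rw [QuotientGroup.mk_mul, QuotientGroup.mk_mul, QuotientGroup.mk_inv] at h1 ⊢
    calc (g : G ⧸ M) * a * (g : G ⧸ M)⁻¹ * y
        = g * (a * ((g : G ⧸ M)⁻¹ * y * g)) * (g : G ⧸ M)⁻¹ := by group
      _ = g * ((g : G ⧸ M)⁻¹ * y * g * a) * (g : G ⧸ M)⁻¹ := by rw [h1]
      _ = y * (g * a * (g : G ⧸ M)⁻¹) := by group
  have hML : M ≤ L := by
    intro m hm
    refine ⟨hlt.le hm, fun y hy => ?_⟩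
    rw [(QuotientGroup.eq_one_iff m).2 hm, one_mul, mul_one]
  have hLV : L ≤ V := fun a ha => ha.1
  have hx0L : x0 ∈ L := by
    refine ⟨hx0, fun y hy => ?_⟩
    have h := hfix y hy
    exact (mul_inv_eq_iff_eq_mul.1 h).symm
  rcases hmax L hLn hML hLV with h | h
  · exact absurd (h ▸ hx0L) hx0M
  · intro x hx y hy
    have hxL : x ∈ L := h ▸ hx
    rw [← QuotientGroup.eq_one_iff]
    rw [QuotientGroup.mk_mul, QuotientGroup.mk_mul, QuotientGroup.mk_mul, QuotientGroup.mk_inv,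
      QuotientGroup.mk_inv, hxL.2 y hy]
    group

theorem b1 : S_B1 := by
  intro G _ _ M V U hMV hV hUn hU
  refine ⟨?_, comm hMV hV hUn hU⟩
  have hc := comm hMV hV hMV.2.1 hV
  obtain ⟨hM, hVn, hlt, hmax⟩ := hMV
  have hc' : ∀ x ∈ V, ∀ y ∈ V, (x : G ⧸ M) * (y : G ⧸ M) = (y : G ⧸ M) * (x : G ⧸ M) := by
    intro x hx y hy
    have h := (QuotientGroup.eq_one_iff (N := M) _).2 (hc x hx y hy)
    rw [QuotientGroup.mk_mul, QuotientGroup.mk_mul, QuotientGroup.mk_mul, QuotientGroup.mk_inv,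
      QuotientGroup.mk_inv] at h
    have h2 := mul_inv_eq_one.1 h
    exact mul_inv_eq_iff_eq_mul.1 h2
  let E : Subgroup G :=
    { carrier := {x | x ∈ V ∧ (x : G ⧸ M) * (x : G ⧸ M) = 1}
      one_mem' := ⟨V.one_mem, by simp⟩
      mul_mem' := by
        rintro a b ⟨ha, ha'⟩ ⟨hb, hb'⟩
        refine ⟨V.mul_mem ha hb, ?_⟩
        rw [QuotientGroup.mk_mul]
        calc (a : G ⧸ M) * b * (a * b) = a * (b * a) * b := by group
          _ = a * (a * b) * b := by rw [hc' b hb a ha]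
          _ = (a * a) * (b * b) := by group
          _ = 1 := by rw [ha', hb', one_mul]
      inv_mem' := by
        rintro a ⟨ha, ha'⟩
        refine ⟨V.inv_mem ha, ?_⟩
        rw [QuotientGroup.mk_inv, ← mul_inv_rev, ha', inv_one] }
  have hEn : E.Normal := by
    refine ⟨fun a ha g => ⟨hVn.conj_mem a ha.1 g, ?_⟩⟩
    rw [QuotientGroup.mk_mul, QuotientGroup.mk_mul, QuotientGroup.mk_inv]
    calc (g : G ⧸ M) * a * (g : G ⧸ M)⁻¹ * (g * a * (g : G ⧸ M)⁻¹)
        = g * (a * a) * (g : G ⧸ M)⁻¹ := by group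
      _ = 1 := by rw [ha.2, mul_one, mul_inv_cancel]
  have hME : M ≤ E := by
    intro m hm
    refine ⟨hlt.le hm, ?_⟩
    rw [(QuotientGroup.eq_one_iff m).2 hm, one_mul]
  have hEV : E ≤ V := fun a ha => ha.1
  haveI : Fact (Nat.Prime 2) := ⟨Nat.prime_two⟩
  obtain ⟨b, hb⟩ := exists_prime_orderOf_dvd_card' 2 (two_dvd hlt hV)
  obtain ⟨x0, hx0, hxb⟩ := Subgroup.mem_map.1 b.2
  have hb2 : b * b = 1 := by
    have := pow_orderOf_eq_one b
    rw [hb, pow_two] at this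
    exact this
  have hb1 : b ≠ 1 := by
    rintro rfl
    rw [orderOf_one] at hb
    omega
  have hx0E : x0 ∈ E := by
    refine ⟨hx0, ?_⟩
    have h := congrArg Subtype.val hb2
    rw [Subgroup.coe_mul, ← hxb] at h
    exact h
  have hx0M : x0 ∉ M := by
    intro h
    apply hb1
    apply Subtype.ext
    rw [← hxb]
    exact (QuotientGroup.eq_one_iff x0).2 h
  rcases hmax E hEn hME hEV with h | h
  · exact absurd (h ▸ hx0E) hx0M
  · intro x hx
    have hxE : x ∈ E := h ▸ hx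
    rw [← QuotientGroup.eq_one_iff, QuotientGroup.mk_mul]
    exact hxE.2

end Q265.PM_B1
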