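import Pool.Agent.Q201.AR.Stm

/-!
# Project AR (helper201), job CODE: the identification of `M` with `M ⊔ {0, …, c - 1} × M ^ k`
-/

set_option autoImplicit false

open FirstOrder FirstOrder.Language Q201.AR

namespace Q265.AR_CODE

/-! ### Iterated pairing -/

/-- iterated pairing -/
def pk {M : Type} (p : M → M → M) : (m : ℕ) → (Fin (m + 1) → M) → M
  | 0, t => t 0
  | m + 1, t => p (t 0) (pk p m (Fin.tail t))

theorem pk_inj {M : Type} {p : M → M → M} (hp : Function.Bijective fun q : M × M => p q.1 q.2)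
    (m : ℕ) : Function.Injective (pk p m) := by
  induction m with
  | zero =>
    intro t t' h
    funext l
    have hl : l = 0 := Fin.ext (by have := l.isLt; simp at this ⊢)
    rw [hl]
    exact h
  | succ m ih =>
    intro t t' h
    have h1 := hp.1 (a₁ := (t 0, pk p m (Fin.tail t))) (a₂ := (t' 0, pk p m (Fin.tail t'))) h
    rw [Prod.mk.injEq] at h1
    have h2 := ih h1.2
    funext l
    refine Fin.cases h1.1 (fun i => ?_) l
    exact congrFun h2 i

theorem pk_surj {M : Type} {p : M → M → M} (hp : Function.Bijective fun q : M × M => p q.1 q.2)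
    (m : ℕ) : Function.Surjective (pk p m) := by
  induction m with
  | zero =>
    intro y
    exact ⟨fun _ => y, rfl⟩
  | succ m ih =>
    intro y
    obtain ⟨⟨u, w⟩, hq⟩ := hp.2 y
    obtain ⟨t', ht'⟩ := ih w
    refine ⟨Fin.cons u t', ?_⟩
    show p (Fin.cons (α := fun _ => M) u t' 0) (pk p m (Fin.tail (Fin.cons (α := fun _ => M) u t'))) = y
    rw [Fin.cons_zero, Fin.tail_cons, ht']
    exact hq

/-! ### Iterates -/

theorem iter_inj {M : Type} {s : M → M} (hs : Function.Injective s) (c : ℕ) :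
    Function.Injective (s^[c]) := hs.iterate c

theorem num_ne {M : Type} {s : M → M} {z : M} (hs : Function.Injective s)
    (hz : ∀ x, x ≠ z ↔ ∃ y, s y = x) {i c : ℕ} (h : i < c) (a : M) : s^[c] a ≠ s^[i] z := by
  intro he
  obtain ⟨d, rfl⟩ : ∃ d, c = i + (d + 1) := ⟨c - i - 1, by omega⟩
  rw [Function.iterate_add_apply] at he
  have h1 := iter_inj hs i he
  rw [Function.iterate_succ_apply'] at h1
  exact (hz (s (s^[d] a))).2 ⟨_, rfl⟩ h1

theorem num_inj {M : Type} {s : M → M} {z : M} (hs : Function.Injective s)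
    (hz : ∀ x, x ≠ z ↔ ∃ y, s y = x) {i i' : ℕ} (h : s^[i] z = s^[i'] z) : i = i' := by
  rcases lt_trichotomy i i' with h1 | h1 | h1
  · exact absurd h.symm (num_ne hs hz h1 z)
  · exact h1
  · exact absurd h (num_ne hs hz h1 z)

theorem num_surj {M : Type} {s : M → M} {z : M} (hz : ∀ x, x ≠ z ↔ ∃ y, s y = x) (c : ℕ) (a : M) :
    (∃ i, i < c ∧ a = s^[i] z) ∨ ∃ a', a = s^[c] a' := by
  induction c generalizing a with
  | zero => exact Or.inr ⟨a, rfl⟩
  | succ c ih =>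
    rcases ih a with ⟨i, hi, h⟩ | ⟨a', h⟩
    · exact Or.inl ⟨i, by omega, h⟩
    · by_cases h1 : a' = z
      · exact Or.inl ⟨c, by omega, by rw [h, h1]⟩
      · obtain ⟨b, hb⟩ := (hz a').1 h1
        refine Or.inr ⟨b, ?_⟩
        rw [h, ← hb, ← Function.iterate_succ_apply]

/-! ### Uniform definability -/

section

variable {L : FirstOrder.Language.{0, 0}} (π : L.Formula (Fin 3)) (σ : L.Formula (Fin 2))
  (ζ : L.Formula (Fin 1))

/-- uniform definability of a relation in the structures with `p`, `s`, `z` -/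
def Dfb {α : Type} (R : ∀ M : Type, (M → M → M) → (M → M) → M → (α → M) → Prop) : Prop :=
  ∃ φ : L.Formula α, ∀ (M : Type) [L.Structure M] (p : M → M → M) (s : M → M) (z : M),
    PSZ π σ ζ M p s z → ∀ v : α → M, φ.Realize v ↔ R M p s z v

variable {π σ ζ}

theorem Dfb.and {α : Type} {R R' : ∀ M : Type, (M → M → M) → (M → M) → M → (α → M) → Prop}
    (h : Dfb π σ ζ R) (h' : Dfb π σ ζ R') :
    Dfb π σ ζ (fun M p s z v => R M p s z v ∧ R' M p s z v) := by
  obtain ⟨φ, hφ⟩ := h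
  obtain ⟨ψ, hψ⟩ := h'
  refine ⟨φ ⊓ ψ, fun M _ p s z hM v => ?_⟩
  rw [Formula.realize_inf, hφ M p s z hM v, hψ M p s z hM v]

theorem Dfb.rel {α β : Type} {R : ∀ M : Type, (M → M → M) → (M → M) → M → (α → M) → Prop}
    (h : Dfb π σ ζ R) (g : α → β) :
    Dfb π σ ζ (fun M p s z (v : β → M) => R M p s z (fun i => v (g i))) := by
  obtain ⟨φ, hφ⟩ := h
  refine ⟨φ.relabel g, fun M _ p s z hM v => ?_⟩
  rw [Formula.realize_relabel, hφ M p s z hM]
  rfl

theorem Dfb.ex {α β : Type} [Finite β]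
    {R : ∀ M : Type, (M → M → M) → (M → M) → M → (α ⊕ β → M) → Prop} (h : Dfb π σ ζ R) :
    Dfb π σ ζ (fun M p s z v => ∃ w : β → M, R M p s z (Sum.elim v w)) := by
  obtain ⟨φ, hφ⟩ := h
  refine ⟨φ.iExs β, fun M _ p s z hM v => ?_⟩
  rw [Formula.realize_iExs]
  exact exists_congr fun w => hφ M p s z hM _

theorem Dfb.iff {α : Type} {R R' : ∀ M : Type, (M → M → M) → (M → M) → M → (α → M) → Prop}
    (h : Dfb π σ ζ R) (hR : ∀ M p s z v, R M p s z v ↔ R' M p s z v) : Dfb π σ ζ R' := by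
  obtain ⟨φ, hφ⟩ := h
  exact ⟨φ, fun M _ p s z hM v => (hφ M p s z hM v).trans (hR M p s z v)⟩

theorem d_pi : Dfb π σ ζ (fun M p s z (v : Fin 3 → M) => p (v 0) (v 1) = v 2) :=
  ⟨π, fun _ _ _ _ _ hM v => hM.hπ v⟩

theorem d_sigma : Dfb π σ ζ (fun M p s z (v : Fin 2 → M) => s (v 0) = v 1) :=
  ⟨σ, fun _ _ _ _ _ hM v => hM.hσ v⟩

theorem d_zeta : Dfb π σ ζ (fun M p s z (v : Fin 1 → M) => v 0 = z) :=
  ⟨ζ, fun _ _ _ _ _ hM v => hM.hζ v⟩

theorem d_eq {α : Type} (i j : α) : Dfb π σ ζ (fun M p s z (v : α → M) => v i = v j) := by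
  refine ⟨(Term.var i).equal (Term.var j), fun M _ p s z hM v => ?_⟩
  rw [Formula.realize_equal]
  rfl

/-- the graph of an iterate -/
theorem d_iter (c : ℕ) : Dfb π σ ζ (fun M p s z (v : Fin 2 → M) => s^[c] (v 0) = v 1) := by
  induction c with
  | zero => exact d_eq 0 1
  | succ c ih =>
    refine Dfb.iff (Dfb.ex (β := Unit) (Dfb.and
      (d_sigma.rel (β := Fin 2 ⊕ Unit) ![Sum.inl 0, Sum.inr ()])
      (ih.rel (β := Fin 2 ⊕ Unit) ![Sum.inr (), Sum.inl 1]))) fun M p s z v => ?_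
    constructor
    · rintro ⟨w, h1, h2⟩
      change s (v 0) = w () at h1
      change s^[c] (w ()) = v 1 at h2
      show s^[c + 1] (v 0) = v 1
      rw [Function.iterate_succ_apply, h1, h2]
    · intro h
      change s^[c + 1] (v 0) = v 1 at h
      rw [Function.iterate_succ_apply] at h
      exact ⟨fun _ => s (v 0), rfl, h⟩

theorem d_num (c : ℕ) : Dfb π σ ζ (fun M p s z (v : Fin 1 → M) => s^[c] z = v 0) := by
  refine Dfb.iff (Dfb.ex (β := Unit) (Dfb.and
    (d_zeta.rel (β := Fin 1 ⊕ Unit) ![Sum.inr ()])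
    ((d_iter c).rel (β := Fin 1 ⊕ Unit) ![Sum.inr (), Sum.inl 0]))) fun M p s z v => ?_
  constructor
  · rintro ⟨w, h1, h2⟩
    change w () = z at h1
    change s^[c] (w ()) = v 0 at h2
    rw [← h2, h1]
  · intro h
    exact ⟨fun _ => z, rfl, h⟩

theorem d_pk (m : ℕ) : Dfb π σ ζ
    (fun M p s z (v : Fin (m + 1 + 1) → M) => pk p m (fun l => v l.castSucc) = v (Fin.last (m + 1))) := by
  induction m with
  | zero => exact d_eq _ _
  | succ m ih =>
    refine Dfb.iff (Dfb.ex (β := Unit) (Dfb.and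
      (ih.rel (β := Fin (m + 1 + 1 + 1) ⊕ Unit)
        (Fin.lastCases (motive := fun _ => Fin (m + 1 + 1 + 1) ⊕ Unit) (Sum.inr ())
          (fun l => Sum.inl l.succ.castSucc)))
      (d_pi.rel (β := Fin (m + 1 + 1 + 1) ⊕ Unit)
        ![Sum.inl 0, Sum.inr (), Sum.inl (Fin.last _)]))) fun M p s z v => ?_
    constructor
    · rintro ⟨w, h1, h2⟩
      simp only [Fin.lastCases_castSucc, Fin.lastCases_last, Sum.elim_inl, Sum.elim_inr] at h1
      change p (v 0) (w ()) = v (Fin.last _) at h2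
      show p (v 0) (pk p m fun l => v l.succ.castSucc) = v (Fin.last _)
      rw [h1, h2]
    · intro h
      change p (v 0) (pk p m fun l => v l.succ.castSucc) = v (Fin.last _) at h
      refine ⟨fun _ => pk p m fun l => v l.succ.castSucc, ?_, h⟩
      simp only [Fin.lastCases_castSucc, Fin.lastCases_last, Sum.elim_inl, Sum.elim_inr]

end

theorem t_CODE : S_CODE := by
  intro L π σ ζ k c hk
  obtain ⟨m, rfl⟩ : ∃ m, k = m + 1 := ⟨k - 1, by omega⟩
  -- the formula for `ι`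
  have hF : Dfb π σ ζ (fun M p s z (v : Fin 2 → M) => ∃ w : Fin 3 → M,
      (p (w 0) (w 1) = v 0 ∧ s^[c] (w 0) = w 2) ∧ p (w 2) (w 1) = v 1) := by
    refine Dfb.iff (Dfb.ex (β := Fin 3) (Dfb.and (Dfb.and
      (d_pi.rel (β := Fin 2 ⊕ Fin 3) ![Sum.inr 0, Sum.inr 1, Sum.inl 0])
      ((d_iter c).rel (β := Fin 2 ⊕ Fin 3) ![Sum.inr 0, Sum.inr 2]))
      (d_pi.rel (β := Fin 2 ⊕ Fin 3) ![Sum.inr 2, Sum.inr 1, Sum.inl 1]))) fun M p s z v => ?_
    exact Iff.rfl
  -- the formulas for `code i`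
  have hG : ∀ i : ℕ, Dfb π σ ζ (fun M p s z (v : Fin (m + 1 + 1) → M) => ∃ w : Fin 2 → M,
      (s^[i] z = w 0 ∧ pk p m (fun l => v l.castSucc) = w 1) ∧
        p (w 0) (w 1) = v (Fin.last (m + 1))) := by
    intro i
    refine Dfb.iff (Dfb.ex (β := Fin 2) (Dfb.and (Dfb.and
      ((d_num i).rel (β := Fin (m + 1 + 1) ⊕ Fin 2) ![Sum.inr 0])
      ((d_pk m).rel (β := Fin (m + 1 + 1) ⊕ Fin 2)
        (Fin.lastCases (motive := fun _ => Fin (m + 1 + 1) ⊕ Fin 2) (Sum.inr 1)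
          (fun l => Sum.inl l.castSucc))))
      (d_pi.rel (β := Fin (m + 1 + 1) ⊕ Fin 2)
        ![Sum.inr 0, Sum.inr 1, Sum.inl (Fin.last _)]))) fun M p s z v => ?_
    simp only [Fin.lastCases_castSucc, Fin.lastCases_last, Sum.elim_inl, Sum.elim_inr]
    exact Iff.rfl
  obtain ⟨F, hF'⟩ := hF
  choose G hG' using hG
  refine ⟨F, G, fun M _ p s z hM => ?_⟩
  have hp := hM.pbij
  have hs := hM.sinj
  have hz := hM.srange
  let e : M × M ≃ M := Equiv.ofBijective (fun q : M × M => p q.1 q.2) hp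
  have hpi : ∀ {a b a' b' : M}, p a b = p a' b' → a = a' ∧ b = b' := by
    intro a b a' b' h
    have := hp.1 (a₁ := (a, b)) (a₂ := (a', b')) h
    exact Prod.mk.injEq _ _ _ _ ▸ this
  have hps : ∀ x : M, p (e.symm x).1 (e.symm x).2 = x := fun x => e.apply_symm_apply x
  refine ⟨fun x => p (s^[c] (e.symm x).1) (e.symm x).2, fun i t => p (s^[i] z) (pk p m t),
    ⟨?_, ?_, ?_, ?_⟩, ?_, ?_⟩
  · intro x y h
    obtain ⟨h1, h2⟩ := hpi h
    have h3 := iter_inj hs c h1
    rw [← hps x, ← hps y, h2, h3]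
  · intro i i' t t' _ _ h
    obtain ⟨h1, h2⟩ := hpi h
    exact ⟨num_inj hs hz h1, pk_inj hp m h2⟩
  · intro i t a hi h
    exact num_ne hs hz hi _ (hpi h).1
  · intro x
    obtain ⟨⟨a, b⟩, hq⟩ := hp.2 x
    change p a b = x at hq
    rcases num_surj hz c a with ⟨i, hi, h⟩ | ⟨a', h⟩
    · obtain ⟨t, ht⟩ := pk_surj hp m b
      exact Or.inr ⟨i, hi, t, by rw [← hq, h, ht]⟩
    · refine Or.inl ⟨p a' b, ?_⟩
      have h1 : e.symm (p a' b) = (a', b) := e.symm_apply_apply (a', b)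
      show x = p (s^[c] (e.symm (p a' b)).1) (e.symm (p a' b)).2
      rw [h1, ← h, hq]
  · intro v
    rw [hF' M p s z hM v]
    constructor
    · rintro ⟨w, ⟨h1, h2⟩, h3⟩
      have h4 : e.symm (v 0) = (w 0, w 1) := by
        rw [← h1]
        exact e.symm_apply_apply (w 0, w 1)
      show p (s^[c] (e.symm (v 0)).1) (e.symm (v 0)).2 = v 1
      rw [h4]
      show p (s^[c] (w 0)) (w 1) = v 1
      rw [h2, h3]
    · intro h
      exact ⟨![(e.symm (v 0)).1, (e.symm (v 0)).2, s^[c] (e.symm (v 0)).1], ⟨hps (v 0), rfl⟩, h⟩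
  · intro i _ v
    rw [hG' i M p s z hM v]
    constructor
    · rintro ⟨w, ⟨h1, h2⟩, h3⟩
      show p (s^[i] z) (pk p m fun l => v l.castSucc) = v (Fin.last (m + 1))
      rw [h1, h2, h3]
    · intro h
      exact ⟨![s^[i] z, pk p m fun l => v l.castSucc], ⟨rfl, rfl⟩, h⟩

end Q265.AR_CODE
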