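import Pool.Agent.Q265.AssDefs

/-!
# Counting disjoint balls centred on the graph of a uniformly oscillating function
-/

open Set Filter Topology

namespace Q265.Ass

/-- Column index of `t` at level `n` in base `M`. -/
noncomputable def col (M n : ℕ) (t : ℝ) : ℕ := ⌊t * (M : ℝ) ^ n⌋₊

theorem col_div {M : ℕ} (hM : 0 < M) (n : ℕ) (t : ℝ) : col M (n + 1) t / M = col M n t := by
  unfold col
  rw [← Nat.floor_div_natCast]
  congr 1
  have : (M : ℝ) ≠ 0 := by positivity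
  rw [pow_succ]
  field_simp

theorem col_abs_sub {M : ℕ} (hM : 0 < M) {n : ℕ} {s t : ℝ} (hs : 0 ≤ s) (ht : 0 ≤ t)
    (h : col M n s = col M n t) : |s - t| ≤ 1 / (M : ℝ) ^ n := by
  have hp : (0 : ℝ) < (M : ℝ) ^ n := by positivity
  have h1 := Nat.floor_le (mul_nonneg hs hp.le)
  have h2 := Nat.lt_floor_add_one (s * (M : ℝ) ^ n)
  have h3 := Nat.floor_le (mul_nonneg ht hp.le)
  have h4 := Nat.lt_floor_add_one (t * (M : ℝ) ^ n)
  unfold col at h
  rw [h] at h1 h2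
  have h5 : |s - t| * (M : ℝ) ^ n ≤ 1 := by
    have h6 : |s - t| * (M : ℝ) ^ n = |s * (M : ℝ) ^ n - t * (M : ℝ) ^ n| := by
      rw [← sub_mul, abs_mul, abs_of_pos hp]
    rw [h6, abs_le]
    constructor <;> linarith
  rw [le_div_iff₀ hp]
  exact h5

/-- Number of columns of level `n` which contain a point of `P`. -/
noncomputable def cells (M n : ℕ) (P : Finset ℝ) : ℕ := (P.image (col M n)).card

theorem maps_to {M : ℕ} (hM : 0 < M) (n : ℕ) (P : Finset ℝ) :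
    ∀ j ∈ P.image (col M (n + 1)), j / M ∈ P.image (col M n) := by
  intro j hj
  rw [Finset.mem_image] at hj ⊢
  obtain ⟨t, ht, rfl⟩ := hj
  exact ⟨t, ht, (col_div hM n t).symm⟩

theorem fiber_sub {M : ℕ} (hM : 0 < M) (n : ℕ) (P : Finset ℝ) (b : ℕ) :
    ((P.image (col M (n + 1))).filter (fun j => j / M = b)) ⊆ Finset.Ico (b * M) (b * M + M) := by
  intro j hj
  rw [Finset.mem_filter] at hj
  rw [Finset.mem_Ico]
  obtain ⟨_, rfl⟩ := hj
  exact ⟨Nat.div_mul_le_self j M, Nat.lt_div_mul_add hM⟩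

theorem cells_succ_le {M : ℕ} (hM : 0 < M) (n : ℕ) (P : Finset ℝ) :
    cells M (n + 1) P ≤ M * cells M n P := by
  unfold cells
  refine Finset.card_le_mul_card_image_of_maps_to (f := fun j => j / M) (maps_to hM n P) M ?_
  intro b _
  refine (Finset.card_le_card (fiber_sub hM n P b)).trans ?_
  simp

theorem cells_add_le {M : ℕ} (hM : 0 < M) (n v : ℕ) (P : Finset ℝ) :
    cells M (n + v) P ≤ M ^ v * cells M n P := by
  induction v with
  | zero => simp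
  | succ v ih =>
    refine (cells_succ_le hM (n + v) P).trans ?_
    rw [pow_succ]
    calc M * cells M (n + v) P ≤ M * (M ^ v * cells M n P) := Nat.mul_le_mul_left M ih
      _ = M ^ v * M * cells M n P := by ring

theorem cells_initial {M : ℕ} (hM : 0 < M) (n : ℕ) (P : Finset ℝ) {x R : ℝ}
    (hR : R * (M : ℝ) ^ n ≤ 1) (hP : ∀ t ∈ P, |t - x| ≤ R) : cells M n P ≤ 3 := by
  have hp : (0 : ℝ) < (M : ℝ) ^ n := by positivity
  set a := (x - R) * (M : ℝ) ^ n with ha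
  have h1 : P.image (col M n) ⊆ Finset.Icc ⌊a⌋₊ (⌊a⌋₊ + 2) := by
    intro j hj
    rw [Finset.mem_image] at hj
    obtain ⟨t, ht, rfl⟩ := hj
    have h2 := abs_le.1 (hP t ht)
    rw [Finset.mem_Icc]
    unfold col
    constructor
    · refine Nat.floor_le_floor ?_
      rw [ha]
      exact mul_le_mul_of_nonneg_right (by linarith) hp.le
    · have h3 : ⌊t * (M : ℝ) ^ n⌋₊ < ⌊a⌋₊ + 3 := by
        rw [Nat.floor_lt' (by omega)]
        have h4 := Nat.lt_floor_add_one a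
        have h5 : t * (M : ℝ) ^ n ≤ a + 2 := by
          have h6 : t * (M : ℝ) ^ n ≤ (x + R) * (M : ℝ) ^ n :=
            mul_le_mul_of_nonneg_right (by linarith) hp.le
          rw [ha]
          nlinarith
        push_cast
        linarith
      omega
  unfold cells
  refine (Finset.card_le_card h1).trans ?_
  rw [Nat.card_Icc]
  omega

/-- The hypotheses on the function: half Hölder with constant `C` and oscillation at least
`c / m ^ n` on every interval `[i / m ^ (2n), (i + 1) / m ^ (2n)]`. -/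
structure Osc (F : ℝ → ℝ) (C c : ℝ) (m : ℕ) : Prop where
  hm : 2 ≤ m
  hC : 0 < C
  hc : 0 < c
  hCc : 8 * C ≤ c * m
  upper : ∀ s ∈ Icc (0 : ℝ) 1, ∀ t ∈ Icc (0 : ℝ) 1, |F s - F t| ≤ C * √|s - t|
  lower : ∀ n i : ℕ, i < (m ^ 2) ^ n → ∃ s t : ℝ,
    (i : ℝ) ≤ s * ((m ^ 2 : ℕ) : ℝ) ^ n ∧ s * ((m ^ 2 : ℕ) : ℝ) ^ n ≤ i + 1 ∧
    (i : ℝ) ≤ t * ((m ^ 2 : ℕ) : ℝ) ^ n ∧ t * ((m ^ 2 : ℕ) : ℝ) ^ n ≤ i + 1 ∧
    c / (m : ℝ) ^ n ≤ |F s - F t|

theorem Osc.sqrt_pow {m : ℕ} (hm : 0 < m) (n : ℕ) :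
    √(1 / ((m ^ 2 : ℕ) : ℝ) ^ n) = 1 / (m : ℝ) ^ n := by
  have h1 : (0 : ℝ) < (m : ℝ) ^ n := by positivity
  have h2 : 1 / ((m ^ 2 : ℕ) : ℝ) ^ n = (1 / (m : ℝ) ^ n) ^ 2 := by
    push_cast
    rw [div_pow, one_pow, ← pow_mul, ← pow_mul, mul_comm]
  rw [h2, Real.sqrt_sq (by positivity)]

theorem Osc.col_upper {F : ℝ → ℝ} {C c : ℝ} {m : ℕ} (H : Osc F C c m) {n : ℕ} {s t : ℝ}
    (hs : s ∈ Icc (0 : ℝ) 1) (ht : t ∈ Icc (0 : ℝ) 1)
    (h : |s - t| ≤ 1 / ((m ^ 2 : ℕ) : ℝ) ^ n) : |F s - F t| ≤ C / (m : ℝ) ^ n := by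
  have hm0 : 0 < m := lt_of_lt_of_le two_pos H.hm
  refine (H.upper s hs t ht).trans ?_
  have h1 := Real.sqrt_le_sqrt h
  rw [Osc.sqrt_pow hm0] at h1
  calc C * √|s - t| ≤ C * (1 / (m : ℝ) ^ n) := mul_le_mul_of_nonneg_left h1 H.hC.le
    _ = C / (m : ℝ) ^ n := by ring

theorem Osc.porous {F : ℝ → ℝ} {C c : ℝ} {m : ℕ} (H : Osc F C c m) {n : ℕ} {x R : ℝ}
    (hR0 : 0 < R) (hR : 4 * R ≤ c / (m : ℝ) ^ n) {P : Finset ℝ}
    (hP : ∀ t ∈ P, t ∈ Icc (0 : ℝ) 1 ∧ |F t - F x| ≤ R) :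
    cells (m ^ 2) (n + 1) P ≤ (m ^ 2 - 1) * cells (m ^ 2) n P := by
  have hm0 : 0 < m := lt_of_lt_of_le two_pos H.hm
  have hM : 0 < m ^ 2 := by positivity
  have hM2 : 4 ≤ m ^ 2 := by
    have := H.hm
    nlinarith
  have hmn : (0 : ℝ) < (m : ℝ) ^ n := by positivity
  have hMn : (0 : ℝ) < ((m ^ 2 : ℕ) : ℝ) ^ n := by positivity
  have hMn1 : (0 : ℝ) < ((m ^ 2 : ℕ) : ℝ) ^ (n + 1) := by positivity
  unfold cells
  refine Finset.card_le_mul_card_image_of_maps_to (f := fun j => j / m ^ 2) (maps_to hM n P)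
    (m ^ 2 - 1) ?_
  intro b hb
  by_cases hbM : b < (m ^ 2) ^ n
  · -- a genuine cell: some child contains no point of `P`
    obtain ⟨s, t, hs1, hs2, ht1, ht2, hst⟩ := H.lower n b hbM
    have hex : ∃ s0 : ℝ, (b : ℝ) ≤ s0 * ((m ^ 2 : ℕ) : ℝ) ^ n ∧
        s0 * ((m ^ 2 : ℕ) : ℝ) ^ n ≤ b + 1 ∧ c / (m : ℝ) ^ n / 2 ≤ |F s0 - F x| := by
      by_contra hcon
      push Not at hcon
      have h1 := hcon s hs1 hs2
      have h2 := hcon t ht1 ht2
      have h3 : |F s - F t| ≤ |F s - F x| + |F t - F x| := by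
        have h4 : F s - F t = (F s - F x) - (F t - F x) := by ring
        rw [h4]
        exact abs_sub _ _
      linarith
    obtain ⟨s0, hb1, hb2, hs0⟩ := hex
    have hbR : (b : ℝ) + 1 ≤ ((m ^ 2 : ℕ) : ℝ) ^ n := by
      have : b + 1 ≤ (m ^ 2) ^ n := hbM
      exact_mod_cast this
    have hs01 : s0 ∈ Icc (0 : ℝ) 1 := by
      constructor
      · by_contra hneg
        push Not at hneg
        have h1 : s0 * ((m ^ 2 : ℕ) : ℝ) ^ n < 0 := mul_neg_of_neg_of_pos hneg hMn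
        have h2 : (0 : ℝ) ≤ b := Nat.cast_nonneg b
        linarith
      · by_contra hneg
        push Not at hneg
        have h1 : ((m ^ 2 : ℕ) : ℝ) ^ n < s0 * ((m ^ 2 : ℕ) : ℝ) ^ n := by
          nlinarith
        linarith
    set j0 := min ⌊s0 * ((m ^ 2 : ℕ) : ℝ) ^ (n + 1)⌋₊ (b * m ^ 2 + m ^ 2 - 1) with hj0
    have hpow : s0 * ((m ^ 2 : ℕ) : ℝ) ^ (n + 1)
        = s0 * ((m ^ 2 : ℕ) : ℝ) ^ n * ((m ^ 2 : ℕ) : ℝ) := by
      rw [pow_succ]; ring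
    have hMr : (0 : ℝ) < ((m ^ 2 : ℕ) : ℝ) := by positivity
    have hlow : ((b * m ^ 2 : ℕ) : ℝ) ≤ s0 * ((m ^ 2 : ℕ) : ℝ) ^ (n + 1) := by
      rw [hpow, Nat.cast_mul]
      exact mul_le_mul_of_nonneg_right hb1 hMr.le
    have hupp : s0 * ((m ^ 2 : ℕ) : ℝ) ^ (n + 1) ≤ ((b * m ^ 2 + m ^ 2 : ℕ) : ℝ) := by
      rw [hpow, Nat.cast_add, Nat.cast_mul]
      have := mul_le_mul_of_nonneg_right hb2 hMr.le
      linarith
    have hfl := Nat.floor_le (le_trans (Nat.cast_nonneg _) hlow)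
    have hfl2 := Nat.lt_floor_add_one (s0 * ((m ^ 2 : ℕ) : ℝ) ^ (n + 1))
    have hj0a : b * m ^ 2 ≤ j0 := by
      rw [hj0]
      refine le_min (Nat.le_floor hlow) (by omega)
    have hj0b : j0 < b * m ^ 2 + m ^ 2 := by
      have : j0 ≤ b * m ^ 2 + m ^ 2 - 1 := min_le_right _ _
      omega
    have hj0c : (j0 : ℝ) ≤ s0 * ((m ^ 2 : ℕ) : ℝ) ^ (n + 1) := by
      have : j0 ≤ ⌊s0 * ((m ^ 2 : ℕ) : ℝ) ^ (n + 1)⌋₊ := min_le_left _ _
      have h2 : (j0 : ℝ) ≤ (⌊s0 * ((m ^ 2 : ℕ) : ℝ) ^ (n + 1)⌋₊ : ℝ) := by exact_mod_cast this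
      linarith
    have hj0d : s0 * ((m ^ 2 : ℕ) : ℝ) ^ (n + 1) ≤ j0 + 1 := by
      rcases min_choice ⌊s0 * ((m ^ 2 : ℕ) : ℝ) ^ (n + 1)⌋₊ (b * m ^ 2 + m ^ 2 - 1) with h | h
      · rw [hj0, h]
        linarith
      · have h3 : j0 + 1 = b * m ^ 2 + m ^ 2 := by
          rw [hj0, h]
          omega
        have h4 : ((j0 : ℝ) + 1) = ((b * m ^ 2 + m ^ 2 : ℕ) : ℝ) := by
          rw [← h3]; push_cast; ring
        rw [h4]
        exact hupp
    have hnot : j0 ∉ P.image (col (m ^ 2) (n + 1)) := by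
      intro hmem
      rw [Finset.mem_image] at hmem
      obtain ⟨t', ht', hcol⟩ := hmem
      obtain ⟨ht01, htR⟩ := hP t' ht'
      unfold col at hcol
      have h1 := Nat.floor_le (mul_nonneg ht01.1 hMn1.le)
      have h2 := Nat.lt_floor_add_one (t' * ((m ^ 2 : ℕ) : ℝ) ^ (n + 1))
      rw [hcol] at h1 h2
      have h3 : |s0 - t'| ≤ 1 / ((m ^ 2 : ℕ) : ℝ) ^ (n + 1) := by
        rw [le_div_iff₀ hMn1]
        have h6 : |s0 - t'| * ((m ^ 2 : ℕ) : ℝ) ^ (n + 1)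
            = |s0 * ((m ^ 2 : ℕ) : ℝ) ^ (n + 1) - t' * ((m ^ 2 : ℕ) : ℝ) ^ (n + 1)| := by
          rw [← sub_mul, abs_mul, abs_of_pos hMn1]
        rw [h6, abs_le]
        constructor <;> linarith
      have h4 := H.col_upper hs01 ht01 h3
      have h5 : C / (m : ℝ) ^ (n + 1) ≤ c / (m : ℝ) ^ n / 8 := by
        rw [pow_succ, div_div, div_le_div_iff₀ (by positivity) (by positivity)]
        have := H.hCc
        nlinarith
      have h6 : |F s0 - F x| ≤ |F s0 - F t'| + |F t' - F x| := by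
        have h7 : F s0 - F x = (F s0 - F t') + (F t' - F x) := by ring
        rw [h7]
        exact abs_add_le _ _
      linarith
    have hsub : ((P.image (col (m ^ 2) (n + 1))).filter (fun j => j / m ^ 2 = b))
        ⊆ (Finset.Ico (b * m ^ 2) (b * m ^ 2 + m ^ 2)).erase j0 := by
      intro j hj
      rw [Finset.mem_erase]
      refine ⟨?_, fiber_sub hM n P b hj⟩
      rintro rfl
      exact hnot (Finset.mem_filter.1 hj).1
    refine (Finset.card_le_card hsub).trans ?_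
    rw [Finset.card_erase_of_mem (Finset.mem_Ico.2 ⟨hj0a, hj0b⟩)]
    simp
  · -- the cell of the point `1`
    push Not at hbM
    have hsub : ((P.image (col (m ^ 2) (n + 1))).filter (fun j => j / m ^ 2 = b))
        ⊆ {(m ^ 2) ^ (n + 1)} := by
      intro j hj
      rw [Finset.mem_filter, Finset.mem_image] at hj
      obtain ⟨⟨t', ht', rfl⟩, hjb⟩ := hj
      obtain ⟨ht01, -⟩ := hP t' ht'
      rw [Finset.mem_singleton]
      have h1 : (m ^ 2) ^ (n + 1) ≤ col (m ^ 2) (n + 1) t' := by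
        have h2 := Nat.div_mul_le_self (col (m ^ 2) (n + 1) t') (m ^ 2)
        rw [hjb] at h2
        rw [pow_succ]
        exact (Nat.mul_le_mul_right (m ^ 2) hbM).trans h2
      have h2 : col (m ^ 2) (n + 1) t' ≤ (m ^ 2) ^ (n + 1) := by
        unfold col
        refine Nat.floor_le_of_le ?_
        push_cast
        have h3 : (0 : ℝ) < ((m : ℝ) ^ 2) ^ (n + 1) := by positivity
        nlinarith [ht01.2]
      exact le_antisymm h2 h1
    refine (Finset.card_le_card hsub).trans ?_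
    rw [Finset.card_singleton]
    omega

theorem Osc.cells_porous {F : ℝ → ℝ} {C c : ℝ} {m : ℕ} (H : Osc F C c m) {n0 : ℕ} {x R : ℝ}
    (hR0 : 0 < R) {P : Finset ℝ} (hP : ∀ t ∈ P, t ∈ Icc (0 : ℝ) 1 ∧ |F t - F x| ≤ R) (u : ℕ)
    (hu : ∀ l, n0 ≤ l → l < n0 + u → 4 * R ≤ c / (m : ℝ) ^ l) :
    cells (m ^ 2) (n0 + u) P ≤ (m ^ 2 - 1) ^ u * cells (m ^ 2) n0 P := by
  induction u with
  | zero => simp
  | succ u ih =>
    have h1 := ih (fun l hl hl2 => hu l hl (by omega))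
    have h2 := H.porous (n := n0 + u) (x := x) hR0 (hu _ (by omega) (by omega)) hP
    refine h2.trans ?_
    rw [pow_succ]
    calc (m ^ 2 - 1) * cells (m ^ 2) (n0 + u) P
        ≤ (m ^ 2 - 1) * ((m ^ 2 - 1) ^ u * cells (m ^ 2) n0 P) := Nat.mul_le_mul_left _ h1
      _ = (m ^ 2 - 1) ^ u * (m ^ 2 - 1) * cells (m ^ 2) n0 P := by ring

end Q265.Ass
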