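import Pool.Agent.Q265.AssCore

/-!
# The packing numbers of the graph of a uniformly oscillating function
-/

open Set Filter Topology

namespace Q265.Ass

theorem dist_le_of {p q : EuclideanSpace ℝ (Fin 2)} {r : ℝ} (hr : 0 < r)
    (h0 : |p 0 - q 0| ≤ r) (h1 : |p 1 - q 1| ≤ r) : dist p q ≤ r + r := by
  rw [EuclideanSpace.dist_eq, Fin.sum_univ_two, Real.dist_eq, Real.dist_eq]
  rw [Real.sqrt_le_left (by positivity)]
  have h2 : 0 ≤ |p 0 - q 0| := abs_nonneg _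
  have h3 : 0 ≤ |p 1 - q 1| := abs_nonneg _
  nlinarith

/-- Counting points with disjoint balls by columns and rows. -/
theorem card_le_cells {S : Finset (EuclideanSpace ℝ (Fin 2))} {r : ℝ} (hr : 0 < r)
    (hS : (S : Set (EuclideanSpace ℝ (Fin 2))).PairwiseDisjoint
      (fun p => Metric.closedBall p r)) {M n : ℕ} (hM : 0 < M)
    (hn : 1 / (M : ℝ) ^ n ≤ r) (h01 : ∀ p ∈ S, 0 ≤ p 0) {L : ℝ} (hL0 : 0 ≤ L)
    (hL : ∀ p ∈ S, ∀ q ∈ S, col M n (p 0) = col M n (q 0) → |p 1 - q 1| ≤ L) :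
    (S.card : ℝ) ≤ (2 * L / r + 2) * cells M n (S.image (fun p => p 0)) := by
  have hcells : cells M n (S.image (fun p => p 0)) = (S.image (fun p => col M n (p 0))).card := by
    unfold cells
    rw [Finset.image_image]
    rfl
  have hB0 : 0 ≤ 2 * L / r + 2 := by positivity
  have key : S.card ≤ ⌊2 * L / r + 2⌋₊ * (S.image (fun p => col M n (p 0))).card := by
    refine Finset.card_le_mul_card_image S _ ?_
    intro a ha
    rw [Finset.mem_image] at ha
    obtain ⟨p0, hp0, rfl⟩ := ha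
    refine Nat.le_floor ?_
    set lo : ℤ := ⌊(p0 1 - L) / r⌋ with hlo
    set hi : ℤ := ⌊(p0 1 + L) / r⌋ with hhi
    have hlohi : lo ≤ hi := Int.floor_le_floor (div_le_div_of_nonneg_right (by linarith) hr.le)
    have h1 : (S.filter (fun x => col M n (x 0) = col M n (p0 0))).card
        ≤ (Finset.Icc lo hi).card := by
      refine Finset.card_le_card_of_injOn (fun p => ⌊p 1 / r⌋) ?_ ?_
      · intro p hp
        rw [Finset.mem_coe, Finset.mem_filter] at hp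
        have h2 := abs_le.1 (hL p hp.1 p0 hp0 hp.2)
        rw [Finset.coe_Icc]
        refine ⟨Int.floor_le_floor ?_, Int.floor_le_floor ?_⟩
        · exact div_le_div_of_nonneg_right (by linarith) hr.le
        · exact div_le_div_of_nonneg_right (by linarith) hr.le
      · intro p hp q hq hpq
        rw [Finset.mem_coe, Finset.mem_filter] at hp hq
        dsimp only at hpq
        by_contra hne
        have h2 := hS hp.1 hq.1 hne
        dsimp only [Function.onFun] at h2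
        rw [disjoint_closedBall_closedBall_iff hr.le hr.le] at h2
        have h3 : |p 0 - q 0| ≤ r :=
          (col_abs_sub hM (h01 p hp.1) (h01 q hq.1) (hp.2.trans hq.2.symm)).trans hn
        have h4 : |p 1 - q 1| ≤ r := by
          have h5 := Int.abs_sub_lt_one_of_floor_eq_floor hpq
          rw [← sub_div, abs_div, abs_of_pos hr, div_lt_one hr] at h5
          exact h5.le
        have h6 := dist_le_of hr h3 h4
        linarith
    have h2 : ((Finset.Icc lo hi).card : ℝ) ≤ 2 * L / r + 2 := by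
      rw [Int.card_Icc]
      have h3 : (((hi + 1 - lo).toNat : ℕ) : ℝ) = (hi : ℝ) + 1 - lo := by
        have h4 : (((hi + 1 - lo).toNat : ℕ) : ℤ) = hi + 1 - lo := Int.toNat_of_nonneg (by omega)
        exact_mod_cast h4
      rw [h3]
      have h5 : (hi : ℝ) ≤ (p0 1 + L) / r := Int.floor_le _
      have h6 : (p0 1 - L) / r < lo + 1 := Int.lt_floor_add_one _
      have h7 : (p0 1 + L) / r - (p0 1 - L) / r = 2 * L / r := by ring
      linarith
    have h3 : ((S.filter (fun x => col M n (x 0) = col M n (p0 0))).card : ℝ)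
        ≤ ((Finset.Icc lo hi).card : ℝ) := by exact_mod_cast h1
    exact h3.trans h2
  rw [hcells]
  calc (S.card : ℝ) ≤ ((⌊2 * L / r + 2⌋₊ * (S.image (fun p => col M n (p 0))).card : ℕ) : ℝ) := by
        exact_mod_cast key
    _ = (⌊2 * L / r + 2⌋₊ : ℝ) * (S.image (fun p => col M n (p 0))).card := by push_cast; ring
    _ ≤ (2 * L / r + 2) * (S.image (fun p => col M n (p 0))).card :=
        mul_le_mul_of_nonneg_right (Nat.floor_le hB0) (Nat.cast_nonneg _)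

/-- The growth rate `m² (m² - 1)`. -/
noncomputable def qq (m : ℕ) : ℝ := (m : ℝ) ^ 2 * ((m : ℝ) ^ 2 - 1)

/-- The exponent `log (m² (m² - 1)) / log m² < 2`. -/
noncomputable def bet (m : ℕ) : ℝ := Real.logb ((m : ℝ) ^ 2) (qq m)

section

variable {m : ℕ} (hm : 2 ≤ m)
include hm

theorem m_ge : (2 : ℝ) ≤ m := by exact_mod_cast hm

theorem M_ge : (4 : ℝ) ≤ (m : ℝ) ^ 2 := by
  have := m_ge hm
  nlinarith

theorem qq_ge : (m : ℝ) ^ 2 ≤ qq m := by
  have := M_ge hm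
  unfold qq
  nlinarith

theorem qq_pos : 0 < qq m := lt_of_lt_of_le (by linarith [M_ge hm]) (qq_ge hm)

theorem one_le_qq : 1 ≤ qq m := le_trans (by linarith [M_ge hm]) (qq_ge hm)

theorem cube_le_qq : (m : ℝ) * (m : ℝ) ^ 2 ≤ qq m := by
  have h1 := m_ge hm
  have h2 : (m : ℝ) ≤ (m : ℝ) ^ 2 - 1 := by nlinarith
  unfold qq
  rw [mul_comm]
  exact mul_le_mul_of_nonneg_left h2 (by positivity)

theorem bet_nonneg : 0 ≤ bet m :=
  Real.logb_nonneg (by linarith [M_ge hm]) (one_le_qq hm)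

theorem bet_lt_two : bet m < 2 := by
  unfold bet
  have h4 := M_ge hm
  rw [Real.logb_lt_iff_lt_rpow (by linarith) (qq_pos hm)]
  have h2 : ((m : ℝ) ^ 2) ^ (2 : ℝ) = ((m : ℝ) ^ 2) ^ 2 := by
    exact_mod_cast Real.rpow_natCast ((m : ℝ) ^ 2) 2
  rw [h2]
  unfold qq
  nlinarith

theorem rpow_bet : ((m : ℝ) ^ 2) ^ (bet m) = qq m := by
  have h4 := M_ge hm
  exact Real.rpow_logb (by linarith) (by linarith) (qq_pos hm)

theorem rpow_pow_bet (k : ℕ) : (((m : ℝ) ^ 2) ^ k) ^ (bet m) = qq m ^ k := by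
  have h4 := M_ge hm
  rw [← Real.rpow_natCast, ← Real.rpow_mul (by positivity), mul_comm,
    Real.rpow_mul (by positivity), rpow_bet hm, Real.rpow_natCast]

end

/-- **The packing bound.** -/
theorem Osc.main {F : ℝ → ℝ} {C c : ℝ} {m : ℕ} (H : Osc F C c m) :
    ∃ K : ℝ, 0 < K ∧ ∀ r R x : ℝ, 0 < r → r < R → ∀ S : Finset (EuclideanSpace ℝ (Fin 2)),
      (S : Set (EuclideanSpace ℝ (Fin 2))).PairwiseDisjoint (fun p => Metric.closedBall p r) →
      (∀ p ∈ S, p 0 ∈ Icc (0 : ℝ) 1 ∧ p 1 = F (p 0) ∧ |p 0 - x| ≤ R ∧ |p 1 - F x| ≤ R) →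
      (S.card : ℝ) ≤ K * (R / r) ^ (bet m) := by
  have hm := H.hm
  have hC := H.hC
  have hc := H.hc
  have hm0 : 0 < m := lt_of_lt_of_le two_pos hm
  have hMnat : 0 < m ^ 2 := by positivity
  have hm2 := m_ge hm
  have hM4 := M_ge hm
  have hq1 := one_le_qq hm
  have hqp := qq_pos hm
  have hcube := cube_le_qq hm
  have hb0 := bet_nonneg hm
  set q := qq m with hqdef
  set β := bet m with hβ
  refine ⟨(6 * C + 6) * (1 + q) + 18 * q ^ 2 + (6 * C + 6) * (4 / c) * q ^ 2,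
    by positivity, ?_⟩
  set K := (6 * C + 6) * (1 + q) + 18 * q ^ 2 + (6 * C + 6) * (4 / c) * q ^ 2 with hK
  intro r R x hr hrR S hS hSF
  have hR0 : 0 < R := hr.trans hrR
  have hRr1 : 1 ≤ R / r := by
    rw [le_div_iff₀ hr]; linarith
  have hRrpow1 : 1 ≤ (R / r) ^ β := Real.one_le_rpow hRr1 hb0
  have hRrpow0 : 0 < (R / r) ^ β := by linarith
  have ht1 : 0 ≤ 18 * q ^ 2 := by positivity
  have ht2 : 0 ≤ (6 * C + 6) * (4 / c) * q ^ 2 := by positivity
  have ht3 : 0 ≤ (6 * C + 6) * q := by positivity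
  have ht4 : 0 ≤ (6 * C + 6) * (1 + q) := by positivity
  -- the set of abscissae
  set P := S.image (fun p => p 0) with hPdef
  have hP : ∀ t ∈ P, t ∈ Icc (0 : ℝ) 1 ∧ |t - x| ≤ R ∧ |F t - F x| ≤ R := by
    intro t ht
    rw [hPdef, Finset.mem_image] at ht
    obtain ⟨p, hp, rfl⟩ := ht
    obtain ⟨h1, h2, h3, h4⟩ := hSF p hp
    refine ⟨h1, h3, ?_⟩
    dsimp only
    rw [← h2]
    exact h4
  have hcast : ((m ^ 2 : ℕ) : ℝ) = (m : ℝ) ^ 2 := by push_cast; ring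
  -- two bounds by columns
  have hcol1 : ∀ n : ℕ, 1 / ((m : ℝ) ^ 2) ^ n ≤ r →
      (S.card : ℝ) ≤ (6 * (R / r)) * cells (m ^ 2) n P := by
    intro n hn
    have h1 := card_le_cells hr hS hMnat (n := n) (by rw [hcast]; exact hn)
      (fun p hp => (hSF p hp).1.1) (L := 2 * R) (by positivity) (by
        intro p hp p' hp' _
        have h2 := (hSF p hp).2.2.2
        have h3 := (hSF p' hp').2.2.2
        have h4 : p 1 - p' 1 = (p 1 - F x) - (p' 1 - F x) := by ring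
        rw [h4]
        refine (abs_sub _ _).trans ?_
        linarith)
    refine h1.trans (mul_le_mul_of_nonneg_right ?_ (Nat.cast_nonneg _))
    have h2 : 2 * (2 * R) / r = 4 * (R / r) := by ring
    rw [h2]
    linarith
  have hcol2 : ∀ n : ℕ, 1 / ((m : ℝ) ^ 2) ^ n ≤ r →
      (S.card : ℝ) ≤ ((2 * C + 2) * (m : ℝ) ^ n) * cells (m ^ 2) n P := by
    intro n hn
    have hmn : (1 : ℝ) ≤ (m : ℝ) ^ n := one_le_pow₀ (by linarith)
    have h1 := card_le_cells hr hS hMnat (n := n) (by rw [hcast]; exact hn)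
      (fun p hp => (hSF p hp).1.1) (L := C / (m : ℝ) ^ n) (by positivity) (by
        intro p hp p' hp' hcc
        have h2 := hSF p hp
        have h3 := hSF p' hp'
        rw [h2.2.1, h3.2.1]
        exact H.col_upper h2.1 h3.1 (col_abs_sub hMnat h2.1.1 h3.1.1 hcc))
    refine h1.trans (mul_le_mul_of_nonneg_right ?_ (Nat.cast_nonneg _))
    have h2 : 2 * (C / (m : ℝ) ^ n) / r ≤ 2 * C * (m : ℝ) ^ n := by
      rw [div_le_iff₀ hr]
      have h3 : 1 ≤ r * ((m : ℝ) ^ 2) ^ n := by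
        rw [div_le_iff₀ (by positivity)] at hn
        exact hn
      have h4 : ((m : ℝ) ^ 2) ^ n = (m : ℝ) ^ n * (m : ℝ) ^ n := by
        rw [← mul_pow]; congr 1; ring
      rw [h4] at h3
      have h5 : 2 * C * (m : ℝ) ^ n * r = 2 * (C / (m : ℝ) ^ n) * (r * ((m : ℝ) ^ n * (m : ℝ) ^ n)) := by
        field_simp
      rw [h5]
      have h6 : 0 ≤ 2 * (C / (m : ℝ) ^ n) := by positivity
      nlinarith
    nlinarith
  have hcell0 : cells (m ^ 2) 0 P ≤ 3 := by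
    refine cells_initial hMnat 0 P (x := 0) (R := 1) (by simp) ?_
    intro t ht
    have h1 := (hP t ht).1
    rw [sub_zero, abs_of_nonneg h1.1]
    exact h1.2
  rcases le_or_gt 1 r with hr1 | hr1
  · -- large radii
    have h1 := hcol2 0 (by simpa using hr1)
    have h2 : (cells (m ^ 2) 0 P : ℝ) ≤ 3 := by exact_mod_cast hcell0
    rw [pow_zero, mul_one] at h1
    have h3 : (S.card : ℝ) ≤ 6 * C + 6 := by nlinarith
    have h4 : 6 * C + 6 ≤ K := by
      rw [hK]; nlinarith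
    calc (S.card : ℝ) ≤ 6 * C + 6 := h3
      _ ≤ K := h4
      _ = K * 1 := by ring
      _ ≤ K * (R / r) ^ β := mul_le_mul_of_nonneg_left hRrpow1 (by rw [hK]; positivity)
  -- now `r < 1`
  have hy0 : (0 : ℝ) < 1 / (m : ℝ) ^ 2 := by positivity
  have hy1 : 1 / (m : ℝ) ^ 2 < 1 := by
    rw [div_lt_one (by positivity)]; linarith
  obtain ⟨k, hk1, hk2⟩ := exists_nat_pow_near_of_lt_one hr hr1.le hy0 hy1
  have hpow : ∀ n : ℕ, (1 / (m : ℝ) ^ 2) ^ n = 1 / ((m : ℝ) ^ 2) ^ n := fun n => by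
    rw [div_pow, one_pow]
  rw [hpow] at hk1 hk2
  have hn := hk1.le
  have hMk : (0 : ℝ) < ((m : ℝ) ^ 2) ^ k := by positivity
  have hrk : r * ((m : ℝ) ^ 2) ^ k ≤ 1 := by
    rw [le_div_iff₀ hMk] at hk2
    exact hk2
  have hrk1 : 1 ≤ r * ((m : ℝ) ^ 2) ^ (k + 1) := by
    rw [div_le_iff₀ (by positivity)] at hn
    exact hn
  have hmul3 : ∀ n : ℕ, (m : ℝ) ^ n * ((m : ℝ) ^ 2) ^ n ≤ q ^ n := by
    intro n
    rw [← mul_pow]
    exact pow_le_pow_left₀ (by positivity) hcube n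
  rcases lt_or_ge 1 R with hR1 | hR1
  · -- large balls
    have h1 := hcol2 (k + 1) hn
    have h2 : (cells (m ^ 2) (k + 1) P : ℝ) ≤ 3 * ((m : ℝ) ^ 2) ^ (k + 1) := by
      have h3 := cells_add_le hMnat 0 (k + 1) P
      rw [zero_add] at h3
      have h4 : cells (m ^ 2) (k + 1) P ≤ (m ^ 2) ^ (k + 1) * 3 :=
        h3.trans (Nat.mul_le_mul_left _ hcell0)
      have h5 : (cells (m ^ 2) (k + 1) P : ℝ) ≤ (((m ^ 2) ^ (k + 1) * 3 : ℕ) : ℝ) := by
        exact_mod_cast h4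
      push_cast at h5
      linarith
    have h3 : (S.card : ℝ) ≤ (6 * C + 6) * q ^ (k + 1) := by
      refine h1.trans ?_
      have h4 := hmul3 (k + 1)
      calc (2 * C + 2) * (m : ℝ) ^ (k + 1) * (cells (m ^ 2) (k + 1) P : ℝ)
          ≤ (2 * C + 2) * (m : ℝ) ^ (k + 1) * (3 * ((m : ℝ) ^ 2) ^ (k + 1)) :=
            mul_le_mul_of_nonneg_left h2 (by positivity)
        _ = (6 * C + 6) * ((m : ℝ) ^ (k + 1) * ((m : ℝ) ^ 2) ^ (k + 1)) := by ring
        _ ≤ (6 * C + 6) * q ^ (k + 1) := mul_le_mul_of_nonneg_left h4 (by positivity)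
    have h4 : q ^ k ≤ (R / r) ^ β := by
      rw [hqdef, ← rpow_pow_bet hm k]
      refine Real.rpow_le_rpow hMk.le ?_ hb0
      rw [le_div_iff₀ hr]
      nlinarith
    calc (S.card : ℝ) ≤ (6 * C + 6) * q ^ (k + 1) := h3
      _ = (6 * C + 6) * q * q ^ k := by rw [pow_succ]; ring
      _ ≤ (6 * C + 6) * q * (R / r) ^ β := mul_le_mul_of_nonneg_left h4 (by positivity)
      _ ≤ K * (R / r) ^ β := mul_le_mul_of_nonneg_right (by rw [hK]; nlinarith) hRrpow0.le
  -- now `R ≤ 1`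
  obtain ⟨n0, hn1, hn2⟩ := exists_nat_pow_near_of_lt_one hR0 hR1 hy0 hy1
  rw [hpow] at hn1 hn2
  have hMn0 : (0 : ℝ) < ((m : ℝ) ^ 2) ^ n0 := by positivity
  have hRn0 : R * ((m : ℝ) ^ 2) ^ n0 ≤ 1 := by
    rw [le_div_iff₀ hMn0] at hn2
    exact hn2
  have hRn1 : 1 ≤ R * ((m : ℝ) ^ 2) ^ (n0 + 1) := by
    have := hn1.le
    rw [div_le_iff₀ (by positivity)] at this
    exact this
  have hlt : n0 < k + 1 := by
    by_contra hcon
    push Not at hcon
    have h1 : ((m : ℝ) ^ 2) ^ (k + 1) ≤ ((m : ℝ) ^ 2) ^ n0 :=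
      pow_le_pow_right₀ (by linarith) hcon
    have h2 : r * ((m : ℝ) ^ 2) ^ (k + 1) < R * ((m : ℝ) ^ 2) ^ n0 := by
      calc r * ((m : ℝ) ^ 2) ^ (k + 1) < R * ((m : ℝ) ^ 2) ^ (k + 1) :=
            mul_lt_mul_of_pos_right hrR (by positivity)
        _ ≤ R * ((m : ℝ) ^ 2) ^ n0 := mul_le_mul_of_nonneg_left h1 hR0.le
    linarith
  obtain ⟨k', hk'⟩ := Nat.exists_eq_add_of_lt hlt
  -- `k + 1 = n0 + k' + 1`
  set v' := k' + 1 with hv'
  have hkn : k + 1 = n0 + v' := by omega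
  have hcell_n0 : cells (m ^ 2) n0 P ≤ 3 :=
    cells_initial hMnat n0 P (x := x) (R := R) (by rw [hcast]; exact hRn0)
      (fun t ht => (hP t ht).2.1)
  have hfinal : q ^ v' ≤ q ^ 2 * (R / r) ^ β := by
    have h1 : ((m : ℝ) ^ 2) ^ v' ≤ ((m : ℝ) ^ 2) ^ 2 * (R / r) := by
      rw [← mul_div_assoc, le_div_iff₀ hr]
      have h2 : ((m : ℝ) ^ 2) ^ 2 * R * ((m : ℝ) ^ 2) ^ n0
          = (R * ((m : ℝ) ^ 2) ^ (n0 + 1)) * (m : ℝ) ^ 2 := by ring
      have h3 : ((m : ℝ) ^ 2) ^ v' * r * ((m : ℝ) ^ 2) ^ n0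
          = (r * ((m : ℝ) ^ 2) ^ k) * (m : ℝ) ^ 2 := by
        have h4 : ((m : ℝ) ^ 2) ^ v' * ((m : ℝ) ^ 2) ^ n0 = ((m : ℝ) ^ 2) ^ k * (m : ℝ) ^ 2 := by
          rw [← pow_add, ← pow_succ]
          congr 1
          omega
        calc ((m : ℝ) ^ 2) ^ v' * r * ((m : ℝ) ^ 2) ^ n0
            = r * (((m : ℝ) ^ 2) ^ v' * ((m : ℝ) ^ 2) ^ n0) := by ring
          _ = r * (((m : ℝ) ^ 2) ^ k * (m : ℝ) ^ 2) := by rw [h4]
          _ = (r * ((m : ℝ) ^ 2) ^ k) * (m : ℝ) ^ 2 := by ring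
      refine le_of_mul_le_mul_right ?_ hMn0
      rw [h2, h3]
      refine mul_le_mul_of_nonneg_right ?_ (by positivity)
      linarith
    have h2 := Real.rpow_le_rpow (by positivity) h1 hb0
    rw [rpow_pow_bet hm, Real.mul_rpow (by positivity) (by positivity), rpow_pow_bet hm] at h2
    exact h2
  have hPf : ∀ t ∈ P, t ∈ Icc (0 : ℝ) 1 ∧ |F t - F x| ≤ R :=
    fun t ht => ⟨(hP t ht).1, (hP t ht).2.2⟩
  have hsub1 : ((m ^ 2 - 1 : ℕ) : ℝ) = (m : ℝ) ^ 2 - 1 := by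
    rw [Nat.cast_sub (by omega)]
    push_cast
    ring
  by_cases hall : ∀ l, n0 ≤ l → l < n0 + v' → 4 * R ≤ c / (m : ℝ) ^ l
  · -- all scales are porous
    have h1 := H.cells_porous hR0 hPf v' hall
    have h2 : (cells (m ^ 2) (n0 + v') P : ℝ) ≤ 3 * ((m : ℝ) ^ 2 - 1) ^ v' := by
      have h3 : cells (m ^ 2) (n0 + v') P ≤ (m ^ 2 - 1) ^ v' * 3 :=
        h1.trans (Nat.mul_le_mul_left _ hcell_n0)
      have h4 : (cells (m ^ 2) (n0 + v') P : ℝ) ≤ (((m ^ 2 - 1) ^ v' * 3 : ℕ) : ℝ) := by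
        exact_mod_cast h3
      rw [Nat.cast_mul, Nat.cast_pow, hsub1] at h4
      push_cast at h4
      linarith
    have h3 := hcol1 (n0 + v') (by rw [← hkn]; exact hn)
    have h4 : R / r ≤ ((m : ℝ) ^ 2) ^ v' := by
      rw [div_le_iff₀ hr]
      have h5 : ((m : ℝ) ^ 2) ^ (k + 1) = ((m : ℝ) ^ 2) ^ v' * ((m : ℝ) ^ 2) ^ n0 := by
        rw [hkn, pow_add]; ring
      rw [h5] at hrk1
      refine le_of_mul_le_mul_right ?_ hMn0
      calc R * ((m : ℝ) ^ 2) ^ n0 ≤ 1 := hRn0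
        _ ≤ r * (((m : ℝ) ^ 2) ^ v' * ((m : ℝ) ^ 2) ^ n0) := hrk1
        _ = ((m : ℝ) ^ 2) ^ v' * r * ((m : ℝ) ^ 2) ^ n0 := by ring
    have hM1 : (0 : ℝ) ≤ (m : ℝ) ^ 2 - 1 := by linarith
    have h5 : (S.card : ℝ) ≤ 18 * q ^ v' := by
      refine h3.trans ?_
      calc 6 * (R / r) * (cells (m ^ 2) (n0 + v') P : ℝ)
          ≤ 6 * ((m : ℝ) ^ 2) ^ v' * (3 * ((m : ℝ) ^ 2 - 1) ^ v') := by
            refine mul_le_mul ?_ h2 (Nat.cast_nonneg _) (by positivity)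
            linarith
        _ = 18 * q ^ v' := by
            rw [hqdef]
            unfold qq
            rw [mul_pow]
            ring
    calc (S.card : ℝ) ≤ 18 * q ^ v' := h5
      _ ≤ 18 * (q ^ 2 * (R / r) ^ β) := by linarith
      _ = 18 * q ^ 2 * (R / r) ^ β := by ring
      _ ≤ K * (R / r) ^ β := mul_le_mul_of_nonneg_right (by rw [hK]; linarith) hRrpow0.le
  · -- the porous scales end at the level `n0 + u`
    have hex : ∃ u, u < v' ∧ c / (m : ℝ) ^ (n0 + u) < 4 * R := by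
      push Not at hall
      obtain ⟨l, hl1, hl2, hl3⟩ := hall
      refine ⟨l - n0, by omega, ?_⟩
      have : n0 + (l - n0) = l := by omega
      rw [this]
      exact hl3
    classical
    set u := Nat.find hex with hu
    obtain ⟨huv, huR⟩ := Nat.find_spec hex
    rw [← hu] at huv huR
    have hmin : ∀ l, n0 ≤ l → l < n0 + u → 4 * R ≤ c / (m : ℝ) ^ l := by
      intro l hl1 hl2
      have h1 : l - n0 < u := by omega
      have h2 := Nat.find_min hex h1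
      push Not at h2
      have h3 := h2 (by omega)
      have : n0 + (l - n0) = l := by omega
      rw [this] at h3
      exact h3
    have h1 := H.cells_porous hR0 hPf u hmin
    obtain ⟨v, hv⟩ := Nat.exists_eq_add_of_lt huv
    set w := v + 1 with hw
    have hvw : v' = u + w := by omega
    have h2 := cells_add_le hMnat (n0 + u) w P
    have h3 : (cells (m ^ 2) (k + 1) P : ℝ)
        ≤ 3 * (((m : ℝ) ^ 2 - 1) ^ u * ((m : ℝ) ^ 2) ^ w) := by
      have h4 : cells (m ^ 2) (n0 + u + w) P ≤ (m ^ 2) ^ w * ((m ^ 2 - 1) ^ u * 3) :=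
        h2.trans (Nat.mul_le_mul_left _ (h1.trans (Nat.mul_le_mul_left _ hcell_n0)))
      have h5 : k + 1 = n0 + u + w := by omega
      rw [h5]
      have h6 : (cells (m ^ 2) (n0 + u + w) P : ℝ)
          ≤ (((m ^ 2) ^ w * ((m ^ 2 - 1) ^ u * 3) : ℕ) : ℝ) := by
        exact_mod_cast h4
      simp only [Nat.cast_mul, Nat.cast_pow, hsub1, Nat.cast_ofNat] at h6
      linarith
    have h4 := hcol2 (k + 1) hn
    have hM1 : (0 : ℝ) ≤ (m : ℝ) ^ 2 - 1 := by linarith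
    have hmn0 : (m : ℝ) ^ n0 ≤ 4 / c * (m : ℝ) ^ u := by
      have h5 : c < 4 * R * (m : ℝ) ^ (n0 + u) := by
        rw [div_lt_iff₀ (by positivity)] at huR
        exact huR
      have h6 : c * ((m : ℝ) ^ n0 * (m : ℝ) ^ n0) ≤ 4 * ((m : ℝ) ^ n0 * (m : ℝ) ^ u) := by
        have h7 : ((m : ℝ) ^ 2) ^ n0 = (m : ℝ) ^ n0 * (m : ℝ) ^ n0 := by
          rw [← mul_pow]; congr 1; ring
        rw [← h7]
        calc c * ((m : ℝ) ^ 2) ^ n0 ≤ 4 * R * (m : ℝ) ^ (n0 + u) * ((m : ℝ) ^ 2) ^ n0 :=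
              mul_le_mul_of_nonneg_right h5.le hMn0.le
          _ = 4 * (m : ℝ) ^ (n0 + u) * (R * ((m : ℝ) ^ 2) ^ n0) := by ring
          _ ≤ 4 * (m : ℝ) ^ (n0 + u) * 1 := mul_le_mul_of_nonneg_left hRn0 (by positivity)
          _ = 4 * ((m : ℝ) ^ n0 * (m : ℝ) ^ u) := by rw [pow_add]; ring
      have h8 : (0 : ℝ) < (m : ℝ) ^ n0 := by positivity
      have h9 : c * (m : ℝ) ^ n0 ≤ 4 * (m : ℝ) ^ u := by
        refine le_of_mul_le_mul_right ?_ h8
        nlinarith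
      rw [div_mul_eq_mul_div, le_div_iff₀ hc]
      linarith
    have h5 : (S.card : ℝ) ≤ (6 * C + 6) * (4 / c) * q ^ v' := by
      have h6 : (m : ℝ) ^ (k + 1) ≤ 4 / c * (((m : ℝ) ^ 2) ^ u * (m : ℝ) ^ w) := by
        have h7 : k + 1 = n0 + u + w := by omega
        rw [h7, pow_add, pow_add]
        have h8 : ((m : ℝ) ^ 2) ^ u = (m : ℝ) ^ u * (m : ℝ) ^ u := by
          rw [← mul_pow]; congr 1; ring
        rw [h8]
        calc (m : ℝ) ^ n0 * (m : ℝ) ^ u * (m : ℝ) ^ w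
            ≤ (4 / c * (m : ℝ) ^ u) * (m : ℝ) ^ u * (m : ℝ) ^ w :=
              mul_le_mul_of_nonneg_right (mul_le_mul_of_nonneg_right hmn0 (by positivity))
                (by positivity)
          _ = 4 / c * ((m : ℝ) ^ u * (m : ℝ) ^ u * (m : ℝ) ^ w) := by ring
      refine h4.trans ?_
      calc (2 * C + 2) * (m : ℝ) ^ (k + 1) * (cells (m ^ 2) (k + 1) P : ℝ)
          ≤ (2 * C + 2) * (4 / c * (((m : ℝ) ^ 2) ^ u * (m : ℝ) ^ w)) *
            (3 * (((m : ℝ) ^ 2 - 1) ^ u * ((m : ℝ) ^ 2) ^ w)) := by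
            refine mul_le_mul (mul_le_mul_of_nonneg_left h6 (by positivity)) h3
              (Nat.cast_nonneg _) (by positivity)
        _ = (6 * C + 6) * (4 / c) * (((m : ℝ) ^ 2 * ((m : ℝ) ^ 2 - 1)) ^ u *
            ((m : ℝ) ^ w * ((m : ℝ) ^ 2) ^ w)) := by
            rw [mul_pow]; ring
        _ ≤ (6 * C + 6) * (4 / c) * (q ^ u * q ^ w) := by
            refine mul_le_mul_of_nonneg_left ?_ (by positivity)
            refine mul_le_mul (le_of_eq rfl) (hmul3 w) (by positivity) (by positivity)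
        _ = (6 * C + 6) * (4 / c) * q ^ v' := by rw [hvw, pow_add q u w]
    calc (S.card : ℝ) ≤ (6 * C + 6) * (4 / c) * q ^ v' := h5
      _ ≤ (6 * C + 6) * (4 / c) * (q ^ 2 * (R / r) ^ β) :=
          mul_le_mul_of_nonneg_left hfinal (by positivity)
      _ = (6 * C + 6) * (4 / c) * q ^ 2 * (R / r) ^ β := by ring
      _ ≤ K * (R / r) ^ β := mul_le_mul_of_nonneg_right (by rw [hK]; linarith) hRrpow0.le

end Q265.Ass
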