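import Mathlib

/-!
# Big `ω`-spaces, packing numbers and Assouad dimensions of graphs: definitions
-/

open Set Filter Topology

namespace Q265.Ass

/-- A (finite valued) modulus of continuity on `[0,1]`: `ω 0 = 0`, `ω t > 0` for `0 < t ≤ 1`,
`ω` is non-decreasing on `[0,1]` and tends to `0` at `0`. -/
structure Modulus where
  /-- the function `ω` (only its values on `[0,1]` matter) -/
  toFun : ℝ → ℝ
  map_zero : toFun 0 = 0
  pos : ∀ t, 0 < t → t ≤ 1 → 0 < toFun t
  mono : MonotoneOn toFun (Icc 0 1)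
  tendsto_zero : Tendsto toFun (𝓝[Icc 0 1] 0) (𝓝 0)

/-- The linear space of the functions `f : [0,1] → ℝ` with `[f]_ω < ∞`, that is, with
`|f x - f y| ≤ C ω(|x - y|)` for some `C` and all `x, y`. -/
def omegaSpace (ω : Modulus) : Submodule ℝ (unitInterval → ℝ) where
  carrier := {f | ∃ C : ℝ, ∀ x y : unitInterval, |f x - f y| ≤ C * ω.toFun |(x : ℝ) - y|}
  add_mem' := by
    rintro f g ⟨C, hC⟩ ⟨D, hD⟩
    refine ⟨C + D, fun x y => ?_⟩
    have h1 := hC x y
    have h2 := hD x y
    have h3 : (f + g) x - (f + g) y = (f x - f y) + (g x - g y) := by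
      simp only [Pi.add_apply]; ring
    rw [h3, add_mul]
    exact (abs_add_le _ _).trans (add_le_add h1 h2)
  zero_mem' := ⟨0, fun x y => by simp⟩
  smul_mem' := by
    rintro c f ⟨C, hC⟩
    refine ⟨|c| * C, fun x y => ?_⟩
    have h3 : (c • f) x - (c • f) y = c * (f x - f y) := by
      simp only [Pi.smul_apply, smul_eq_mul]; ring
    rw [h3, abs_mul, mul_assoc]
    exact mul_le_mul_of_nonneg_left (hC x y) (abs_nonneg c)

/-- The space `C^ω[0,1]`. -/
def COmega (ω : Modulus) : Type := ↥(omegaSpace ω)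

namespace COmega

variable {ω : Modulus}

instance : AddCommGroup (COmega ω) := inferInstanceAs (AddCommGroup ↥(omegaSpace ω))

instance : CoeFun (COmega ω) (fun _ => unitInterval → ℝ) := ⟨fun f => f.1⟩

/-- `‖f‖_∞`. -/
noncomputable def supNorm (f : COmega ω) : ℝ := ⨆ x : unitInterval, |f x|

/-- `[f]_ω = sup_{x ≠ y} |f x - f y| / ω(|x - y|)`. -/
noncomputable def semi (f : COmega ω) : ℝ :=
  ⨆ p : {p : unitInterval × unitInterval // p.1 ≠ p.2},
    |f p.1.1 - f p.1.2| / ω.toFun |(p.1.1 : ℝ) - p.1.2|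

theorem abs_sub_le_one (x y : unitInterval) : |(x : ℝ) - y| ≤ 1 := by
  have h1 := x.2.1
  have h2 := x.2.2
  have h3 := y.2.1
  have h4 := y.2.2
  rw [abs_le]
  constructor <;> linarith

theorem omega_nonneg (ω : Modulus) (x y : unitInterval) : 0 ≤ ω.toFun |(x : ℝ) - y| := by
  rcases eq_or_lt_of_le (abs_nonneg ((x : ℝ) - y)) with h | h
  · rw [← h, ω.map_zero]
  · exact (ω.pos _ h (abs_sub_le_one x y)).le

theorem omega_pos (ω : Modulus) {x y : unitInterval} (h : x ≠ y) :
    0 < ω.toFun |(x : ℝ) - y| := by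
  refine ω.pos _ ?_ (abs_sub_le_one x y)
  rw [abs_pos, sub_ne_zero]
  exact fun h' => h (Subtype.ext h')

theorem omega_le (ω : Modulus) (x y : unitInterval) : ω.toFun |(x : ℝ) - y| ≤ ω.toFun 1 :=
  ω.mono ⟨abs_nonneg _, abs_sub_le_one x y⟩ ⟨zero_le_one, le_refl _⟩ (abs_sub_le_one x y)

theorem bdd_semi (f : COmega ω) : BddAbove (Set.range
    (fun p : {p : unitInterval × unitInterval // p.1 ≠ p.2} =>
      |f p.1.1 - f p.1.2| / ω.toFun |(p.1.1 : ℝ) - p.1.2|)) := by
  obtain ⟨C, hC⟩ := f.2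
  refine ⟨C, ?_⟩
  rintro _ ⟨p, rfl⟩
  dsimp only
  rw [div_le_iff₀ (omega_pos ω p.2)]
  exact hC _ _

theorem bdd_sup (f : COmega ω) : BddAbove (Set.range (fun x : unitInterval => |f x|)) := by
  obtain ⟨C, hC⟩ := f.2
  refine ⟨|C| * ω.toFun 1 + |f 0|, ?_⟩
  rintro _ ⟨x, rfl⟩
  dsimp only
  have h1 : |f x - f 0| ≤ |C| * ω.toFun 1 := by
    refine (hC x 0).trans ?_
    refine (mul_le_mul_of_nonneg_right (le_abs_self C) (omega_nonneg ω x 0)).trans ?_
    exact mul_le_mul_of_nonneg_left (omega_le ω x 0) (abs_nonneg C)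
  have h2 : |f x| ≤ |f x - f 0| + |f 0| := by
    have := abs_add_le (f x - f 0) (f 0)
    simpa using this
  linarith

theorem le_supNorm (f : COmega ω) (x : unitInterval) : |f x| ≤ supNorm f :=
  le_ciSup (bdd_sup f) x

theorem supNorm_nonneg (f : COmega ω) : 0 ≤ supNorm f :=
  (abs_nonneg _).trans (le_supNorm f 0)

theorem semi_nonneg (f : COmega ω) : 0 ≤ semi f := by
  refine Real.iSup_nonneg fun p => ?_
  exact div_nonneg (abs_nonneg _) (omega_nonneg ω _ _)

theorem le_semi (f : COmega ω) (x y : unitInterval) :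
    |f x - f y| ≤ semi f * ω.toFun |(x : ℝ) - y| := by
  by_cases h : x = y
  · subst h
    simp [ω.map_zero]
  · have h1 : |f x - f y| / ω.toFun |(x : ℝ) - y| ≤ semi f :=
      le_ciSup (bdd_semi f) ⟨(x, y), h⟩
    rwa [div_le_iff₀ (omega_pos ω h)] at h1

theorem semi_le (f : COmega ω) {C : ℝ} (hC0 : 0 ≤ C)
    (hC : ∀ x y : unitInterval, |f x - f y| ≤ C * ω.toFun |(x : ℝ) - y|) : semi f ≤ C := by
  refine Real.iSup_le (fun p => ?_) hC0
  rw [div_le_iff₀ (omega_pos ω p.2)]
  exact hC _ _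

theorem supNorm_le (f : COmega ω) {C : ℝ} (hC : ∀ x : unitInterval, |f x| ≤ C) :
    supNorm f ≤ C :=
  ciSup_le hC

theorem add_apply (f g : COmega ω) (x : unitInterval) : (f + g) x = f x + g x := rfl

theorem neg_apply (f : COmega ω) (x : unitInterval) : (-f) x = - f x := rfl

theorem sub_apply (f g : COmega ω) (x : unitInterval) : (f - g) x = f x - g x := rfl

theorem zero_apply (x : unitInterval) : (0 : COmega ω) x = 0 := rfl

theorem ext' {f g : COmega ω} (h : ∀ x, f x = g x) : f = g :=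
  Subtype.ext (funext h)

/-- The norm `‖f‖_ω = ‖f‖_∞ + [f]_ω`. -/
noncomputable def omegaNorm (ω : Modulus) : AddGroupNorm (COmega ω) where
  toFun f := supNorm f + semi f
  map_zero' := by
    have h1 : supNorm (0 : COmega ω) ≤ 0 := supNorm_le _ fun x => by rw [zero_apply]; simp
    have h2 : semi (0 : COmega ω) ≤ 0 := semi_le _ le_rfl fun x y => by
      rw [zero_apply, zero_apply]; simp
    have h3 := supNorm_nonneg (0 : COmega ω)
    have h4 := semi_nonneg (0 : COmega ω)
    linarith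
  add_le' f g := by
    have h1 : supNorm (f + g) ≤ supNorm f + supNorm g := supNorm_le _ fun x => by
      rw [add_apply]
      exact (abs_add_le _ _).trans (add_le_add (le_supNorm f x) (le_supNorm g x))
    have h2 : semi (f + g) ≤ semi f + semi g :=
      semi_le _ (add_nonneg (semi_nonneg f) (semi_nonneg g)) fun x y => by
        rw [add_apply, add_apply]
        have h3 : f x + g x - (f y + g y) = (f x - f y) + (g x - g y) := by ring
        rw [h3, add_mul]
        exact (abs_add_le _ _).trans (add_le_add (le_semi f x y) (le_semi g x y))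
    linarith
  neg' f := by
    have h1 : supNorm (-f) = supNorm f := by
      unfold supNorm
      congr 1
      funext x
      rw [neg_apply, abs_neg]
    have h2 : semi (-f) = semi f := by
      unfold semi
      congr 1
      funext p
      rw [neg_apply, neg_apply]
      congr 1
      rw [← abs_neg]
      congr 1
      ring
    rw [h1, h2]
  eq_zero_of_map_eq_zero' f hf := by
    have h3 := supNorm_nonneg f
    have h4 := semi_nonneg f
    have h5 : supNorm f = 0 := by linarith
    refine ext' fun x => ?_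
    have h6 := le_supNorm f x
    rw [h5] at h6
    rw [zero_apply]
    exact abs_nonpos_iff.1 h6

/-- `C^ω[0,1]` with the norm `‖f‖_ω = ‖f‖_∞ + [f]_ω` (and its topology). -/
noncomputable instance : NormedAddCommGroup (COmega ω) :=
  AddGroupNorm.toNormedAddCommGroup (omegaNorm ω)

theorem norm_def (f : COmega ω) : ‖f‖ = supNorm f + semi f := rfl

end COmega

/-- The graph of a function on `[0,1]`, a subset of the Euclidean plane. -/
def graph (f : unitInterval → ℝ) : Set (EuclideanSpace ℝ (Fin 2)) :=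
  {p | ∃ x : unitInterval, p = !₂[(x : ℝ), f x]}

/-- `N_r(E)`: the largest number of pairwise disjoint closed balls of radius `r` with centres
in `E` (`∞` if there is no largest one). -/
noncomputable def packing (r : ℝ) (E : Set (EuclideanSpace ℝ (Fin 2))) : ENNReal :=
  ⨆ (S : Finset (EuclideanSpace ℝ (Fin 2))) (_ : (S : Set (EuclideanSpace ℝ (Fin 2))) ⊆ E)
    (_ : (S : Set (EuclideanSpace ℝ (Fin 2))).PairwiseDisjoint
      (fun p => Metric.closedBall p r)), (S.card : ENNReal)

/-- The Assouad dimension of a subset of the plane. -/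
noncomputable def dimA (F : Set (EuclideanSpace ℝ (Fin 2))) : ℝ :=
  sInf {β : ℝ | ∃ C : ℝ, 0 < C ∧ ∀ r R : ℝ, 0 < r → r < R → ∀ x ∈ F,
    packing r (Metric.ball x R ∩ F) ≤ ENNReal.ofReal (C * (R / r) ^ β)}

/-- The Assouad spectrum of a subset of the plane. -/
noncomputable def dimSpec (θ : ℝ) (F : Set (EuclideanSpace ℝ (Fin 2))) : ℝ :=
  sInf {β : ℝ | ∃ C : ℝ, 0 < C ∧ ∀ r : ℝ, 0 < r → r < 1 → ∀ x ∈ F,
    packing r (Metric.ball x (r ^ θ) ∩ F) ≤ ENNReal.ofReal (C * (r ^ (θ - 1)) ^ β)}

end Q265.Ass
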