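import Pool.Agent.Q265.AssSpace

/-!
# A uniformly oscillating function which is Hölder of order one half
-/

open Set Filter Topology

namespace Q265.Ass

/-- distance to the nearest integer -/
noncomputable def phi (x : ℝ) : ℝ := |x - round x|

theorem phi_nonneg (x : ℝ) : 0 ≤ phi x := abs_nonneg _

theorem phi_le_half (x : ℝ) : phi x ≤ 1 / 2 := abs_sub_round x

theorem phi_eq_norm (x : ℝ) : phi x = ‖(x : UnitAddCircle)‖ := by
  rw [UnitAddCircle.norm_eq]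
  rfl

theorem phi_lip (x y : ℝ) : |phi x - phi y| ≤ |x - y| := by
  rw [phi_eq_norm, phi_eq_norm]
  refine (abs_norm_sub_norm_le _ _).trans ?_
  rw [← AddCircle.coe_sub, ← phi_eq_norm]
  have := round_le (x - y) 0
  simpa [phi] using this

theorem phi_int (n : ℤ) : phi (n : ℝ) = 0 := by
  simp [phi]

theorem phi_half (n : ℤ) : phi ((n : ℝ) + 1 / 2) = 1 / 2 := by
  unfold phi
  rw [abs_sub_round_eq_min]
  have h : Int.fract ((n : ℝ) + 1 / 2) = 1 / 2 := by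
    rw [Int.fract_intCast_add]
    rw [Int.fract_eq_self]
    constructor <;> norm_num
  rw [h]
  norm_num

/-- the function `∑ 4^{-k} φ(16^k x)` -/
noncomputable def T (x : ℝ) : ℝ := ∑' k : ℕ, (1 / 4 : ℝ) ^ k * phi (16 ^ k * x)

theorem T_summable (x : ℝ) : Summable (fun k : ℕ => (1 / 4 : ℝ) ^ k * phi (16 ^ k * x)) := by
  have h1 : Summable (fun k : ℕ => (1 / 4 : ℝ) ^ k) :=
    summable_geometric_of_lt_one (by norm_num) (by norm_num)
  refine Summable.of_nonneg_of_le (fun k => ?_) (fun k => ?_) h1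
  · exact mul_nonneg (by positivity) (phi_nonneg _)
  · have h2 := phi_le_half (16 ^ k * x)
    have h3 : (0 : ℝ) < (1 / 4 : ℝ) ^ k := by positivity
    nlinarith

theorem term_diff (x y : ℝ) (k : ℕ) :
    |(1 / 4 : ℝ) ^ k * phi (16 ^ k * x) - (1 / 4 : ℝ) ^ k * phi (16 ^ k * y)|
      ≤ 4 ^ k * |x - y| := by
  rw [← mul_sub, abs_mul, abs_of_pos (by positivity : (0 : ℝ) < (1 / 4 : ℝ) ^ k)]
  have h1 := phi_lip (16 ^ k * x) (16 ^ k * y)
  have h2 : (16 : ℝ) ^ k * x - 16 ^ k * y = 16 ^ k * (x - y) := by ring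
  rw [h2, abs_mul, abs_of_pos (by positivity : (0 : ℝ) < (16 : ℝ) ^ k)] at h1
  refine (mul_le_mul_of_nonneg_left h1 (by positivity)).trans (le_of_eq ?_)
  rw [← mul_assoc, ← mul_pow]
  norm_num

theorem term_diff' (x y : ℝ) (k : ℕ) :
    |(1 / 4 : ℝ) ^ k * phi (16 ^ k * x) - (1 / 4 : ℝ) ^ k * phi (16 ^ k * y)|
      ≤ (1 / 4 : ℝ) ^ k * (1 / 2) := by
  rw [← mul_sub, abs_mul, abs_of_pos (by positivity : (0 : ℝ) < (1 / 4 : ℝ) ^ k)]
  refine mul_le_mul_of_nonneg_left ?_ (by positivity)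
  have h1 := phi_nonneg (16 ^ k * x)
  have h2 := phi_nonneg (16 ^ k * y)
  have h3 := phi_le_half (16 ^ k * x)
  have h4 := phi_le_half (16 ^ k * y)
  rw [abs_le]
  constructor <;> linarith

theorem geom4 (n : ℕ) : ∑ k ∈ Finset.range n, (4 : ℝ) ^ k = (4 ^ n - 1) / 3 := by
  rw [geom_sum_eq (by norm_num)]
  norm_num

theorem T_holder {x y : ℝ} (hxy : |x - y| ≤ 1) : |T x - T y| ≤ 2 * √|x - y| := by
  rcases eq_or_lt_of_le (abs_nonneg (x - y)) with h0 | h0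
  · have : x = y := by
      have h1 := h0.symm
      rw [abs_eq_zero, sub_eq_zero] at h1
      exact h1
    subst this
    simp
  set d := |x - y| with hd
  obtain ⟨K, hK1, hK2⟩ := exists_nat_pow_near_of_lt_one h0 hxy
    (by norm_num : (0 : ℝ) < 1 / 16) (by norm_num : (1 / 16 : ℝ) < 1)
  have hs0 : 0 ≤ √d := Real.sqrt_nonneg d
  have hss : √d * √d = d := Real.mul_self_sqrt h0.le
  have hp : (1 / 16 : ℝ) ^ K = (1 / 4) ^ K * (1 / 4) ^ K := by
    rw [← mul_pow]; norm_num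
  have hp1 : (1 / 16 : ℝ) ^ (K + 1) = (1 / 4) ^ (K + 1) * (1 / 4) ^ (K + 1) := by
    rw [← mul_pow]; norm_num
  have hA : √d ≤ (1 / 4 : ℝ) ^ K := by
    rw [hp, ← hss] at hK2
    exact (mul_self_le_mul_self_iff hs0 (by positivity)).2 hK2
  have hB : (1 / 4 : ℝ) ^ (K + 1) ≤ √d := by
    rw [hp1, ← hss] at hK1
    exact (mul_self_le_mul_self_iff (by positivity) hs0).2 hK1.le
  have hC : (4 : ℝ) ^ K * d ≤ √d := by
    have h4 : (4 : ℝ) ^ K * (1 / 4) ^ K = 1 := by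
      rw [← mul_pow]; norm_num
    have h5 : (4 : ℝ) ^ K * √d ≤ 1 := by
      rw [← h4]
      exact mul_le_mul_of_nonneg_left hA (by positivity)
    calc (4 : ℝ) ^ K * d = ((4 : ℝ) ^ K * √d) * √d := by rw [mul_assoc, hss]
      _ ≤ 1 * √d := mul_le_mul_of_nonneg_right h5 hs0
      _ = √d := one_mul _
  have hsub : T x - T y = ∑' k : ℕ, ((1 / 4 : ℝ) ^ k * phi (16 ^ k * x)
      - (1 / 4 : ℝ) ^ k * phi (16 ^ k * y)) := by
    unfold T
    rw [Summable.tsum_sub (T_summable x) (T_summable y)]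
  have hsum := (T_summable x).sub (T_summable y)
  rw [hsub, ← hsum.sum_add_tsum_nat_add (K + 1)]
  have h1 : |∑ k ∈ Finset.range (K + 1), ((1 / 4 : ℝ) ^ k * phi (16 ^ k * x)
      - (1 / 4 : ℝ) ^ k * phi (16 ^ k * y))| ≤ 4 / 3 * √d := by
    refine (Finset.abs_sum_le_sum_abs _ _).trans ?_
    refine (Finset.sum_le_sum fun k _ => term_diff x y k).trans ?_
    rw [← Finset.sum_mul, geom4, pow_succ]
    have : 0 ≤ d := h0.le
    nlinarith
  have hg : Summable (fun k : ℕ => (1 / 4 : ℝ) ^ (k + (K + 1)) * (1 / 2)) := by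
    have h1 : Summable (fun k : ℕ => (1 / 4 : ℝ) ^ k) :=
      summable_geometric_of_lt_one (by norm_num) (by norm_num)
    have h2 := (h1.mul_right ((1 / 4 : ℝ) ^ (K + 1))).mul_right (1 / 2 : ℝ)
    refine h2.congr fun k => ?_
    rw [pow_add (1 / 4 : ℝ) k (K + 1)]
  have h2 : |∑' k : ℕ, ((1 / 4 : ℝ) ^ (k + (K + 1)) * phi (16 ^ (k + (K + 1)) * x)
      - (1 / 4 : ℝ) ^ (k + (K + 1)) * phi (16 ^ (k + (K + 1)) * y))| ≤ 2 / 3 * √d := by
    have h3 : ∀ k : ℕ, ‖(1 / 4 : ℝ) ^ (k + (K + 1)) * phi (16 ^ (k + (K + 1)) * x)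
      - (1 / 4 : ℝ) ^ (k + (K + 1)) * phi (16 ^ (k + (K + 1)) * y)‖
        ≤ (1 / 4 : ℝ) ^ (k + (K + 1)) * (1 / 2) := fun k => term_diff' x y _
    have h4 := tsum_of_norm_bounded hg.hasSum h3
    rw [Real.norm_eq_abs] at h4
    refine h4.trans ?_
    have h5 : ∑' k : ℕ, (1 / 4 : ℝ) ^ (k + (K + 1)) * (1 / 2)
        = (1 / 4 : ℝ) ^ (K + 1) * (2 / 3) := by
      have h6 : (fun k : ℕ => (1 / 4 : ℝ) ^ (k + (K + 1)) * (1 / 2))
          = fun k : ℕ => (1 / 4 : ℝ) ^ k * ((1 / 4 : ℝ) ^ (K + 1) * (1 / 2)) := by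
        funext k
        rw [pow_add]
        ring
      rw [h6, tsum_mul_right, tsum_geometric_of_lt_one (by norm_num) (by norm_num)]
      ring
    rw [h5]
    nlinarith
  refine (abs_add_le _ _).trans ?_
  linarith

/-- `T` oscillates by `4^{-j}/3` on every `16`-adic interval of order `j`. -/
theorem T_osc (j : ℕ) (i : ℤ) :
    (1 / 3) * (1 / 4 : ℝ) ^ j ≤ |T (((i : ℝ) + 1 / 2) / 16 ^ j) - T ((i : ℝ) / 16 ^ j)| := by
  have hz1 : ∀ k : ℕ, k ∉ Finset.range (j + 1) →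
      (1 / 4 : ℝ) ^ k * phi (16 ^ k * (((i : ℝ) + 1 / 2) / 16 ^ j)) = 0 := by
    intro k hk
    rw [Finset.mem_range, not_lt] at hk
    obtain ⟨l, rfl⟩ := Nat.exists_eq_add_of_le hk
    have h1 : (16 : ℝ) ^ (j + 1 + l) * (((i : ℝ) + 1 / 2) / 16 ^ j)
        = (((8 * (2 * i + 1) * 16 ^ l : ℤ)) : ℝ) := by
      push_cast
      rw [pow_add, pow_add]
      field_simp
      ring
    rw [h1, phi_int, mul_zero]
  have hz2 : ∀ k : ℕ, k ∉ Finset.range (j + 1) →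
      (1 / 4 : ℝ) ^ k * phi (16 ^ k * ((i : ℝ) / 16 ^ j)) = 0 := by
    intro k hk
    rw [Finset.mem_range, not_lt] at hk
    obtain ⟨l, rfl⟩ := Nat.exists_eq_add_of_le hk
    have h1 : (16 : ℝ) ^ (j + 1 + l) * ((i : ℝ) / 16 ^ j)
        = (((16 * i * 16 ^ l : ℤ)) : ℝ) := by
      push_cast
      rw [pow_add, pow_add]
      field_simp
    rw [h1, phi_int, mul_zero]
  have h1 : T (((i : ℝ) + 1 / 2) / 16 ^ j) - T ((i : ℝ) / 16 ^ j)
      = (∑ k ∈ Finset.range j, ((1 / 4 : ℝ) ^ k * phi (16 ^ k * (((i : ℝ) + 1 / 2) / 16 ^ j))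
        - (1 / 4 : ℝ) ^ k * phi (16 ^ k * ((i : ℝ) / 16 ^ j)))) + (1 / 4 : ℝ) ^ j * (1 / 2) := by
    unfold T
    rw [tsum_eq_sum hz1, tsum_eq_sum hz2, ← Finset.sum_sub_distrib, Finset.sum_range_succ]
    congr 1
    have h2 : (16 : ℝ) ^ j * (((i : ℝ) + 1 / 2) / 16 ^ j) = (i : ℝ) + 1 / 2 := by
      field_simp
    have h3 : (16 : ℝ) ^ j * ((i : ℝ) / 16 ^ j) = (i : ℝ) := by
      field_simp
    rw [h2, h3, phi_half, phi_int]
    ring
  have h2 : |∑ k ∈ Finset.range j, ((1 / 4 : ℝ) ^ k * phi (16 ^ k * (((i : ℝ) + 1 / 2) / 16 ^ j))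
        - (1 / 4 : ℝ) ^ k * phi (16 ^ k * ((i : ℝ) / 16 ^ j)))| ≤ (1 / 4 : ℝ) ^ j * (1 / 6) := by
    refine (Finset.abs_sum_le_sum_abs _ _).trans ?_
    refine (Finset.sum_le_sum fun k _ => term_diff _ _ k).trans ?_
    rw [← Finset.sum_mul, geom4]
    have h3 : ((i : ℝ) + 1 / 2) / 16 ^ j - (i : ℝ) / 16 ^ j = (1 / 2) * (1 / 16) ^ j := by
      rw [div_pow, one_pow]
      field_simp
      ring
    rw [h3, abs_of_pos (by positivity)]
    have h4 : (1 / 4 : ℝ) ^ j = 4 ^ j * (1 / 16) ^ j := by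
      rw [← mul_pow]; norm_num
    rw [h4]
    have h5 : (0 : ℝ) < (1 / 16 : ℝ) ^ j := by positivity
    nlinarith
  rw [h1]
  generalize (∑ k ∈ Finset.range j, ((1 / 4 : ℝ) ^ k * phi (16 ^ k * (((i : ℝ) + 1 / 2) / 16 ^ j))
        - (1 / 4 : ℝ) ^ k * phi (16 ^ k * ((i : ℝ) / 16 ^ j)))) = A at h2 ⊢
  have h4 : (0 : ℝ) < (1 / 4 : ℝ) ^ j := by positivity
  rw [abs_le] at h2
  refine le_trans ?_ (le_abs_self _)
  linarith [h2.1]

end Q265.Ass
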