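import Pool.Agent.Q265.AssCount
import Pool.Agent.Q265.AssFun

/-!
# An open set of functions in `C^{1/2}[0,1]` whose graphs have Assouad dimension less than two
-/

open Set Filter Topology

namespace Q265.Ass

/-- The modulus `ω t = √t`. -/
noncomputable def sqrtMod : Modulus where
  toFun := Real.sqrt
  map_zero := Real.sqrt_zero
  pos := fun t ht _ => Real.sqrt_pos.2 ht
  mono := fun _ _ _ _ h => Real.sqrt_le_sqrt h
  tendsto_zero := by
    have h : Tendsto Real.sqrt (𝓝 0) (𝓝 (√0)) := Real.continuous_sqrt.tendsto 0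
    rw [Real.sqrt_zero] at h
    exact h.mono_left nhdsWithin_le_nhds

/-- The function `T` as an element of `C^ω`, `ω t = √t`. -/
noncomputable def f0 : COmega sqrtMod :=
  COmega.mk' (fun x => T x) ⟨2, fun x y => T_holder (COmega.abs_sub_le_one x y)⟩

/-- extension of a function on `[0,1]` to the real line -/
noncomputable def ext (f : unitInterval → ℝ) (t : ℝ) : ℝ := f (Set.projIcc 0 1 zero_le_one t)

theorem ext_of_mem (f : unitInterval → ℝ) {t : ℝ} (ht : t ∈ Icc (0 : ℝ) 1) :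
    ext f t = f ⟨t, ht⟩ := by
  unfold ext
  rw [Set.projIcc_of_mem zero_le_one ht]

theorem osc_of_near (f : COmega sqrtMod) (hf : ‖f - f0‖ ≤ 1 / 6) :
    Osc (ext f) 3 (1 / 6) 256 where
  hm := by norm_num
  hC := by norm_num
  hc := by norm_num
  hCc := by norm_num
  upper := by
    intro s hs t ht
    rw [ext_of_mem _ hs, ext_of_mem _ ht]
    have h1 := COmega.abs_sub_le_norm (f - f0) ⟨s, hs⟩ ⟨t, ht⟩
    rw [COmega.sub_apply, COmega.sub_apply] at h1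
    have h2 : |f0 ⟨s, hs⟩ - f0 ⟨t, ht⟩| ≤ 2 * √|s - t| :=
      T_holder (COmega.abs_sub_le_one ⟨s, hs⟩ ⟨t, ht⟩)
    have h3 : ‖f - f0‖ * sqrtMod.toFun |s - t| ≤ 1 / 6 * √|s - t| :=
      mul_le_mul_of_nonneg_right hf (Real.sqrt_nonneg _)
    have h4 : f ⟨s, hs⟩ - f ⟨t, ht⟩ = ((f ⟨s, hs⟩ - f0 ⟨s, hs⟩) - (f ⟨t, ht⟩ - f0 ⟨t, ht⟩))
        + (f0 ⟨s, hs⟩ - f0 ⟨t, ht⟩) := by ring
    rw [h4]
    refine (abs_add_le _ _).trans ?_
    have h5 : 0 ≤ √|s - t| := Real.sqrt_nonneg _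
    have h6 := h1.trans h3
    linarith
  lower := by
    intro n i hi
    have hM : (((256 : ℕ) ^ 2 : ℕ) : ℝ) ^ n = 16 ^ (4 * n) := by
      rw [pow_mul]; norm_num
    have hp : (0 : ℝ) < 16 ^ (4 * n) := by positivity
    have hiR : (i : ℝ) + 1 ≤ 16 ^ (4 * n) := by
      rw [← hM]
      have : i + 1 ≤ (256 ^ 2) ^ n := hi
      exact_mod_cast this
    have hi0 : (0 : ℝ) ≤ i := Nat.cast_nonneg i
    have hs : (i : ℝ) / 16 ^ (4 * n) ∈ Icc (0 : ℝ) 1 := by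
      refine ⟨by positivity, ?_⟩
      rw [div_le_one hp]; linarith
    have ht : ((i : ℝ) + 1 / 2) / 16 ^ (4 * n) ∈ Icc (0 : ℝ) 1 := by
      refine ⟨by positivity, ?_⟩
      rw [div_le_one hp]; linarith
    refine ⟨((i : ℝ) + 1 / 2) / 16 ^ (4 * n), (i : ℝ) / 16 ^ (4 * n), ?_⟩
    rw [hM, div_mul_cancel₀ _ hp.ne', div_mul_cancel₀ _ hp.ne']
    refine ⟨by linarith, by linarith, le_rfl, by linarith, ?_⟩
    rw [ext_of_mem _ hs, ext_of_mem _ ht]
    have h1 := COmega.abs_sub_le_norm (f - f0) ⟨_, ht⟩ ⟨_, hs⟩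
    rw [COmega.sub_apply, COmega.sub_apply] at h1
    have h2 := T_osc (4 * n) (i : ℤ)
    have h2' : 1 / 3 * (1 / 4 : ℝ) ^ (4 * n) ≤ |f0 ⟨_, ht⟩ - f0 ⟨_, hs⟩| := by
      have h3 : |f0 ⟨_, ht⟩ - f0 ⟨_, hs⟩|
          = |T (((i : ℝ) + 1 / 2) / 16 ^ (4 * n)) - T ((i : ℝ) / 16 ^ (4 * n))| := rfl
      rw [h3]
      rw [Int.cast_natCast] at h2
      exact h2
    have h3 : ‖f - f0‖ * sqrtMod.toFun
        |((i : ℝ) + 1 / 2) / 16 ^ (4 * n) - (i : ℝ) / 16 ^ (4 * n)|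
          ≤ 1 / 6 * (1 / 4 : ℝ) ^ (4 * n) := by
      refine mul_le_mul hf ?_ (Real.sqrt_nonneg _) (by norm_num)
      have h4 : ((i : ℝ) + 1 / 2) / 16 ^ (4 * n) - (i : ℝ) / 16 ^ (4 * n)
          = (1 / 2) * ((1 / 4 : ℝ) ^ (4 * n)) ^ 2 := by
        have h5 : ((1 / 4 : ℝ) ^ (4 * n)) ^ 2 = 1 / 16 ^ (4 * n) := by
          rw [← pow_mul, mul_comm (4 * n) 2, pow_mul, ← one_div_pow]
          norm_num
        rw [h5]
        ring
      rw [h4, abs_of_pos (by positivity)]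
      have h5 : √((1 / 2) * ((1 / 4 : ℝ) ^ (4 * n)) ^ 2) ≤ √(((1 / 4 : ℝ) ^ (4 * n)) ^ 2) := by
        refine Real.sqrt_le_sqrt ?_
        have : (0 : ℝ) ≤ ((1 / 4 : ℝ) ^ (4 * n)) ^ 2 := by positivity
        linarith
      rw [Real.sqrt_sq (by positivity)] at h5
      exact h5
    have h4 := h1.trans h3
    have h5 : (1 / 6 : ℝ) / ((256 : ℕ) : ℝ) ^ n = 1 / 6 * (1 / 4 : ℝ) ^ (4 * n) := by
      have h6 : (1 / 4 : ℝ) ^ (4 * n) = 1 / (256 : ℝ) ^ n := by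
        rw [pow_mul, ← one_div_pow]; norm_num
      rw [h6]
      push_cast
      ring
    rw [h5]
    have h6 : |f0 ⟨_, ht⟩ - f0 ⟨_, hs⟩| ≤ |f ⟨_, ht⟩ - f ⟨_, hs⟩|
        + |f ⟨_, ht⟩ - f0 ⟨_, ht⟩ - (f ⟨_, hs⟩ - f0 ⟨_, hs⟩)| := by
      have h7 : f0 ⟨_, ht⟩ - f0 ⟨_, hs⟩ = (f ⟨_, ht⟩ - f ⟨_, hs⟩)
        - (f ⟨_, ht⟩ - f0 ⟨_, ht⟩ - (f ⟨_, hs⟩ - f0 ⟨_, hs⟩)) := by ring
      rw [h7]
      exact abs_sub _ _
    linarith

/-- The bound of the packing numbers, in the form used in the definitions of the dimensions. -/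
theorem packing_bound {f : unitInterval → ℝ} {C c : ℝ} {m : ℕ} (H : Osc (ext f) C c m) :
    ∃ K : ℝ, 0 < K ∧ ∀ r R : ℝ, 0 < r → r < R → ∀ x ∈ graph f,
      packing r (Metric.ball x R ∩ graph f) ≤ ENNReal.ofReal (K * (R / r) ^ (bet m)) := by
  obtain ⟨K, hK, hmain⟩ := H.main
  refine ⟨K, hK, fun r R hr hrR x hx => ?_⟩
  obtain ⟨x0, rfl⟩ := hx
  unfold packing
  refine iSup_le fun S => iSup_le fun hSsub => iSup_le fun hSdisj => ?_
  rw [← ENNReal.ofReal_natCast]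
  refine ENNReal.ofReal_le_ofReal ?_
  refine hmain r R (x0 : ℝ) hr hrR S hSdisj fun p hp => ?_
  obtain ⟨hpb, y, hy⟩ := hSsub hp
  have h0 : p 0 = (y : ℝ) := by rw [hy]; simp
  have h1 : p 1 = f y := by rw [hy]; simp
  have hp01 : p 0 ∈ Icc (0 : ℝ) 1 := by rw [h0]; exact y.2
  rw [Metric.mem_ball, dist_eq_norm] at hpb
  have h2 : |p 0 - x0| ≤ R := by
    have h3 := PiLp.norm_apply_le (p - !₂[(x0 : ℝ), f x0]) 0
    rw [Real.norm_eq_abs] at h3
    have h4 : (p - !₂[(x0 : ℝ), f x0]) 0 = p 0 - x0 := by simp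
    rw [h4] at h3
    linarith
  have h3 : |p 1 - ext f x0| ≤ R := by
    have h3 := PiLp.norm_apply_le (p - !₂[(x0 : ℝ), f x0]) 1
    rw [Real.norm_eq_abs] at h3
    have h4 : (p - !₂[(x0 : ℝ), f x0]) 1 = p 1 - f x0 := by simp
    rw [h4] at h3
    rw [ext_of_mem f x0.2]
    linarith
  refine ⟨hp01, ?_, h2, h3⟩
  rw [ext_of_mem f hp01, h1]
  congr 1
  exact Subtype.ext h0.symm

theorem sInf_le_of_mem' {s : Set ℝ} {b : ℝ} (hb : b ∈ s) (h0 : 0 ≤ b) : sInf s ≤ b := by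
  by_cases h : BddBelow s
  · exact csInf_le h hb
  · rw [Real.sInf_of_not_bddBelow h]
    exact h0

theorem dimA_le {f : unitInterval → ℝ} {C c : ℝ} {m : ℕ} (H : Osc (ext f) C c m) :
    dimA (graph f) ≤ bet m :=
  sInf_le_of_mem' (packing_bound H) (bet_nonneg H.hm)

theorem dimSpec_le {f : unitInterval → ℝ} {C c : ℝ} {m : ℕ} (H : Osc (ext f) C c m)
    {θ : ℝ} (hθ1 : θ < 1) : dimSpec θ (graph f) ≤ bet m := by
  refine sInf_le_of_mem' ?_ (bet_nonneg H.hm)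
  obtain ⟨K, hK, h⟩ := packing_bound H
  refine ⟨K, hK, fun r hr hr1 x hx => ?_⟩
  have h1 : r < r ^ θ := by
    have h2 := Real.rpow_lt_rpow_of_exponent_gt hr hr1 hθ1
    rwa [Real.rpow_one] at h2
  have h2 := h r (r ^ θ) hr h1 x hx
  rw [Real.rpow_sub_one hr.ne']
  exact h2

/-- The open set of uniformly oscillating functions. -/
noncomputable def U : Set (COmega sqrtMod) := Metric.ball f0 (1 / 6)

theorem U_open : IsOpen U := Metric.isOpen_ball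

theorem U_nonempty : U.Nonempty := ⟨f0, Metric.mem_ball_self (by norm_num)⟩

theorem U_osc {f : COmega sqrtMod} (hf : f ∈ U) : Osc (ext f) 3 (1 / 6) 256 := by
  refine osc_of_near f ?_
  unfold U at hf
  rw [Metric.mem_ball, dist_eq_norm] at hf
  exact hf.le

theorem sqrt_concave : ConcaveOn ℝ (Icc (0 : ℝ) 1) sqrtMod.toFun :=
  (Real.strictConcaveOn_sqrt.concaveOn).subset Icc_subset_Ici_self (convex_Icc 0 1)

theorem sqrt_div_tendsto : Tendsto (fun t => sqrtMod.toFun t / t) (𝓝[>] 0) atTop := by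
  have h1 : Tendsto (fun t : ℝ => √t) (𝓝[>] 0) (𝓝[>] 0) := by
    rw [tendsto_nhdsWithin_iff]
    constructor
    · have h : Tendsto Real.sqrt (𝓝 0) (𝓝 (√0)) := Real.continuous_sqrt.tendsto 0
      rw [Real.sqrt_zero] at h
      exact h.mono_left nhdsWithin_le_nhds
    · filter_upwards [self_mem_nhdsWithin] with t ht
      exact Real.sqrt_pos.2 ht
  have h2 := tendsto_inv_nhdsGT_zero.comp h1
  refine h2.congr' ?_
  filter_upwards [self_mem_nhdsWithin] with t ht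
  have ht' : (0 : ℝ) < t := ht
  have h3 : sqrtMod.toFun t / t = √t / t := rfl
  rw [h3]
  simp only [Function.comp]
  rw [Real.sqrt_div_self', one_div]

theorem sqrt_log_tendsto :
    Tendsto (fun t => Real.log (sqrtMod.toFun t) / Real.log t) (𝓝[>] 0) (𝓝 (1 / 2)) := by
  have h : ∀ᶠ t : ℝ in 𝓝[>] 0,
      (1 / 2 : ℝ) = Real.log (sqrtMod.toFun t) / Real.log t := by
    have h1 : ∀ᶠ t : ℝ in 𝓝[>] 0, t < 1 :=
      (eventually_lt_nhds (by norm_num : (0 : ℝ) < 1)).filter_mono nhdsWithin_le_nhds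
    filter_upwards [h1, self_mem_nhdsWithin] with t ht1 ht0
    have h2 : Real.log (sqrtMod.toFun t) = Real.log t / 2 := Real.log_sqrt (le_of_lt ht0)
    have h3 : Real.log t ≠ 0 := (Real.log_neg ht0 ht1).ne
    rw [h2]
    field_simp
  exact tendsto_const_nhds.congr' h

end Q265.Ass
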