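import Pool.Agent.Q265.AssDefs

/-!
# Completeness of the space `C^ω[0,1]`
-/

open Set Filter Topology

namespace Q265.Ass

namespace COmega

variable {ω : Modulus}

/-- an element of `C^ω` from a function and a proof of membership -/
def mk' (f : unitInterval → ℝ) (h : f ∈ omegaSpace ω) : COmega ω := ⟨f, h⟩

theorem mk'_apply (f : unitInterval → ℝ) (h : f ∈ omegaSpace ω) (x : unitInterval) :
    (mk' f h) x = f x := rfl

theorem abs_apply_le_norm (f : COmega ω) (x : unitInterval) : |f x| ≤ ‖f‖ := by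
  have h1 := le_supNorm f x
  have h2 := semi_nonneg f
  rw [norm_def]
  linarith

theorem abs_sub_le_norm (f : COmega ω) (x y : unitInterval) :
    |f x - f y| ≤ ‖f‖ * ω.toFun |(x : ℝ) - y| := by
  refine (le_semi f x y).trans ?_
  refine mul_le_mul_of_nonneg_right ?_ (omega_nonneg ω x y)
  have h2 := supNorm_nonneg f
  rw [norm_def]
  linarith

theorem norm_le_of (f : COmega ω) {ε : ℝ} (hε : 0 ≤ ε) (h1 : ∀ x, |f x| ≤ ε)
    (h2 : ∀ x y : unitInterval, |f x - f y| ≤ ε * ω.toFun |(x : ℝ) - y|) : ‖f‖ ≤ 2 * ε := by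
  have h3 := supNorm_le f h1
  have h4 := semi_le f hε h2
  rw [norm_def]
  linarith

instance : CompleteSpace (COmega ω) := by
  refine Metric.complete_of_cauchySeq_tendsto fun u hu => ?_
  have hux : ∀ x : unitInterval, ∃ a : ℝ, Tendsto (fun n => (u n) x) atTop (𝓝 a) := by
    intro x
    refine cauchySeq_tendsto_of_complete ?_
    rw [Metric.cauchySeq_iff] at hu ⊢
    intro ε hε
    obtain ⟨N, hN⟩ := hu ε hε
    refine ⟨N, fun m hm n hn => ?_⟩
    have h1 := hN m hm n hn
    rw [dist_eq_norm] at h1 ⊢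
    have h2 := abs_apply_le_norm (u m - u n) x
    rw [sub_apply] at h2
    rw [Real.norm_eq_abs]
    exact lt_of_le_of_lt h2 h1
  choose f hf using hux
  rw [Metric.cauchySeq_iff] at hu
  have key : ∀ ε : ℝ, 0 < ε → ∃ N, ∀ n ≥ N, (∀ x, |(u n) x - f x| ≤ ε) ∧
      ∀ x y : unitInterval, |((u n) x - f x) - ((u n) y - f y)|
        ≤ ε * ω.toFun |(x : ℝ) - y| := by
    intro ε hε
    obtain ⟨N, hN⟩ := hu ε hε
    refine ⟨N, fun n hn => ⟨fun x => ?_, fun x y => ?_⟩⟩
    · have h1 : Tendsto (fun m => |(u n) x - (u m) x|) atTop (𝓝 |(u n) x - f x|) :=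
        (tendsto_const_nhds.sub (hf x)).abs
      refine le_of_tendsto h1 ?_
      filter_upwards [eventually_ge_atTop N] with m hm
      have h2 := abs_apply_le_norm (u n - u m) x
      have h3 := hN n hn m hm
      rw [dist_eq_norm] at h3
      rw [sub_apply] at h2
      linarith
    · have h1 : Tendsto (fun m => |((u n) x - (u m) x) - ((u n) y - (u m) y)|) atTop
          (𝓝 |((u n) x - f x) - ((u n) y - f y)|) :=
        ((tendsto_const_nhds.sub (hf x)).sub (tendsto_const_nhds.sub (hf y))).abs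
      refine le_of_tendsto h1 ?_
      filter_upwards [eventually_ge_atTop N] with m hm
      have h2 := abs_sub_le_norm (u n - u m) x y
      have h3 := hN n hn m hm
      rw [dist_eq_norm] at h3
      rw [sub_apply, sub_apply] at h2
      exact h2.trans (mul_le_mul_of_nonneg_right h3.le (omega_nonneg ω x y))
  have hmem : f ∈ omegaSpace ω := by
    obtain ⟨N, hN⟩ := key 1 one_pos
    obtain ⟨_, h2⟩ := hN N le_rfl
    refine ⟨‖u N‖ + 1, fun x y => ?_⟩
    have h3 := h2 x y
    have h4 := abs_sub_le_norm (u N) x y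
    have h5 : f x - f y = ((u N) x - (u N) y) - (((u N) x - f x) - ((u N) y - f y)) := by ring
    rw [h5, add_mul]
    refine (abs_sub _ _).trans ?_
    exact add_le_add h4 h3
  refine ⟨mk' f hmem, ?_⟩
  rw [Metric.tendsto_atTop]
  intro ε hε
  obtain ⟨N, hN⟩ := key (ε / 3) (by positivity)
  refine ⟨N, fun n hn => ?_⟩
  obtain ⟨h1, h2⟩ := hN n hn
  rw [dist_eq_norm]
  have h3 : ‖u n - mk' f hmem‖ ≤ 2 * (ε / 3) :=
    norm_le_of _ (by positivity) h1 h2
  refine lt_of_le_of_lt h3 (by linarith)

/-- A set of functions in `C^ω` which misses a nonempty open set is not residual. -/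
theorem not_residual {U A : Set (COmega ω)} (hU : IsOpen U) (hne : U.Nonempty)
    (h : Disjoint U A) : A ∉ residual (COmega ω) := by
  intro hA
  have h1 : Dense A := dense_of_mem_residual hA
  obtain ⟨x, hxU, hxA⟩ := h1.inter_open_nonempty U hU hne
  exact Set.disjoint_left.1 h hxU hxA

/-- A set of functions in `C^ω` which contains a nonempty open set is not meagre. -/
theorem not_meagre {U A : Set (COmega ω)} (hU : IsOpen U) (hne : U.Nonempty)
    (h : U ⊆ A) : ¬ IsMeagre A := by
  intro hA
  have h1 : Aᶜ ∈ residual (COmega ω) := hA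
  refine not_residual hU hne ?_ h1
  rw [Set.disjoint_compl_right_iff_subset]
  exact h

end COmega

end Q265.Ass
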