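import Pool.Agent.Q61.BS.Stm

/-!
# Project BS: jobs HGT and MMN
-/

set_option autoImplicit false

open Real

namespace Pool.Agent.Q265.BS

open Pool.Agent.Q61.BS

theorem hgt1 : S_hgt := by
  intro β₁ β₂ ω n
  refine ⟨(Finset.card_filter_le _ _).trans (by simp), ?_⟩
  induction n with
  | zero => simp [hgt, sc, zc]
  | succ n ih =>
    have h1 : hgt β₁ β₂ ω (n + 1) = hgt β₁ β₂ ω n * bb β₁ β₂ (ω n) := by
      rw [hgt, Finset.prod_range_succ, ← hgt]
    by_cases h : ω n = 0
    · have hz : zc ω (n + 1) = zc ω n + 1 := by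
        rw [zc, Finset.range_add_one, Finset.filter_insert, if_pos h,
          Finset.card_insert_of_notMem (by simp), ← zc]
      rw [h1, ih, bb, if_pos h, ← exp_add, hz]
      congr 1
      simp only [sc]
      push_cast
      ring
    · have hz : zc ω (n + 1) = zc ω n := by
        rw [zc, Finset.range_add_one, Finset.filter_insert, if_neg h, ← zc]
      rw [h1, ih, bb, if_neg h, ← exp_add, hz]
      congr 1
      simp only [sc]
      push_cast
      ring

theorem mmn : S_mmn := by
  intro β₁ β₂ h1 h2 n i hi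
  have h5 : 0 < log 5 := log_pos (by norm_num)
  have hi' : (i : ℝ) ≤ n := by exact_mod_cast hi
  have hi0 : (0 : ℝ) ≤ i := Nat.cast_nonneg i
  have hs : (n : ℝ) * log 5 ≤ sc β₁ β₂ n i := by
    simp only [sc]
    nlinarith [mul_le_mul_of_nonneg_left h1.le hi0,
      mul_le_mul_of_nonneg_left h2.le (sub_nonneg.2 hi')]
  have hs0 : 0 ≤ sc β₁ β₂ n i / log 5 :=
    div_nonneg (le_trans (mul_nonneg (Nat.cast_nonneg n) h5.le) hs) h5.le
  refine ⟨Nat.le_floor ?_, ?_, ?_⟩
  · rw [le_div_iff₀ h5]; exact hs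
  · rw [← le_div_iff₀ h5]; exact Nat.floor_le hs0
  · rw [← div_le_iff₀ h5]; exact (Nat.lt_floor_add_one _).le

end Pool.Agent.Q265.BS
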