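import Pool.Agent.Q141.CP.Stm

/-!
# Project CP (helper141), job UPG: upper bound for the upper limit of `log Z / n`
-/

set_option autoImplicit false

namespace Pool.Agent.Q265.CP_UPG

open Finset MeasureTheory Filter Topology
open Pool.Agent.Q141.CP

theorem sum_loc {D n : ℕ} (s : Fin n → Dir D) : ∑ x ∈ vis s, loc s x = n := by
  have h1 : (Finset.Icc 1 n).card = ∑ x ∈ vis s, loc s x :=
    Finset.card_eq_sum_card_fiberwise fun i hi => Finset.mem_image_of_mem _ hi
  rw [← h1, Nat.card_Icc]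
  omega

theorem prod_eq {D n : ℕ} (g : ℕ → ℝ) (hg : ∀ l, 0 < g l) (s : Fin n → Dir D) :
    ∏ x ∈ vis s, g (loc s x) = (g 25) ^ ((n : ℝ) / 25) *
      ∏ x ∈ vis s, (g (loc s x) / (g 25) ^ ((loc s x : ℝ) / 25)) := by
  have h1 : (g 25) ^ ((n : ℝ) / 25) = ∏ x ∈ vis s, (g 25) ^ ((loc s x : ℝ) / 25) := by
    rw [← Real.rpow_sum_of_pos (hg 25)]
    congr 1
    rw [← Finset.sum_div, ← Nat.cast_sum, sum_loc]
  rw [h1, ← Finset.prod_mul_distrib]
  refine Finset.prod_congr rfl fun x _ => ?_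
  have h2 : (g 25) ^ ((loc s x : ℝ) / 25) ≠ 0 := (Real.rpow_pos_of_pos (hg 25) _).ne'
  field_simp

theorem lim0 (C : ℝ) : Tendsto (fun n : ℕ => (Real.log C + 3 * Real.log ((n : ℝ) + 1)) / n) atTop
    (𝓝 0) := by
  have h1 : Tendsto (fun n : ℕ => Real.log C / (n : ℝ)) atTop (𝓝 0) :=
    tendsto_const_div_atTop_nhds_zero_nat _
  have h2 : Tendsto (fun n : ℕ => ((n : ℝ) + 1)) atTop atTop :=
    tendsto_atTop_add_const_right _ _ tendsto_natCast_atTop_atTop
  have h3 := (Real.tendsto_pow_log_div_mul_add_atTop 1 (-1) 1 one_ne_zero).comp h2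
  have h4 := h1.add (h3.const_mul 3)
  rw [mul_zero, add_zero] at h4
  refine h4.congr fun n => ?_
  simp only [Function.comp_apply, pow_one, one_mul, add_neg_cancel_right]
  ring

theorem t_UPG : S_UPG := by
  intro D g Λ ε C hD hg hΛ hε hC hbd
  have hD0 : (0 : ℝ) < 2 * D := by
    have : (1 : ℝ) ≤ D := by exact_mod_cast hD
    linarith
  have hΛ0 : 0 < Λ := by linarith
  obtain ⟨K, hK⟩ : ∃ K : ℝ, K = (Real.log (g 25) + Real.log Λ) / 25 - Real.log (2 * D) +
    Real.log (1 + ε) := ⟨_, rfl⟩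
  rw [← hK]
  have hle : ∀ᶠ n : ℕ in atTop, ((Real.log (Z D g n) / n : ℝ) : EReal) ≤
      ((K + (Real.log C + 3 * Real.log ((n : ℝ) + 1)) / n : ℝ) : EReal) := by
    filter_upwards [eventually_ge_atTop 1] with n hn
    rw [EReal.coe_le_coe_iff]
    have hn0 : (0 : ℝ) < n := by exact_mod_cast hn
    have hne : Nonempty (Fin n → Dir D) := ⟨fun _ => (⟨0, hD⟩, true)⟩
    have hZ : 0 < Z D g n := by
      unfold Z
      refine div_pos (Finset.sum_pos (fun s _ => Finset.prod_pos fun x _ => hg _)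
        Finset.univ_nonempty) (pow_pos hD0 n)
    have hup : Z D g n ≤ (g 25) ^ ((n : ℝ) / 25) *
        (C * (n + 1) ^ 3 * Λ ^ ((n : ℝ) / 25) * (1 + ε) ^ n) / (2 * D) ^ n := by
      unfold Z
      refine div_le_div_of_nonneg_right ?_ (pow_pos hD0 n).le
      have h1 : ∑ s : Fin n → Dir D, ∏ x ∈ vis s, g (loc s x) = (g 25) ^ ((n : ℝ) / 25) *
          ∑ s : Fin n → Dir D, ∏ x ∈ vis s, (g (loc s x) / (g 25) ^ ((loc s x : ℝ) / 25)) := by
        rw [Finset.mul_sum]
        exact Finset.sum_congr rfl fun s _ => prod_eq g hg s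
      rw [h1]
      exact mul_le_mul_of_nonneg_left (hbd n) (Real.rpow_pos_of_pos (hg 25) _).le
    have hlog := Real.log_le_log hZ hup
    have p1 : (0 : ℝ) < (g 25) ^ ((n : ℝ) / 25) := Real.rpow_pos_of_pos (hg 25) _
    have p2 : (0 : ℝ) < (n : ℝ) + 1 := by linarith
    have p3 : (0 : ℝ) < Λ ^ ((n : ℝ) / 25) := Real.rpow_pos_of_pos hΛ0 _
    have p4 : (0 : ℝ) < 1 + ε := by linarith
    rw [Real.log_div (by positivity) (by positivity), Real.log_mul (by positivity) (by positivity),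
      Real.log_mul (by positivity) (by positivity), Real.log_mul (by positivity) (by positivity),
      Real.log_mul (by positivity) (by positivity), Real.log_rpow (hg 25), Real.log_rpow hΛ0,
      Real.log_pow, Real.log_pow, Real.log_pow] at hlog
    rw [div_le_iff₀ hn0, hK]
    refine hlog.trans (le_of_eq ?_)
    push_cast
    field_simp
    ring
  have hlim : Tendsto (fun n : ℕ =>
      ((K + (Real.log C + 3 * Real.log ((n : ℝ) + 1)) / n : ℝ) : EReal)) atTop
      (𝓝 (K : EReal)) := by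
    have h1 := (lim0 C).const_add K
    rw [add_zero] at h1
    exact (continuous_coe_real_ereal.tendsto K).comp h1
  exact (limsup_le_limsup hle).trans hlim.limsup_eq.le

end Pool.Agent.Q265.CP_UPG
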