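import Pool.Agent.Q88.MD.Stm

/-!
# Project MD: jobs SPOS and MAS
-/

set_option autoImplicit false

open MeasureTheory Set

namespace Pool.Agent.Q265.MD

open Pool.Agent.Q88.MD

theorem spos : S_spos := by
  intro g lam q hg hlam hq n
  have hlam0 : (0 : ℝ) < lam := by linarith
  have hq0 : (0 : ℝ) < q := by linarith
  constructor
  · induction n with
    | zero => intro k; simp [st, ms]
    | succ n ih =>
      intro k
      obtain ⟨h1, h2⟩ := ih (k / 2)
      have h3 : 0 < st g lam q n (k / 2) + g := by linarith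
      rw [st, ms]
      split_ifs with hk
      · refine ⟨div_pos h3 hlam0, mul_pos h2 (div_pos h1 h3)⟩
      · refine ⟨div_pos (mul_pos hq0 h1) h3, mul_pos h2 ?_⟩
        rw [pz, sub_pos, div_lt_one h3]
        linarith
  · induction n with
    | zero => simp [ms]
    | succ n ih =>
      rw [sum_dy, ← ih]
      refine Finset.sum_congr rfl fun k _ => ?_
      rw [ms_even, ms_odd]
      ring

theorem mas (_h : S_spos) : S_mas := by
  intro lam gam q hlam hgam hq f μ hf hμ
  obtain ⟨hmono, _, hf0, hf1, hfe⟩ := hf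
  obtain ⟨hprob, hμf⟩ := hμ
  have hlam0 : (0 : ℝ) < lam := by linarith
  have hq0 : (0 : ℝ) < q := by linarith
  have hfx : ∀ x ∈ Icc (0 : ℝ) 1, 0 ≤ f x ∧ f x ≤ 1 := by
    intro x hx
    have hm := hmono.monotoneOn
    refine ⟨?_, ?_⟩
    · rw [← hf0]; exact hm (left_mem_Icc.2 zero_le_one) hx hx.1
    · rw [← hf1]; exact hm hx (right_mem_Icc.2 zero_le_one) hx.2
  have hgen : ∀ P Q u E : ℝ, E ≠ 0 → (P * (u / E) + Q) * E = P * u + Q * E := by
    intro P Q u E hE
    field_simp
  have key : ∀ n k : ℕ, k < 2 ^ n → ∃ A B C D : ℝ, 0 < D ∧ 0 < C + D ∧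
      (C + D) / D = st (gam - 1) lam q n k ∧
      (∀ x ∈ Icc (0 : ℝ) 1, f (((k : ℝ) + x) / 2 ^ n) = (A * f x + B) / (C * f x + D)) ∧
      (A * D - B * C) / ((C + D) * D) = ms (gam - 1) lam q n k := by
    intro n
    induction n with
    | zero =>
      intro k hk
      have hk0 : k = 0 := by simpa using hk
      subst hk0
      refine ⟨1, 0, 0, 1, one_pos, by norm_num, by simp [st], ?_, by simp [ms]⟩
      intro x _
      simp
    | succ n ih =>
      intro k hk
      have hk2 : k / 2 < 2 ^ n := by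
        rw [pow_succ] at hk; omega
      obtain ⟨A, B, C, D, hD, hCD, hst, hfk, hms⟩ := ih (k / 2) hk2
      have hCg : 0 < C + D * gam := by nlinarith
      have hCgn : C + D * gam ≠ 0 := hCg.ne'
      have hCDn : C + D ≠ 0 := hCD.ne'
      have hz : st (gam - 1) lam q n (k / 2) + (gam - 1) = (C + D * gam) / D := by
        rw [← hst]; field_simp; ring
      rcases Nat.even_or_odd' k with ⟨j, hj | hj⟩
      · have hj2 : k / 2 = j := by omega
        rw [hj2] at hst hfk hms hz
        subst hj
        refine ⟨A + B * (gam - lam), B * lam, C + D * (gam - lam), D * lam, mul_pos hD hlam0,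
          by linarith [show C + D * (gam - lam) + D * lam = C + D * gam by ring], ?_, ?_, ?_⟩
        · rw [st_even, G0, hz, show C + D * (gam - lam) + D * lam = C + D * gam by ring, div_div]
        · intro x hx
          have hy : x / 2 ∈ Icc (0 : ℝ) 1 := ⟨by linarith [hx.1], by linarith [hx.2]⟩
          have e1 : (((2 * j : ℕ) : ℝ) + x) / 2 ^ (n + 1) = ((j : ℝ) + x / 2) / 2 ^ n := by
            push_cast
            rw [pow_succ]
            field_simp
          rw [e1, hfk _ hy, (hfe x hx).1, F0]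
          obtain ⟨h0, h1⟩ := hfx x hx
          have hE : 0 < (gam - lam) * f x + lam := by nlinarith
          rw [← mul_div_mul_right _ _ hE.ne', hgen _ _ _ _ hE.ne', hgen _ _ _ _ hE.ne']
          congr 1 <;> ring
        · rw [ms_even, pz, hz, ← hms, ← hst]
          rw [show C + D * (gam - lam) + D * lam = C + D * gam by ring]
          field_simp
          ring
      · have hj2 : k / 2 = j := by omega
        rw [hj2] at hst hfk hms hz
        subst hj
        refine ⟨A * (q - 1) + B * (q - gam), A + B * gam, C * (q - 1) + D * (q - gam),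
          C + D * gam, hCg, ?_, ?_, ?_, ?_⟩
        · rw [show C * (q - 1) + D * (q - gam) + (C + D * gam) = q * (C + D) by ring]
          positivity
        · rw [st_odd, G1, hz, show C * (q - 1) + D * (q - gam) + (C + D * gam) = q * (C + D) by ring,
            ← hst]
          field_simp
        · intro x hx
          have hy : (x + 1) / 2 ∈ Icc (0 : ℝ) 1 := ⟨by linarith [hx.1], by linarith [hx.2]⟩
          have e1 : (((2 * j + 1 : ℕ) : ℝ) + x) / 2 ^ (n + 1) = ((j : ℝ) + (x + 1) / 2) / 2 ^ n := by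
            push_cast
            rw [pow_succ]
            field_simp
            ring
          rw [e1, hfk _ hy, (hfe x hx).2, F1]
          obtain ⟨h0, h1⟩ := hfx x hx
          have hE : 0 < (q - gam) * f x + gam := by nlinarith
          rw [← mul_div_mul_right _ _ hE.ne', hgen _ _ _ _ hE.ne', hgen _ _ _ _ hE.ne']
          congr 1 <;> ring
        · have hp : 1 - (C + D) / D / ((C + D * gam) / D) = (gam - 1) * D / (C + D * gam) := by
            rw [div_div_div_cancel_right₀ hD.ne', eq_div_iff hCgn, sub_mul, div_mul_cancel₀ _ hCgn]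
            ring
          rw [ms_odd, pz, hz, ← hms, ← hst, hp]
          rw [show C * (q - 1) + D * (q - gam) + (C + D * gam) = q * (C + D) by ring]
          rw [div_mul_div_comm, div_eq_div_iff (by positivity) (by positivity)]
          ring
  intro n k hk
  obtain ⟨A, B, C, D, hD, hCD, _, hfk, hms⟩ := key n k hk
  have h2 : (0 : ℝ) < 2 ^ n := by positivity
  have hk1 : (k : ℝ) + 1 ≤ 2 ^ n := by exact_mod_cast hk
  have ha : (k : ℝ) / 2 ^ n ∈ Icc (0 : ℝ) 1 := by
    refine ⟨by positivity, ?_⟩
    rw [div_le_one h2]; linarith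
  have hb : ((k : ℝ) + 1) / 2 ^ n ∈ Icc (0 : ℝ) 1 := by
    refine ⟨by positivity, ?_⟩
    rw [div_le_one h2]; linarith
  have hab : (k : ℝ) / 2 ^ n ≤ ((k : ℝ) + 1) / 2 ^ n := by
    rw [div_le_div_iff_of_pos_right h2]; linarith
  have e0 : f ((k : ℝ) / 2 ^ n) = B / D := by
    have := hfk 0 (left_mem_Icc.2 zero_le_one)
    rw [hf0] at this
    simpa using this
  have e1 : f (((k : ℝ) + 1) / 2 ^ n) = (A + B) / (C + D) := by
    have := hfk 1 (right_mem_Icc.2 zero_le_one)
    rw [hf1] at this
    simpa using this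
  have hun : Ico (0 : ℝ) (((k : ℝ) + 1) / 2 ^ n) =
      Ico 0 ((k : ℝ) / 2 ^ n) ∪ Ico ((k : ℝ) / 2 ^ n) (((k : ℝ) + 1) / 2 ^ n) := by
    rw [Ico_union_Ico_eq_Ico ha.1 hab]
  have hdis : Disjoint (Ico (0 : ℝ) ((k : ℝ) / 2 ^ n))
      (Ico ((k : ℝ) / 2 ^ n) (((k : ℝ) + 1) / 2 ^ n)) := by
    rw [Set.disjoint_left]
    intro x hx hx'
    exact absurd hx.2 (not_lt.2 hx'.1)
  have hm := measure_union (μ := μ) hdis measurableSet_Ico
  rw [← hun, hμf _ hb, hμf _ ha] at hm
  have hfa := (hfx _ ha).1
  have hdy : μ (dy n k) = ENNReal.ofReal (f (((k : ℝ) + 1) / 2 ^ n)) -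
      ENNReal.ofReal (f ((k : ℝ) / 2 ^ n)) := by
    rw [hm, dy]
    rw [ENNReal.add_sub_cancel_left ENNReal.ofReal_ne_top]
  rw [hdy, ← ENNReal.ofReal_sub _ hfa, e0, e1, ← hms]
  congr 1
  field_simp
  ring

end Pool.Agent.Q265.MD
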