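import Pool.Agent.Q61.MH.Stm

/-!
# Four numerical inequalities
-/

set_option autoImplicit false

namespace Pool.Agent.Q265.MH

open Pool.Agent.Q61.MH Real

lemma pow20 (x : ℝ) (hx : 0 ≤ x) : (x ^ (41 / 20 : ℝ)) ^ 20 = x ^ 41 := by
  rw [← Real.rpow_natCast (x ^ (41 / 20 : ℝ)) 20, ← Real.rpow_mul hx, ← Real.rpow_natCast x 41]
  norm_num

lemma le_r (x y : ℝ) (hx : 0 ≤ x) (hy : 0 ≤ y) (h : x ^ 41 ≤ y ^ 20) :
    x ^ (41 / 20 : ℝ) ≤ y := by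
  refine le_of_pow_le_pow_left₀ (n := 20) (by norm_num) hy ?_
  rw [pow20 x hx]
  exact h

lemma ge_r (x y : ℝ) (hx : 0 ≤ x) (h : y ^ 20 ≤ x ^ 41) : y ≤ x ^ (41 / 20 : ℝ) := by
  refine le_of_pow_le_pow_left₀ (n := 20) (by norm_num) (by positivity) ?_
  rw [pow20 x hx]
  exact h

lemma g2 (r : ℝ) : g 2 r = 3 ^ r / (1 + 2 ^ r) := by
  unfold g S
  simp only [Finset.sum_range_succ, Finset.sum_range_zero]
  norm_num

lemma g3 (r : ℝ) : g 3 r = 5 ^ r / (1 + 2 ^ r + 3 ^ r) := by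
  unfold g S
  simp only [Finset.sum_range_succ, Finset.sum_range_zero]
  norm_num

theorem num1 : S_num1 := by
  have h2 : (2 : ℝ) ^ (41 / 20 : ℝ) ≤ 4.14108 := le_r _ _ (by norm_num) (by norm_num) (by norm_num)
  have h3 : (3 : ℝ) ^ (41 / 20 : ℝ) ≤ 9.50823 := le_r _ _ (by norm_num) (by norm_num) (by norm_num)
  have hb : base (41 / 20) = (82 / 61 : ℝ) ^ (41 / 20 : ℝ) := by
    unfold base
    norm_num
  have hpos : (0 : ℝ) < (82 / 61 : ℝ) ^ (41 / 20 : ℝ) := by positivity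
  refine ⟨?_, ?_, ?_, ?_⟩
  · rw [g2]
    unfold base
    rw [show ((2 : ℝ) : ℝ) = ((2 : ℕ) : ℝ) by norm_num]
    simp only [Real.rpow_natCast]
    norm_num
  · have hb2 : base (3 / 2) = (6 / 5 : ℝ) ^ (3 / 2 : ℝ) := by
      unfold base
      norm_num
    have hp : (0 : ℝ) < (6 / 5 : ℝ) ^ (3 / 2 : ℝ) := by positivity
    have hsq : ∀ x : ℝ, 0 ≤ x → (x ^ (3 / 2 : ℝ)) ^ 2 = x ^ 3 := by
      intro x hx
      rw [← Real.rpow_natCast (x ^ (3 / 2 : ℝ)) 2, ← Real.rpow_mul hx, ← Real.rpow_natCast x 3]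
      norm_num
    have h4 : (2 : ℝ) ^ (3 / 2 : ℝ) ≤ 2.82843 := by
      refine le_of_pow_le_pow_left₀ (n := 2) (by norm_num) (by norm_num) ?_
      rw [hsq 2 (by norm_num)]
      norm_num
    have h5 : (3.8764 : ℝ) ≤ (5 / 2 : ℝ) ^ (3 / 2 : ℝ) := by
      refine le_of_pow_le_pow_left₀ (n := 2) (by norm_num) (by positivity) ?_
      rw [hsq (5 / 2) (by norm_num)]
      norm_num
    have h6 : (3 : ℝ) ^ (3 / 2 : ℝ) = (6 / 5 : ℝ) ^ (3 / 2 : ℝ) * (5 / 2 : ℝ) ^ (3 / 2 : ℝ) := by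
      rw [← Real.mul_rpow (by norm_num) (by norm_num)]
      norm_num
    rw [hb2, g2, h6, le_div_iff₀ (by positivity)]
    nlinarith [mul_le_mul_of_nonneg_left (show (1.0125 : ℝ) * (1 + 2 ^ (3 / 2 : ℝ)) ≤
      (5 / 2 : ℝ) ^ (3 / 2 : ℝ) by linarith) hp.le]
  · have h5 : (5.184267 : ℝ) ≤ (183 / 82 : ℝ) ^ (41 / 20 : ℝ) := ge_r _ _ (by norm_num) (by norm_num)
    have h6 : (3 : ℝ) ^ (41 / 20 : ℝ) =
        (82 / 61 : ℝ) ^ (41 / 20 : ℝ) * (183 / 82 : ℝ) ^ (41 / 20 : ℝ) := by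
      rw [← Real.mul_rpow (by norm_num) (by norm_num)]
      norm_num
    rw [hb, g2, h6, le_div_iff₀ (by positivity)]
    nlinarith [mul_le_mul_of_nonneg_left (show (1.0084 : ℝ) * (1 + 2 ^ (41 / 20 : ℝ)) ≤
      (183 / 82 : ℝ) ^ (41 / 20 : ℝ) by linarith) hpos.le]
  · have h5 : (14.77237 : ℝ) ≤ (305 / 82 : ℝ) ^ (41 / 20 : ℝ) := ge_r _ _ (by norm_num) (by norm_num)
    have h6 : (5 : ℝ) ^ (41 / 20 : ℝ) =
        (82 / 61 : ℝ) ^ (41 / 20 : ℝ) * (305 / 82 : ℝ) ^ (41 / 20 : ℝ) := by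
      rw [← Real.mul_rpow (by norm_num) (by norm_num)]
      norm_num
    rw [hb, g3, h6, le_div_iff₀ (by positivity)]
    nlinarith [mul_le_mul_of_nonneg_left (show (1.0084 : ℝ) * (1 + 2 ^ (41 / 20 : ℝ) +
      3 ^ (41 / 20 : ℝ)) ≤ (305 / 82 : ℝ) ^ (41 / 20 : ℝ) by linarith) hpos.le]

end Pool.Agent.Q265.MH
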