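import Pool.Agent.Q88.MK.Stm

/-!
# Project MK: jobs MVT and BDD
-/

set_option autoImplicit false

open Set

namespace Pool.Agent.Q265.MK

open Pool.Agent.Q88.MK

theorem mvt (h : S_der) : S_mvt := by
  intro s P G δ hs hδ hδ1 h0 hhalf hG
  have hs0 : (0 : ℝ) < s := by linarith
  set φ : ℝ → ℝ := fun t => ev P t (t ^ s) with hφ
  set φ' : ℝ → ℝ := fun t => ev (MvPolynomial.pderiv 0 P) t (t ^ s) * 1 +
    ev (MvPolynomial.pderiv 1 P) t (t ^ s) * (s * t ^ (s - 1)) with hφ'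
  have hder : ∀ t : ℝ, HasDerivAt φ (φ' t) t := fun t =>
    h P (fun t => t) (fun t => t ^ s) 1 (s * t ^ (s - 1)) t (hasDerivAt_id' t)
      (Real.hasDerivAt_rpow_const (Or.inr hs.le))
  have hbd : ∀ t ∈ Icc (0 : ℝ) δ, ‖φ' t‖ ≤ (1 + s) * G := by
    intro t ht
    have hg := hG t ht
    rw [gradNorm] at hg
    have ha : |ev (MvPolynomial.pderiv 0 P) t (t ^ s)| ≤ G :=
      (Real.abs_le_sqrt (by nlinarith [sq_nonneg (ev (MvPolynomial.pderiv 1 P) t (t ^ s))])).trans hg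
    have hb : |ev (MvPolynomial.pderiv 1 P) t (t ^ s)| ≤ G :=
      (Real.abs_le_sqrt (by nlinarith [sq_nonneg (ev (MvPolynomial.pderiv 0 P) t (t ^ s))])).trans hg
    have hp0 : 0 ≤ t ^ (s - 1) := Real.rpow_nonneg ht.1 _
    have hp1 : t ^ (s - 1) ≤ 1 := Real.rpow_le_one ht.1 (ht.2.trans hδ1) (by linarith)
    have hG0 : 0 ≤ G := (abs_nonneg _).trans ha
    have hc : |s * t ^ (s - 1)| ≤ s := by
      rw [abs_of_nonneg (by positivity)]
      nlinarith
    calc ‖φ' t‖ ≤ |ev (MvPolynomial.pderiv 0 P) t (t ^ s) * 1| +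
          |ev (MvPolynomial.pderiv 1 P) t (t ^ s) * (s * t ^ (s - 1))| := by
          rw [hφ', Real.norm_eq_abs]; exact abs_add_le _ _
      _ = |ev (MvPolynomial.pderiv 0 P) t (t ^ s)| +
          |ev (MvPolynomial.pderiv 1 P) t (t ^ s)| * |s * t ^ (s - 1)| := by
          rw [mul_one, abs_mul]
      _ ≤ G + G * s := add_le_add ha (mul_le_mul hb hc (abs_nonneg _) hG0)
      _ = (1 + s) * G := by ring
  have hm := (convex_Icc (0 : ℝ) δ).norm_image_sub_le_of_norm_hasDerivWithin_le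
    (fun t _ => (hder t).hasDerivWithinAt) hbd (left_mem_Icc.2 hδ.le) (right_mem_Icc.2 hδ.le)
  have e0 : φ 0 = 1 := by
    simp only [hφ]
    rw [Real.zero_rpow hs0.ne', h0]
  have e1 : |φ δ| ≤ 1 / 2 := hhalf
  rw [e0, sub_zero, Real.norm_eq_abs, Real.norm_eq_abs, abs_of_pos hδ] at hm
  have h2 : 1 / 2 ≤ |φ δ - 1| := by
    have := abs_le.1 e1
    rw [abs_sub_comm]
    exact le_trans (by linarith [this.2]) (le_abs_self _)
  linarith

lemma cont_ev (P : Pol) : Continuous fun z : ℝ × ℝ => ev P z.1 z.2 := by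
  have h1 : Continuous fun z : ℝ × ℝ => (![z.1, z.2] : Fin 2 → ℝ) := by
    refine continuous_pi fun i => ?_
    fin_cases i
    · exact continuous_fst
    · exact continuous_snd
  exact (MvPolynomial.continuous_eval P).comp h1

theorem bdd : S_bdd := by
  intro s p P hs hp
  have hsub : cusp s p ⊆ Icc (0 : ℝ) 1 ×ˢ Icc (0 : ℝ) 2 := by
    rintro ⟨x, y⟩ ⟨hx, h1, h2⟩
    simp only at hx h1 h2
    have a1 : 0 ≤ x ^ s := Real.rpow_nonneg hx.1 _
    have a2 : x ^ s ≤ 1 := Real.rpow_le_one hx.1 hx.2 (by linarith)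
    have a3 : x ^ p ≤ 1 := Real.rpow_le_one hx.1 hx.2 (by linarith)
    exact ⟨hx, ⟨by linarith, by linarith⟩⟩
  have hK : IsCompact (Icc (0 : ℝ) 1 ×ˢ Icc (0 : ℝ) 2) := isCompact_Icc.prod isCompact_Icc
  constructor
  · have hc : Continuous fun z : ℝ × ℝ => gradNorm P z := by
      unfold gradNorm
      exact Real.continuous_sqrt.comp (((cont_ev _).pow 2).add ((cont_ev _).pow 2))
    exact (hK.bddAbove_image hc.continuousOn).mono (image_mono hsub)
  · have hc : Continuous fun z : ℝ × ℝ => |ev P z.1 z.2| := (cont_ev P).abs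
    exact (hK.bddAbove_image hc.continuousOn).mono (image_mono hsub)

end Pool.Agent.Q265.MK
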