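import Mathlib
import Pool.Agent.Q49.MR2.Stm

/-!
# Project MR2: jobs TNE and TOR
-/

set_option autoImplicit false

open Module

namespace Q265.MR2_TNE

open Q49.MR Q49.MR2

lemma two_L {K L : Type} [Field K] [Finite K] [Field L] [Finite L] [Algebra K L]
    {σ : L ≃ₐ[K] L} (hc : Cyc2 σ) : (2 : L) = 0 := by
  have h := congrArg (algebraMap K L) hc.two
  rwa [map_ofNat, map_zero] at h

theorem tne (h1 : S2_FX) : S2_TNE := by
  intro K L _ _ _ _ _ σ hc θ hθ
  have h2 := two_L hc
  set f : L := θ + σ θ + σ (σ θ) + σ (σ (σ θ)) with hf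
  have hf1 : σ f = f + 1 := by
    rw [hf]
    simp only [map_add, hθ]
    ring
  have ht : t4 σ (nn θ) = f ^ 2 + f := by
    simp only [t4, nn, map_add, map_pow, hf]
    linear_combination (-(θ * σ θ) - θ * σ (σ θ) - θ * σ (σ (σ θ)) - σ θ * σ (σ θ)
      - σ θ * σ (σ (σ θ)) - σ (σ θ) * σ (σ (σ θ))) * h2
  have hfix : σ (t4 σ (nn θ)) = t4 σ (nn θ) := by
    rw [ht, map_add, map_pow, hf1]
    linear_combination (f + 1) * h2
  obtain ⟨t, htt⟩ := h1 K L σ hc _ hfix
  refine ⟨t, htt, ?_⟩
  intro c hcc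
  rw [hcc, ht, map_add, map_pow] at htt
  set c' := algebraMap K L c with hc'
  have hcf : σ c' = c' := AlgEquiv.commutes σ c
  have hp : (f - c') * (f - c' + 1) = 0 := by
    linear_combination -htt + (c' ^ 2 - f * c') * h2
  rcases mul_eq_zero.1 hp with h | h
  · have h3 : f = c' := sub_eq_zero.1 h
    rw [h3, hcf] at hf1
    exact one_ne_zero (left_eq_add.1 hf1)
  · have h3 : f = c' - 1 := by linear_combination h
    rw [h3, map_sub, hcf, map_one] at hf1
    exact one_ne_zero (left_eq_add.1 hf1)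

/-- `T(y) = ∑_{i<k} y^(2^i)` -/
def Tr2 {L : Type} [Field L] (k : ℕ) (y : L) : L := ∑ i ∈ Finset.range k, y ^ 2 ^ i

lemma Tr2_add {L : Type} [Field L] [CharP L 2] (k : ℕ) (y z : L) :
    Tr2 k (y + z) = Tr2 k y + Tr2 k z := by
  simp only [Tr2, ← Finset.sum_add_distrib]
  exact Finset.sum_congr rfl fun i _ => add_pow_char_pow y z 2 i

lemma Tr2_wp {L : Type} [Field L] [CharP L 2] (h2 : (2 : L) = 0) (k : ℕ) (y : L)
    (hy : y ^ 2 ^ k = y) : Tr2 k (y ^ 2 + y) = 0 := by
  have h : ∀ n : ℕ, Tr2 n (y ^ 2 + y) = y ^ 2 ^ n + y := by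
    intro n
    induction n with
    | zero =>
      simp only [Tr2, Finset.range_zero, Finset.sum_empty, pow_zero, pow_one]
      linear_combination (-y) * h2
    | succ n ih =>
      have e : Tr2 (n + 1) (y ^ 2 + y) = Tr2 n (y ^ 2 + y) + (y ^ 2 + y) ^ 2 ^ n := by
        simp only [Tr2, Finset.sum_range_succ]
      rw [e, ih, add_pow_char_pow, ← pow_mul, show 2 * 2 ^ n = 2 ^ (n + 1) by ring]
      linear_combination (y ^ 2 ^ n) * h2
  rw [h k, hy]
  linear_combination y * h2

/-- the image of `Y ↦ Y² + Y` has index two -/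
lemma index_two (K : Type) [Field K] [Finite K] (h2 : (2 : K) = 0) (a b : K)
    (ha : ∀ Y : K, a ≠ Y ^ 2 + Y) (hb : ∀ Y : K, b ≠ Y ^ 2 + Y) : ∃ Y : K, a + b = Y ^ 2 + Y := by
  let φ : K →+ K :=
    { toFun := fun Y => Y ^ 2 + Y
      map_zero' := by ring
      map_add' := by
        intro x y
        linear_combination (x * y) * h2 }
  have hker : Nat.card φ.ker = 2 := by
    have hs : (φ.ker : Set K) = {0, 1} := by
      ext x
      simp only [SetLike.mem_coe, AddMonoidHom.mem_ker, Set.mem_insert_iff,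
        Set.mem_singleton_iff]
      constructor
      · intro hx
        have hx' : x ^ 2 + x = 0 := hx
        have : x * (x + 1) = 0 := by linear_combination hx'
        rcases mul_eq_zero.1 this with h | h
        · exact Or.inl h
        · right
          linear_combination h - h2
      · rintro (h | h)
        · subst h; exact map_zero φ
        · subst h
          show (1 : K) ^ 2 + 1 = 0
          linear_combination h2
    rw [show Nat.card φ.ker = (φ.ker : Set K).ncard from Nat.card_coe_set_eq _, hs,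
      Set.ncard_pair zero_ne_one]
  have hidx : φ.range.index = 2 := by
    have e1 := AddSubgroup.card_mul_index φ.ker
    have e2 := AddSubgroup.card_mul_index φ.range
    rw [AddSubgroup.index_ker, hker] at e1
    have hpos : 0 < Nat.card φ.range := Nat.card_pos
    have : Nat.card φ.range * φ.range.index = Nat.card φ.range * 2 := by
      rw [e2, ← e1, mul_comm]
    exact Nat.eq_of_mul_eq_mul_left hpos this
  have hm := (AddSubgroup.add_mem_iff_of_index_two hidx (a := a) (b := b)).2
  have hna : a ∉ φ.range := fun ⟨Y, hY⟩ => ha Y hY.symm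
  have hnb : b ∉ φ.range := fun ⟨Y, hY⟩ => hb Y hY.symm
  obtain ⟨Y, hY⟩ := hm ⟨fun h => absurd h hna, fun h => absurd h hnb⟩
  exact ⟨Y, hY.symm⟩

/-- there are `n` roots of `z^n = 1` if `n` divides the order of the unit group -/
lemma roots_exist (L : Type) [Field L] [Finite L] (n : ℕ) (hn : n ∣ Nat.card Lˣ) (hn0 : 0 < n) :
    ∃ S : Finset L, S.card = n ∧ ∀ z ∈ S, z ^ n = 1 := by
  obtain ⟨g, hg⟩ := IsCyclic.exists_ofOrder_eq_natCard (α := Lˣ)
  obtain ⟨m, hm⟩ := hn
  have hm0 : m ≠ 0 := by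
    rintro rfl
    have : 0 < Nat.card Lˣ := Nat.card_pos
    omega
  have ho : orderOf (g ^ m) = n := by
    rw [orderOf_pow_of_dvd hm0 (by rw [hg, hm]; exact dvd_mul_left _ _), hg, hm,
      Nat.mul_div_cancel _ (Nat.pos_of_ne_zero hm0)]
  have hp : IsPrimitiveRoot ((g ^ m : Lˣ) : L) n := by
    rw [← ho]
    exact IsPrimitiveRoot.coe_units_iff.2 (IsPrimitiveRoot.orderOf _)
  refine ⟨Polynomial.nthRootsFinset n (1 : L), hp.card_nthRootsFinset, ?_⟩
  intro z hz
  exact (Polynomial.mem_nthRootsFinset hn0 (1 : L)).1 hz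

open Polynomial in
/-- the polynomial argument -/
lemma poly_contra (L : Type) [Field L] [Finite L] (k q : ℕ) (hq : q = 2 ^ k) (c c1 ε : L)
    (hc1 : c1 ≠ 0) (hdvd : q + 1 ∣ Nat.card Lˣ)
    (h : ∀ z : L, z ^ (q + 1) = 1 → Tr2 k (c * z + c1 * z⁻¹) + ε = 0) [CharP L 2] (hk : 0 < k) :
    False := by
  obtain ⟨S, hS, hz⟩ := roots_exist L (q + 1) hdvd (by omega)
  set P : L[X] := C ε + ∑ i ∈ Finset.range k,
    (C (c ^ 2 ^ i) * X ^ 2 ^ i + C (c1 ^ 2 ^ i) * X ^ (q + 1 - 2 ^ i)) with hP
  have hdeg : P.natDegree ≤ q := by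
    rw [hP]
    refine (natDegree_add_le _ _).trans (max_le (by rw [natDegree_C]; omega) ?_)
    refine natDegree_sum_le_of_forall_le _ _ fun i hi => ?_
    have hi' : 2 ^ i ≤ q := by
      rw [hq]; exact Nat.pow_le_pow_right (by norm_num) (Finset.mem_range.1 hi).le
    have hi1 : 1 ≤ 2 ^ i := Nat.one_le_two_pow
    refine (natDegree_add_le _ _).trans (max_le ?_ ?_)
    · exact (natDegree_C_mul_X_pow_le _ _).trans hi'
    · exact (natDegree_C_mul_X_pow_le _ _).trans (by omega)
  have hq1 : 1 ≤ q := by rw [hq]; exact Nat.one_le_two_pow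
  have hcoef : P.coeff q = c1 := by
    rw [hP, coeff_add, finsetSum_coeff]
    rw [show (C ε : L[X]).coeff q = 0 from by rw [coeff_C, if_neg (by omega)], zero_add]
    rw [Finset.sum_eq_single 0]
    · simp only [pow_zero, pow_one, Nat.add_sub_cancel, coeff_add, coeff_C_mul, coeff_X_pow]
      have hq2 : q ≠ 1 := by
        rw [hq]
        exact (Nat.one_lt_two_pow (by omega)).ne'
      have : (X : L[X]).coeff q = 0 := by
        rw [coeff_X, if_neg (fun h => hq2 h.symm)]
      rw [this]; simp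
    · intro i hi hi0
      have hi' : 2 ^ i < q := by
        rw [hq]; exact Nat.pow_lt_pow_right (by norm_num) (Finset.mem_range.1 hi)
      have hi1 : 1 < 2 ^ i := Nat.one_lt_two_pow hi0
      simp only [coeff_add, coeff_C_mul, coeff_X_pow]
      rw [if_neg (by omega), if_neg (by omega)]
      ring
    · intro h0
      exact absurd (Finset.mem_range.2 hk) h0
  have hev : ∀ z ∈ S, P.eval z = 0 := by
    intro z hzS
    have hz1 := hz z hzS
    have hz0 : z ≠ 0 := by
      rintro rfl
      rw [zero_pow (by omega)] at hz1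
      exact zero_ne_one hz1
    have hmain := h z hz1
    rw [hP, eval_add, eval_C, eval_finsetSum]
    rw [add_comm, ← hmain]
    congr 1
    simp only [Tr2]
    refine Finset.sum_congr rfl fun i hi => ?_
    have hi' : 2 ^ i ≤ q := by
      rw [hq]; exact Nat.pow_le_pow_right (by norm_num) (Finset.mem_range.1 hi).le
    simp only [eval_add, eval_mul, eval_C, eval_pow, eval_X]
    rw [add_pow_char_pow, mul_pow, mul_pow, inv_pow]
    have he : z ^ (q + 1 - 2 ^ i) = (z ^ 2 ^ i)⁻¹ := by
      refine eq_inv_of_mul_eq_one_left ?_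
      rw [← pow_add, Nat.sub_add_cancel (by omega), hz1]
    rw [he]
  have hP0 : P = 0 := eq_zero_of_natDegree_lt_card_of_eval_eq_zero' P S hev (by rw [hS]; omega)
  rw [hP0, coeff_zero] at hcoef
  exact hc1 hcoef.symm

theorem tor (h1 : S2_FX) (h2' : S2_K2) : S2_TOR := by
  intro K L _ _ _ _ _ σ hc c hc0 hc2 t ht
  have h2 := two_L hc
  have : CharP L 2 := CharTwo.of_one_ne_zero_of_two_eq_zero one_ne_zero h2
  have : CharP K 2 := CharTwo.of_one_ne_zero_of_two_eq_zero one_ne_zero hc.two
  have := Fintype.ofFinite K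
  have := Fintype.ofFinite L
  obtain ⟨k, _, hk⟩ := FiniteField.card K 2
  have hkq : Nat.card K = 2 ^ (k : ℕ) := by rw [Nat.card_eq_fintype_card]; exact hk
  set q := Nat.card K with hqd
  have hcard : Nat.card L = q ^ 8 := by
    rw [hqd, ← hc.rank]
    exact Module.natCard_eq_pow_finrank (K := K) (V := L)
  have hq1 : 1 ≤ q := by rw [hkq]; exact Nat.one_le_two_pow
  have hdvd : q + 1 ∣ Nat.card Lˣ := by
    rw [Nat.card_units, hcard]
    obtain ⟨r, hr⟩ : ∃ r, q = r + 1 := ⟨q - 1, by omega⟩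
    rw [hr]
    have e : (r + 1) ^ 8 - 1 = (r + 1 + 1) * (r * ((r + 1) ^ 2 + 1) * ((r + 1) ^ 4 + 1)) := by
      rw [Nat.sub_eq_iff_eq_add (Nat.one_le_pow _ _ (by omega))]
      ring
    rw [e]
    exact dvd_mul_right _ _
  obtain ⟨s, hs, hpow⟩ := hc.pow
  have hKfix : ∀ Y : K, (algebraMap K L Y) ^ 2 ^ (k : ℕ) = algebraMap K L Y := by
    intro Y
    rw [← map_pow, ← hkq, hqd, Nat.card_eq_fintype_card, FiniteField.pow_card]
  by_contra hneg
  push Not at hneg
  -- all `D` give trace zero
  have hD : ∀ D : L, σ (σ D) = D → D + σ D = 1 → Tr2 k (c / D + σ c / σ D) = 0 := by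
    intro D hD2 hD1
    have hfix : σ (c / D + σ c / σ D) = c / D + σ c / σ D := by
      rw [map_add, map_div₀, map_div₀, hD2, hc2, add_comm]
    obtain ⟨s', hs'⟩ := h1 K L σ hc _ hfix
    by_cases hex : ∃ Y : K, s' = Y ^ 2 + Y
    · obtain ⟨Y, hY⟩ := hex
      rw [← hs', hY, map_add, map_pow]
      exact Tr2_wp h2 k _ (hKfix Y)
    · push Not at hex
      obtain ⟨Y, hY⟩ := index_two K hc.two t s' ht hex
      exfalso
      refine hneg D hD2 hD1 Y ?_
      rw [add_assoc, ← hs', ← map_add, hY]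
  have hzz : ∀ z : L, z ^ (q + 1) = 1 →
      Tr2 k (c * z + σ c * z⁻¹) + Tr2 k (c + σ c) = 0 := by
    intro z hz
    have hz0 : z ≠ 0 := by
      rintro rfl
      rw [zero_pow (by omega)] at hz
      exact zero_ne_one hz
    by_cases hz1 : z = 1
    · subst hz1
      rw [mul_one, inv_one, mul_one]
      linear_combination (Tr2 k (c + σ c)) * h2
    · have hzq2 : z ^ (q * q) = z := by
        obtain ⟨r, hr⟩ : ∃ r, q = r + 1 := ⟨q - 1, by omega⟩
        have : q * q = (q + 1) * r + 1 := by rw [hr]; ring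
        rw [this, pow_succ, pow_mul, hz, one_pow, one_mul]
      have hzn : ∀ n : ℕ, z ^ ((q * q) ^ n) = z := by
        intro n
        induction n with
        | zero => simp
        | succ n ih => rw [pow_succ, pow_mul, ih, hzq2]
      have hσσ : σ (σ z) = z := by
        rw [hpow z, map_pow, hpow z, ← pow_mul, ← mul_pow]
        exact hzn s
      have hσ : σ z = z⁻¹ := by
        rw [h2' K L σ hc z hσσ, ← hqd]
        refine eq_inv_of_mul_eq_one_left ?_
        rw [← pow_succ]
        exact hz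
      have hne : (1 : L) + z ≠ 0 := by
        intro h
        apply hz1
        linear_combination h - h2
      have hne' : (1 : L) + z⁻¹ ≠ 0 := by
        intro h
        apply hne
        have : z * (1 + z⁻¹) = 1 + z := by
          rw [mul_add, mul_inv_cancel₀ hz0]; ring
        rw [← this, h, mul_zero]
      have hσD : σ (1 / (1 + z)) = 1 / (1 + z⁻¹) := by
        rw [map_div₀, map_add, map_one, hσ]
      have hz' : σ z⁻¹ = z := by rw [map_inv₀, hσ, inv_inv]
      have d1 : σ (σ (1 / (1 + z))) = 1 / (1 + z) := by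
        rw [hσD, map_div₀, map_add, map_one, hz']
      have d2 : 1 / (1 + z) + σ (1 / (1 + z)) = 1 := by
        rw [hσD]
        have e : (1 : L) / (1 + z⁻¹) = z / (1 + z) := by
          rw [div_eq_div_iff hne' hne, mul_add z, mul_inv_cancel₀ hz0]
          ring
        rw [e, ← add_div, div_self hne]
      have h3 := hD _ d1 d2
      rw [hσD, div_div_eq_mul_div, div_one, div_div_eq_mul_div, div_one] at h3
      have h4 : c * (1 + z) + σ c * (1 + z⁻¹) = (c * z + σ c * z⁻¹) + (c + σ c) := by ring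
      rw [h4, Tr2_add] at h3
      exact h3
  have hc1 : σ c ≠ 0 := by
    intro h
    exact hc0 ((map_eq_zero σ).1 h)
  exact poly_contra L k q hkq c (σ c) (Tr2 k (c + σ c)) hc1 hdvd hzz k.pos

end Q265.MR2_TNE
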