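import Mathlib

/-! # Counting multiplicity functions with a bounded weighted sum -/

set_option autoImplicit false

namespace Pool.Agent.Q265.PartCount

open Finset

theorem geom_le (y : ℝ) (h0 : 0 ≤ y) (h1 : y < 1) (n : ℕ) :
    ∑ m ∈ range n, y ^ m ≤ (1 - y)⁻¹ := by
  have h2 := geom_sum_mul_neg y n
  have h3 : 0 < 1 - y := by linarith
  rw [← one_div, le_div_iff₀ h3, h2]
  have := pow_nonneg h0 n
  linarith

/-- the multiplicity functions on `J` with weighted sum at most `N` -/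
def MF (n : ℕ) (J : Finset ℕ) (N : ℕ) : Finset (Fin (n + 1) → ℕ) :=
  (Fintype.piFinset (fun j : Fin (n + 1) => if (j : ℕ) ∈ J then range (N + 1) else {0})).filter
    (fun f => ∑ j : Fin (n + 1), (j : ℕ) * f j ≤ N)

theorem mem_MF {n : ℕ} {J : Finset ℕ} {N : ℕ} (hJ : 0 ∉ J) (f : Fin (n + 1) → ℕ)
    (h1 : ∀ j : Fin (n + 1), (j : ℕ) ∉ J → f j = 0) (h2 : ∑ j : Fin (n + 1), (j : ℕ) * f j ≤ N) :
    f ∈ MF n J N := by
  unfold MF
  rw [mem_filter, Fintype.mem_piFinset]
  refine ⟨fun j => ?_, h2⟩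
  by_cases h : (j : ℕ) ∈ J
  · rw [if_pos h, mem_range]
    have h3 : (j : ℕ) * f j ≤ ∑ j : Fin (n + 1), (j : ℕ) * f j :=
      Finset.single_le_sum (f := fun j : Fin (n + 1) => (j : ℕ) * f j)
        (fun _ _ => Nat.zero_le _) (mem_univ j)
    have h4 : 0 < (j : ℕ) := by
      rcases Nat.eq_zero_or_pos (j : ℕ) with h5 | h5
      · rw [h5] at h; exact absurd h hJ
      · exact h5
    have h5 : f j ≤ (j : ℕ) * f j := Nat.le_mul_of_pos_left _ h4
    omega
  · rw [if_neg h, mem_singleton]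
    exact h1 j h

theorem sum_le_of_mem {n : ℕ} {J : Finset ℕ} {N : ℕ} {f : Fin (n + 1) → ℕ} (hf : f ∈ MF n J N) :
    ∑ j : Fin (n + 1), (j : ℕ) * f j ≤ N := by
  unfold MF at hf
  exact (mem_filter.1 hf).2

theorem eq_zero_of_mem {n : ℕ} {J : Finset ℕ} {N : ℕ} {f : Fin (n + 1) → ℕ} (hf : f ∈ MF n J N)
    (j : Fin (n + 1)) (hj : (j : ℕ) ∉ J) : f j = 0 := by
  unfold MF at hf
  rw [mem_filter, Fintype.mem_piFinset] at hf
  have := hf.1 j
  rw [if_neg hj, mem_singleton] at this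
  exact this

theorem card_MF (n : ℕ) (J : Finset ℕ) (N : ℕ) (hJ : 0 ∉ J) (x : ℝ) (hx0 : 0 < x) (hx1 : x < 1) :
    ((MF n J N).card : ℝ) * x ^ N ≤
      ∏ j ∈ (range (n + 1)).filter (fun j => j ∈ J), (1 - x ^ j)⁻¹ := by
  have h1 : ((MF n J N).card : ℝ) * x ^ N ≤ ∑ f ∈ MF n J N, ∏ j : Fin (n + 1), (x ^ (j : ℕ)) ^ (f j) := by
    rw [← nsmul_eq_mul, ← Finset.sum_const]
    refine Finset.sum_le_sum fun f hf => ?_
    have h2 := sum_le_of_mem hf
    have h3 : ∏ j : Fin (n + 1), (x ^ (j : ℕ)) ^ (f j) = x ^ (∑ j : Fin (n + 1), (j : ℕ) * f j) := by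
      rw [← Finset.prod_pow_eq_pow_sum]
      exact Finset.prod_congr rfl fun j _ => by rw [pow_mul]
    rw [h3]
    exact pow_le_pow_of_le_one hx0.le hx1.le h2
  refine h1.trans ?_
  have h2 : ∑ f ∈ MF n J N, ∏ j : Fin (n + 1), (x ^ (j : ℕ)) ^ (f j) ≤
      ∑ f ∈ Fintype.piFinset (fun j : Fin (n + 1) => if (j : ℕ) ∈ J then range (N + 1) else {0}),
        ∏ j : Fin (n + 1), (x ^ (j : ℕ)) ^ (f j) := by
    apply Finset.sum_le_sum_of_subset_of_nonneg (Finset.filter_subset _ _)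
    intro f _ _
    exact Finset.prod_nonneg fun j _ => by positivity
  refine h2.trans ?_
  rw [← Finset.prod_univ_sum (fun j : Fin (n + 1) => if (j : ℕ) ∈ J then range (N + 1) else {0})
    (fun (j : Fin (n + 1)) (m : ℕ) => (x ^ (j : ℕ)) ^ m)]
  rw [Finset.prod_filter, ← Fin.prod_univ_eq_prod_range
    (fun j : ℕ => if j ∈ J then (1 - x ^ j)⁻¹ else 1) (n + 1)]
  refine Finset.prod_le_prod (fun j _ => ?_) (fun j _ => ?_)
  · exact Finset.sum_nonneg fun _ _ => by positivity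
  · by_cases h : (j : ℕ) ∈ J
    · rw [if_pos h, if_pos h]
      have hj : (j : ℕ) ≠ 0 := by
        intro h5; rw [h5] at h; exact hJ h
      exact geom_le _ (by positivity) (pow_lt_one₀ hx0.le hx1 hj) _
    · rw [if_neg h, if_neg h]
      simp

/-- logarithmic form -/
theorem log_card_MF (n : ℕ) (J : Finset ℕ) (N : ℕ) (hJ : 0 ∉ J) (t : ℝ) (ht : 0 < t)
    (hpos : 0 < (MF n J N).card) :
    Real.log ((MF n J N).card : ℝ) ≤ N * t +
      ∑ j ∈ (range (n + 1)).filter (fun j => j ∈ J), -Real.log (1 - Real.exp (-t) ^ j) := by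
  set x := Real.exp (-t) with hx
  have hx0 : 0 < x := Real.exp_pos _
  have hx1 : x < 1 := by rw [hx, Real.exp_lt_one_iff]; linarith
  have h := card_MF n J N hJ x hx0 hx1
  have hc : (0 : ℝ) < ((MF n J N).card : ℝ) := by exact_mod_cast hpos
  have h1 := Real.log_le_log (by positivity) h
  rw [Real.log_mul hc.ne' (by positivity), Real.log_pow, hx, Real.log_exp, ← hx,
    Real.log_prod (fun j hj => by
      have hjJ := (mem_filter.1 hj).2
      have hj0 : j ≠ 0 := by intro h5; rw [h5] at hjJ; exact hJ hjJ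
      have := pow_lt_one₀ hx0.le hx1 hj0
      exact (inv_pos.2 (by linarith)).ne')] at h1
  have h2 : ∑ j ∈ (range (n + 1)).filter (fun j => j ∈ J), Real.log (1 - x ^ j)⁻¹ =
      ∑ j ∈ (range (n + 1)).filter (fun j => j ∈ J), -Real.log (1 - x ^ j) :=
    Finset.sum_congr rfl fun j _ => Real.log_inv _
  rw [h2] at h1
  linarith

/-- `∑_{j=1}^n -log(1 - x^j) ≤ 2 x/(1-x)` -/
theorem log_sum_le (x : ℝ) (h0 : 0 < x) (h1 : x < 1) (n : ℕ) :
    ∑ j ∈ range n, -Real.log (1 - x ^ (j + 1)) ≤ 2 * (x / (1 - x)) := by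
  have hx : 0 < 1 - x := by linarith
  have hS : HasSum (fun m : ℕ => ∑ i ∈ range n, (x ^ (i + 1)) ^ (m + 1) / ((m : ℝ) + 1))
      (∑ i ∈ range n, -Real.log (1 - x ^ (i + 1))) := by
    apply hasSum_sum
    intro i _
    apply Real.hasSum_pow_div_log_of_abs_lt_one
    rw [abs_of_pos (by positivity)]
    exact pow_lt_one₀ h0.le h1 (by omega)
  have hZ : HasSum (fun m : ℕ => 1 / ((m : ℝ) + 1) ^ 2 * (x / (1 - x)))
      (Real.pi ^ 2 / 6 * (x / (1 - x))) := by
    apply HasSum.mul_right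
    have := (hasSum_nat_add_iff' 1).2 hasSum_zeta_two
    simpa using this
  have hterm : ∀ m : ℕ, ∑ i ∈ range n, (x ^ (i + 1)) ^ (m + 1) / ((m : ℝ) + 1) ≤
      1 / ((m : ℝ) + 1) ^ 2 * (x / (1 - x)) := by
    intro m
    set q : ℝ := x ^ (m + 1) with hq
    have hq0 : 0 < q := by positivity
    have hq1 : q < 1 := pow_lt_one₀ h0.le h1 (by omega)
    have hm : (0 : ℝ) < (m : ℝ) + 1 := by positivity
    have e1 : ∑ i ∈ range n, (x ^ (i + 1)) ^ (m + 1) / ((m : ℝ) + 1) =
        q * (∑ i ∈ range n, q ^ i) / ((m : ℝ) + 1) := by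
      rw [← Finset.sum_div, Finset.mul_sum]
      congr 1
      refine Finset.sum_congr rfl fun i _ => ?_
      rw [hq, ← pow_mul, ← pow_mul, ← pow_add]
      congr 1
      ring
    rw [e1]
    have h2 := geom_le q hq0.le hq1 n
    have h3 : q * (∑ i ∈ range n, q ^ i) ≤ q * (1 - q)⁻¹ :=
      mul_le_mul_of_nonneg_left h2 hq0.le
    have h4 : q * (1 - q)⁻¹ ≤ x / (1 - x) / ((m : ℝ) + 1) := by
      rw [← div_eq_mul_inv, div_div, div_le_div_iff₀ (by linarith) (by positivity)]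
      have h5 := geom_sum_mul_neg x (m + 1)
      have h6 : ((m : ℝ) + 1) * x ^ m ≤ ∑ i ∈ range (m + 1), x ^ i := by
        have h7 : ∑ i ∈ range (m + 1), x ^ m ≤ ∑ i ∈ range (m + 1), x ^ i :=
          Finset.sum_le_sum fun i hi =>
            pow_le_pow_of_le_one h0.le h1.le (by have := mem_range.1 hi; omega)
        rw [Finset.sum_const, card_range, nsmul_eq_mul] at h7
        push_cast at h7
        exact h7
      have h8 : 1 - q = (∑ i ∈ range (m + 1), x ^ i) * (1 - x) := by rw [h5]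
      rw [h8]
      have h9 : q = x * x ^ m := by rw [hq, pow_succ]; ring
      rw [h9]
      have h10 : ((m : ℝ) + 1) * x ^ m * (1 - x) ≤
          (∑ i ∈ range (m + 1), x ^ i) * (1 - x) := mul_le_mul_of_nonneg_right h6 hx.le
      nlinarith [mul_le_mul_of_nonneg_left h10 h0.le]
    calc q * (∑ i ∈ range n, q ^ i) / ((m : ℝ) + 1)
        ≤ (x / (1 - x) / ((m : ℝ) + 1)) / ((m : ℝ) + 1) :=
          div_le_div_of_nonneg_right (h3.trans h4) hm.le
      _ = 1 / ((m : ℝ) + 1) ^ 2 * (x / (1 - x)) := by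
          field_simp
  have h2 := hasSum_le hterm hS hZ
  refine h2.trans ?_
  have hpi : Real.pi ^ 2 / 6 ≤ 2 := by
    have := Real.pi_lt_d2
    have := Real.pi_pos
    nlinarith
  exact mul_le_mul_of_nonneg_right hpi (by positivity)

theorem ratio_le (t : ℝ) (ht : 0 < t) : Real.exp (-t) / (1 - Real.exp (-t)) ≤ 1 / t := by
  have hx1 : Real.exp (-t) < 1 := by rw [Real.exp_lt_one_iff]; linarith
  have h1x : 0 < 1 - Real.exp (-t) := by linarith
  rw [div_le_div_iff₀ h1x ht]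
  have h3 : t + 1 ≤ Real.exp t := Real.add_one_le_exp t
  have h4 : Real.exp (-t) * Real.exp t = 1 := by rw [← Real.exp_add]; simp
  have h5 : 0 < Real.exp (-t) := Real.exp_pos _
  nlinarith

/-- all parts allowed: `log` of the number is at most `N t + 2 / t` -/
theorem log_card_full (n : ℕ) (J : Finset ℕ) (N : ℕ) (hJ : 0 ∉ J) (t : ℝ) (ht : 0 < t)
    (hpos : 0 < (MF n J N).card) :
    Real.log ((MF n J N).card : ℝ) ≤ N * t + 2 / t := by
  refine (log_card_MF n J N hJ t ht hpos).trans ?_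
  set x := Real.exp (-t) with hx
  have hx0 : 0 < x := Real.exp_pos _
  have hx1 : x < 1 := by rw [hx, Real.exp_lt_one_iff]; linarith
  have h1 : ∑ j ∈ (range (n + 1)).filter (fun j => j ∈ J), -Real.log (1 - x ^ j) ≤
      ∑ j ∈ (range (n + 1)).filter (fun j => j ≠ 0), -Real.log (1 - x ^ j) := by
    apply Finset.sum_le_sum_of_subset_of_nonneg
    · intro j hj
      rw [mem_filter] at hj ⊢
      refine ⟨hj.1, ?_⟩
      rintro rfl
      exact hJ hj.2
    · intro j hj _
      have hj0 := (mem_filter.1 hj).2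
      have h2 := pow_lt_one₀ hx0.le hx1 hj0
      have h3 : 0 < x ^ j := by positivity
      have := Real.log_nonpos (by linarith : 0 ≤ 1 - x ^ j) (by linarith)
      linarith
  have h2 : ∑ j ∈ (range (n + 1)).filter (fun j => j ≠ 0), -Real.log (1 - x ^ j) =
      ∑ j ∈ range n, -Real.log (1 - x ^ (j + 1)) := by
    rw [Finset.sum_filter, Finset.sum_range_succ']
    simp
  have h3 := log_sum_le x hx0 hx1 n
  have h4 := ratio_le t ht
  have h5 : 2 * (x / (1 - x)) ≤ 2 / t := by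
    have : 2 / t = 2 * (1 / t) := by ring
    rw [this]
    exact mul_le_mul_of_nonneg_left h4 (by norm_num)
  linarith

/-- only parts larger than `b`: the sum of logarithms is small -/
theorem log_card_tail (n b : ℕ) (N : ℕ) (t : ℝ) (ht : 0 < t) (hb : 0 < b)
    (hpos : 0 < (MF n (Ioc b n) N).card) :
    Real.log ((MF n (Ioc b n) N).card : ℝ) ≤ N * t +
      Real.exp (-(t * b)) / (1 - Real.exp (-(t * b))) * (1 / t) := by
  have hJ : 0 ∉ Ioc b n := by simp
  refine (log_card_MF n (Ioc b n) N hJ t ht hpos).trans ?_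
  set x := Real.exp (-t) with hx
  have hx0 : 0 < x := Real.exp_pos _
  have hx1 : x < 1 := by rw [hx, Real.exp_lt_one_iff]; linarith
  have hxb : x ^ b = Real.exp (-(t * b)) := by
    rw [hx, ← Real.exp_nat_mul]; ring_nf
  have hxb1 : x ^ b < 1 := pow_lt_one₀ hx0.le hx1 hb.ne'
  have hxb0 : 0 < x ^ b := by positivity
  have h1 : ∀ j ∈ (range (n + 1)).filter (fun j => j ∈ Ioc b n),
      -Real.log (1 - x ^ j) ≤ x ^ j / (1 - x ^ b) := by
    intro j hj
    have hj2 := (mem_filter.1 hj).2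
    rw [mem_Ioc] at hj2
    have h2 : x ^ j ≤ x ^ b := pow_le_pow_of_le_one hx0.le hx1.le (by omega)
    have h3 : 0 < x ^ j := by positivity
    have h4 : 0 < 1 - x ^ j := by linarith
    rw [← Real.log_inv]
    have h5 := Real.log_le_sub_one_of_pos (inv_pos.2 h4)
    refine h5.trans ?_
    have h6 : (1 - x ^ j)⁻¹ - 1 = x ^ j / (1 - x ^ j) := by field_simp; ring
    rw [h6]
    exact div_le_div_of_nonneg_left h3.le (by linarith) (by linarith)
  have h2 : ∑ j ∈ (range (n + 1)).filter (fun j => j ∈ Ioc b n), -Real.log (1 - x ^ j) ≤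
      x ^ b / (1 - x ^ b) * (x / (1 - x)) := by
    refine (Finset.sum_le_sum h1).trans ?_
    rw [← Finset.sum_div]
    have h3 : ∑ j ∈ (range (n + 1)).filter (fun j => j ∈ Ioc b n), x ^ j ≤ x ^ b * (x / (1 - x)) := by
      have h4 : (range (n + 1)).filter (fun j => j ∈ Ioc b n) ⊆ (range n).image (fun i => b + (i + 1)) := by
        intro j hj
        rw [mem_filter, mem_Ioc, mem_range] at hj
        rw [mem_image]
        exact ⟨j - b - 1, by rw [mem_range]; omega, by omega⟩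
      refine (Finset.sum_le_sum_of_subset_of_nonneg h4 (fun _ _ _ => by positivity)).trans ?_
      rw [Finset.sum_image (fun i _ j _ h => by
        have : b + (i + 1) = b + (j + 1) := h
        omega)]
      have h5 : ∀ i ∈ range n, x ^ (b + (i + 1)) = x ^ b * x * x ^ i := by
        intro i _; ring
      rw [Finset.sum_congr rfl h5, ← Finset.mul_sum]
      have h6 := geom_le x hx0.le hx1 n
      calc x ^ b * x * ∑ i ∈ range n, x ^ i ≤ x ^ b * x * (1 - x)⁻¹ :=
            mul_le_mul_of_nonneg_left h6 (by positivity)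
        _ = x ^ b * (x / (1 - x)) := by rw [div_eq_mul_inv]; ring
    have h4 := div_le_div_of_nonneg_right h3 (show (0 : ℝ) ≤ 1 - x ^ b by linarith)
    refine h4.trans (le_of_eq ?_)
    ring
  have h3 := ratio_le t ht
  rw [← hx] at h3
  have h4 : 0 ≤ x ^ b / (1 - x ^ b) := div_nonneg hxb0.le (by linarith)
  have h5 := mul_le_mul_of_nonneg_left h3 h4
  rw [hxb] at h5 h2
  linarith

end Pool.Agent.Q265.PartCount
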