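import Mathlib
import Pool.Agent.Q265.PartCount

/-! # Products of factorials over the partitions of `n`: an upper bound for the number of values -/

set_option autoImplicit false

namespace Pool.Agent.Q265.MultiVal

open Finset Pool.Agent.Q265.PartCount

/-- the product of the factorials -/
def vv (s : Multiset ℕ) : ℕ := (s.map Nat.factorial).prod

/-- the exponent of `q` in `m!` -/
def vq (q m : ℕ) : ℕ := (m.factorial).factorization q

theorem single_le (s : Multiset ℕ) (m : ℕ) (hm : m ∈ s) : m ≤ s.sum :=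
  Multiset.single_le_sum (fun _ _ => Nat.zero_le _) m hm

theorem vv_ne_zero (s : Multiset ℕ) : vv s ≠ 0 := by
  unfold vv
  apply Multiset.prod_ne_zero
  intro h
  rw [Multiset.mem_map] at h
  obtain ⟨m, _, hm⟩ := h
  exact m.factorial_ne_zero hm

theorem fact_vv (q : ℕ) (s : Multiset ℕ) : (vv s).factorization q = (s.map (vq q)).sum := by
  induction s using Multiset.induction with
  | empty => simp [vv]
  | cons m s ih =>
    have h1 : vv (m ::ₘ s) = m.factorial * vv s := by unfold vv; simp
    rw [h1, Nat.factorization_mul m.factorial_ne_zero (vv_ne_zero s), Finsupp.add_apply, ih,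
      Multiset.map_cons, Multiset.sum_cons]
    rfl

theorem vq_le (q m : ℕ) : vq q m ≤ m := by
  by_cases hq : q.Prime
  · have : Fact q.Prime := ⟨hq⟩
    have h1 := sub_one_mul_padicValNat_factorial (p := q) m
    unfold vq
    rw [Nat.factorization_def _ hq]
    have h2 := hq.two_le
    have h3 : padicValNat q m.factorial ≤ (q - 1) * padicValNat q m.factorial :=
      Nat.le_mul_of_pos_left _ (by omega)
    omega
  · unfold vq
    rw [Nat.factorization_eq_zero_of_not_prime _ hq]
    exact Nat.zero_le _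

theorem vq_eq_div (q m : ℕ) (hq : q.Prime) (h : m < q * q) : vq q m = m / q := by
  have : Fact q.Prime := ⟨hq⟩
  unfold vq
  rw [Nat.factorization_def _ hq, padicValNat_factorial (b := 2)]
  · simp
  · rcases Nat.eq_zero_or_pos m with h0 | h0
    · subst h0; simp
    · exact Nat.log_lt_of_lt_pow (by omega) (by rw [sq]; exact h)

/-- sums over a multiset through multiplicities -/
theorem sum_count (s : Multiset ℕ) (N : ℕ) (hs : ∀ m ∈ s, m < N) (g : ℕ → ℕ) :
    (s.map g).sum = ∑ j ∈ range N, s.count j * g j := by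
  rw [Finset.sum_multiset_map_count]
  have h1 : ∀ m, s.count m • g m = s.count m * g m := fun m => by simp
  rw [Finset.sum_congr rfl (fun m _ => h1 m)]
  apply Finset.sum_subset
  · intro m hm
    rw [Multiset.mem_toFinset] at hm
    exact mem_range.2 (hs m hm)
  · intro m _ hm
    rw [Multiset.mem_toFinset] at hm
    rw [Multiset.count_eq_zero_of_notMem hm, zero_mul]

theorem sum_count_map (s : Multiset ℕ) (N : ℕ) (h : ℕ → ℕ) (hs : ∀ m ∈ s, h m < N) (g : ℕ → ℕ) :
    (s.map (fun m => g (h m))).sum = ∑ j ∈ range N, (s.map h).count j * g j := by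
  have h1 : (s.map (fun m => g (h m))) = (s.map h).map g := by rw [Multiset.map_map]; rfl
  rw [h1]
  apply sum_count
  intro m hm
  rw [Multiset.mem_map] at hm
  obtain ⟨a, ha, rfl⟩ := hm
  exact hs a ha

section code

variable (n a b L : ℕ)

def cA (s : Multiset ℕ) : Fin (n + 1) → ℕ :=
  fun q => if (q : ℕ).Prime ∧ (q : ℕ) ≤ a then (vv s).factorization q else 0

def cB (s : Multiset ℕ) : Fin (n + 1) → ℕ := fun j => if b < (j : ℕ) then s.count (j : ℕ) else 0

def cC (s : Multiset ℕ) : Fin (n + 1) → ℕ :=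
  fun j => if 1 ≤ (j : ℕ) then ((s.filter (fun m => m ≤ b)).map (fun m => m / L)).count (j : ℕ) else 0

def cD (s : Multiset ℕ) : Fin (n + 1) → ℕ :=
  fun p => if (p : ℕ).Prime ∧ a < (p : ℕ) ∧ (p : ℕ) ≤ b then
    ((s.filter (fun m => m ≤ b)).map (fun m => m / (p : ℕ) - (L * (m / L)) / (p : ℕ))).sum else 0

theorem low_sum (s : Multiset ℕ) (hs : ∀ m ∈ s, m ≤ n) (q : ℕ) (hq : q.Prime) (hqn : q ≤ n)
    (haq : a < q) (hb : b < (a + 1) * (a + 1)) :
    (s.map (vq q)).sum = ∑ j : Fin (n + 1), cB n b s j * vq q j +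
      (∑ j : Fin (n + 1), cC n b L s j * ((L * (j : ℕ)) / q) + cD n a b L s ⟨q, by omega⟩) := by
  have h1 : s = s.filter (fun m => m ≤ b) + s.filter (fun m => ¬ m ≤ b) :=
    (Multiset.filter_add_not _ s).symm
  conv_lhs => rw [h1]
  rw [Multiset.map_add, Multiset.sum_add, add_comm]
  congr 1
  · rw [sum_count _ (n + 1) (fun m hm => by
      have := hs m (Multiset.mem_of_mem_filter hm)
      omega), ← Fin.sum_univ_eq_sum_range
      (fun j => (s.filter (fun m => ¬ m ≤ b)).count j * vq q j) (n + 1)]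
    refine Finset.sum_congr rfl fun j _ => ?_
    unfold cB
    by_cases h : b < (j : ℕ)
    · rw [if_pos h, Multiset.count_filter_of_pos (by omega)]
    · rw [if_neg h, Multiset.count_filter_of_neg (by omega)]
  · have h2 : ((s.filter (fun m => m ≤ b)).map (vq q)) =
        ((s.filter (fun m => m ≤ b)).map (fun m => (L * (m / L)) / q + (m / q - (L * (m / L)) / q))) := by
      apply Multiset.map_congr rfl
      intro m hm
      have hmb : m ≤ b := (Multiset.mem_filter.1 hm).2
      have h3 : m < q * q := by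
        have : (a + 1) * (a + 1) ≤ q * q := Nat.mul_le_mul (by omega) (by omega)
        omega
      rw [vq_eq_div q m hq h3]
      have h4 : (L * (m / L)) / q ≤ m / q := Nat.div_le_div_right (Nat.mul_div_le m L)
      omega
    rw [h2, Multiset.sum_map_add]
    congr 1
    · rw [sum_count_map _ (n + 1) (fun m => m / L) (fun m hm => by
        have h3 := hs m (Multiset.mem_of_mem_filter hm)
        have h4 := Nat.div_le_self m L
        show m / L < n + 1
        omega) (fun j => (L * j) / q), ← Fin.sum_univ_eq_sum_range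
        (fun j => ((s.filter (fun m => m ≤ b)).map (fun m => m / L)).count j * ((L * j) / q)) (n + 1)]
      refine Finset.sum_congr rfl fun j _ => ?_
      unfold cC
      by_cases h : 1 ≤ (j : ℕ)
      · rw [if_pos h]
      · have h0 : (j : ℕ) = 0 := by omega
        rw [if_neg h, h0]
        simp
    · unfold cD
      by_cases h : q ≤ b
      · rw [if_pos ⟨hq, haq, h⟩]
      · rw [if_neg (fun h' => h h'.2.2)]
        apply Multiset.sum_eq_zero
        intro y hy
        rw [Multiset.mem_map] at hy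
        obtain ⟨m, hm, rfl⟩ := hy
        have hmb : m ≤ b := (Multiset.mem_filter.1 hm).2
        rw [Nat.div_eq_of_lt (by omega : m < q)]
        exact Nat.zero_sub _

theorem determined (s s' : Multiset ℕ) (hs : ∀ m ∈ s, m ≤ n) (hs' : ∀ m ∈ s', m ≤ n)
    (hb : b < (a + 1) * (a + 1)) (hA : cA n a s = cA n a s') (hB : cB n b s = cB n b s')
    (hC : cC n b L s = cC n b L s') (hD : cD n a b L s = cD n a b L s') : vv s = vv s' := by
  apply Nat.eq_of_factorization_eq (vv_ne_zero s) (vv_ne_zero s')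
  intro q
  by_cases hq : q.Prime
  · by_cases hqn : q ≤ n
    · by_cases hqa : q ≤ a
      · have h1 := congrFun hA ⟨q, by omega⟩
        unfold cA at h1
        simp only [hq, hqa, and_self, if_true] at h1
        exact h1
      · rw [fact_vv, fact_vv, low_sum n a b L s hs q hq hqn (by omega) hb,
          low_sum n a b L s' hs' q hq hqn (by omega) hb, hB, hC, hD]
    · have h0 : ∀ s : Multiset ℕ, (∀ m ∈ s, m ≤ n) → (vv s).factorization q = 0 := by
        intro s hs
        rw [fact_vv]
        apply Multiset.sum_eq_zero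
        intro y hy
        rw [Multiset.mem_map] at hy
        obtain ⟨m, hm, rfl⟩ := hy
        unfold vq
        exact Nat.factorization_factorial_eq_zero_of_lt (by have := hs m hm; omega)
      rw [h0 s hs, h0 s' hs']
  · rw [Nat.factorization_eq_zero_of_not_prime _ hq, Nat.factorization_eq_zero_of_not_prime _ hq]

/-- the bound for the last component -/
def Dl (c : Fin (n + 1) → ℕ) (p : ℕ) : ℕ :=
  ∑ j : Fin (n + 1), c j * ((L * (j : ℕ) + (L - 1)) / p - (L * (j : ℕ)) / p)

def SA : Finset (Fin (n + 1) → ℕ) :=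
  Fintype.piFinset (fun q : Fin (n + 1) => if (q : ℕ).Prime ∧ (q : ℕ) ≤ a then range (n + 1) else {0})

def JC : Finset ℕ := (Icc 1 n).filter (fun j => L * j ≤ b)

def SD (c : Fin (n + 1) → ℕ) : Finset (Fin (n + 1) → ℕ) :=
  Fintype.piFinset (fun p : Fin (n + 1) => if (p : ℕ).Prime ∧ a < (p : ℕ) ∧ (p : ℕ) ≤ b then
    range (Dl n L c p + 1) else {0})

theorem cA_mem (s : Multiset ℕ) (hs : s.sum = n) : cA n a s ∈ SA n a := by
  unfold SA
  rw [Fintype.mem_piFinset]
  intro q
  unfold cA
  by_cases h : (q : ℕ).Prime ∧ (q : ℕ) ≤ a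
  · rw [if_pos h, if_pos h, mem_range, fact_vv]
    have h1 : (s.map (vq q)).sum ≤ (s.map (fun m => m)).sum :=
      Multiset.sum_map_le_sum_map _ _ (fun m _ => vq_le q m)
    rw [Multiset.map_id', hs] at h1
    omega
  · rw [if_neg h, if_neg h, mem_singleton]

theorem cB_mem (s : Multiset ℕ) (hs : s.sum = n) : cB n b s ∈ MF n (Ioc b n) n := by
  apply mem_MF (by simp)
  · intro j hj
    unfold cB
    rw [if_neg]
    intro h
    apply hj
    rw [mem_Ioc]
    exact ⟨h, by omega⟩
  · have h1 : ∀ m ∈ s, m < n + 1 := fun m hm => by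
      have h00 := single_le s m hm
      omega
    have h2 := sum_count s (n + 1) h1 (fun m => m)
    rw [Multiset.map_id', hs, ← Fin.sum_univ_eq_sum_range (fun j => s.count j * j) (n + 1)] at h2
    refine le_trans ?_ (le_of_eq h2.symm)
    refine Finset.sum_le_sum fun j _ => ?_
    unfold cB
    split_ifs
    · rw [mul_comm]
    · simp

theorem cC_mem (hL : 1 ≤ L) (s : Multiset ℕ) (hs : s.sum = n) :
    cC n b L s ∈ MF n (JC n b L) (n / L) := by
  have hmem : ∀ m ∈ s, m ≤ n := fun m hm => by
    have h00 := single_le s m hm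
    omega
  apply mem_MF (by simp [JC])
  · intro j hj
    unfold cC
    by_cases h : 1 ≤ (j : ℕ)
    · rw [if_pos h, Multiset.count_eq_zero]
      intro h1
      apply hj
      rw [Multiset.mem_map] at h1
      obtain ⟨m, hm, hm'⟩ := h1
      unfold JC
      rw [mem_filter, mem_Icc]
      refine ⟨⟨h, by omega⟩, ?_⟩
      rw [← hm']
      have h2 := Nat.mul_div_le m L
      have h3 := (Multiset.mem_filter.1 hm).2
      omega
    · rw [if_neg h]
  · rw [Nat.le_div_iff_mul_le (by omega)]
    have h1 : ∑ j : Fin (n + 1), (j : ℕ) * cC n b L s j =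
        ((s.filter (fun m => m ≤ b)).map (fun m => m / L)).sum := by
      have h2 := sum_count_map (s.filter (fun m => m ≤ b)) (n + 1) (fun m => m / L) (fun m hm => by
        have h3 := hmem m (Multiset.mem_of_mem_filter hm)
        have h4 := Nat.div_le_self m L
        show m / L < n + 1
        omega) (fun j => j)
      rw [h2, ← Fin.sum_univ_eq_sum_range
        (fun j => ((s.filter (fun m => m ≤ b)).map (fun m => m / L)).count j * j) (n + 1)]
      refine Finset.sum_congr rfl fun j _ => ?_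
      unfold cC
      split_ifs with h
      · rw [mul_comm]
      · have h0 : (j : ℕ) = 0 := by omega
        rw [h0]; simp
    rw [h1, ← Multiset.sum_map_mul_right]
    have h2 : ((s.filter (fun m => m ≤ b)).map (fun m => m / L * L)).sum ≤
        ((s.filter (fun m => m ≤ b)).map (fun m => m)).sum :=
      Multiset.sum_map_le_sum_map _ _ (fun m _ => Nat.div_mul_le_self m L)
    refine h2.trans ?_
    rw [Multiset.map_id']
    have h3 := congrArg Multiset.sum (Multiset.filter_add_not (fun m => m ≤ b) s)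
    rw [Multiset.sum_add, hs] at h3
    omega

theorem cD_mem (hL : 1 ≤ L) (hLa : L ≤ a) (s : Multiset ℕ) (hs : s.sum = n) :
    cD n a b L s ∈ SD n a b L (cC n b L s) := by
  have hmem : ∀ m ∈ s, m ≤ n := fun m hm => by
    have h00 := single_le s m hm
    omega
  unfold SD
  rw [Fintype.mem_piFinset]
  intro p
  unfold cD
  by_cases h : (p : ℕ).Prime ∧ a < (p : ℕ) ∧ (p : ℕ) ≤ b
  · rw [if_pos h, if_pos h, mem_range, Nat.lt_succ_iff]
    have h1 : ((s.filter (fun m => m ≤ b)).map (fun m => m / (p : ℕ) - (L * (m / L)) / (p : ℕ))).sum ≤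
        ((s.filter (fun m => m ≤ b)).map (fun m => (L * (m / L) + (L - 1)) / (p : ℕ) -
          (L * (m / L)) / (p : ℕ))).sum := by
      apply Multiset.sum_map_le_sum_map
      intro m _
      apply Nat.sub_le_sub_right
      apply Nat.div_le_div_right
      have h2 := Nat.div_add_mod m L
      have h3 := Nat.mod_lt m (show 0 < L by omega)
      omega
    refine h1.trans (le_of_eq ?_)
    rw [sum_count_map (s.filter (fun m => m ≤ b)) (n + 1) (fun m => m / L) (fun m hm => by
        have h3 := hmem m (Multiset.mem_of_mem_filter hm)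
        have h4 := Nat.div_le_self m L
        show m / L < n + 1
        omega) (fun j => (L * j + (L - 1)) / (p : ℕ) - (L * j) / (p : ℕ)),
      ← Fin.sum_univ_eq_sum_range
        (fun j => ((s.filter (fun m => m ≤ b)).map (fun m => m / L)).count j *
          ((L * j + (L - 1)) / (p : ℕ) - (L * j) / (p : ℕ))) (n + 1)]
    unfold Dl
    refine Finset.sum_congr rfl fun j _ => ?_
    unfold cC
    split_ifs with h2
    · rfl
    · have h0 : (j : ℕ) = 0 := by omega
      rw [h0]
      have h3 : (L * 0 + (L - 1)) / (p : ℕ) = 0 := Nat.div_eq_of_lt (by omega)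
      rw [h3]
      simp
  · rw [if_neg h, if_neg h, mem_singleton]

/-- the primes `p` with `a < p ≤ b` -/
def PR : Finset ℕ := (range (n + 1)).filter (fun p => p.Prime ∧ a < p ∧ p ≤ b)

theorem delta_sum (u w : ℕ) (huw : u ≤ w) (hw : w < (a + 1) * (a + 1)) :
    ∑ p ∈ PR n a b, (w / p - u / p) ≤ ((Ioc u w).filter (fun m => a < m)).card := by
  have h1 : ∀ p ∈ PR n a b, w / p - u / p = ∑ m ∈ Ioc u w, if p ∣ m then 1 else 0 := by
    intro p _
    have e1 := Nat.Ioc_filter_dvd_card_eq_div w p
    have e2 := Nat.Ioc_filter_dvd_card_eq_div u p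
    have e3 : (Ioc 0 w).filter (fun m => p ∣ m) =
        (Ioc 0 u).filter (fun m => p ∣ m) ∪ (Ioc u w).filter (fun m => p ∣ m) := by
      ext m
      simp only [mem_filter, mem_union, mem_Ioc]
      constructor
      · rintro ⟨⟨h1, h2⟩, h3⟩
        rcases Nat.lt_or_ge u m with h | h
        · right; exact ⟨⟨h, h2⟩, h3⟩
        · left; exact ⟨⟨h1, h⟩, h3⟩
      · rintro (⟨⟨h1, h2⟩, h3⟩ | ⟨⟨h1, h2⟩, h3⟩)
        · exact ⟨⟨h1, by omega⟩, h3⟩
        · exact ⟨⟨by omega, h2⟩, h3⟩
    have e4 : Disjoint ((Ioc 0 u).filter (fun m => p ∣ m)) ((Ioc u w).filter (fun m => p ∣ m)) := by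
      rw [Finset.disjoint_left]
      intro m hm hm'
      simp only [mem_filter, mem_Ioc] at hm hm'
      omega
    rw [e3, Finset.card_union_of_disjoint e4, e2] at e1
    rw [← Finset.sum_filter, Finset.sum_const, smul_eq_mul, mul_one]
    omega
  rw [Finset.sum_congr rfl h1, Finset.sum_comm, Finset.card_filter]
  refine Finset.sum_le_sum fun m hm => ?_
  rw [← Finset.sum_filter, Finset.sum_const, smul_eq_mul, mul_one]
  rw [mem_Ioc] at hm
  by_cases hne : ((PR n a b).filter (fun p => p ∣ m)).Nonempty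
  · obtain ⟨p, hp⟩ := hne
    have hp' := hp
    unfold PR at hp'
    rw [mem_filter, mem_filter] at hp'
    have hpm := Nat.le_of_dvd (by omega) hp'.2
    rw [if_pos (by omega : a < m)]
    rw [Finset.card_le_one]
    intro p1 h1 p2 h2
    unfold PR at h1 h2
    rw [mem_filter, mem_filter] at h1 h2
    by_contra hcon
    have h3 : Nat.Coprime p1 p2 := (Nat.coprime_primes h1.1.2.1 h2.1.2.1).2 hcon
    have h4 := Nat.le_of_dvd (by omega) (h3.mul_dvd_of_dvd_of_dvd h1.2 h2.2)
    have h5 : (a + 1) * (a + 1) ≤ p1 * p2 := Nat.mul_le_mul (by omega) (by omega)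
    omega
  · rw [Finset.not_nonempty_iff_eq_empty] at hne
    rw [hne]
    simp

theorem Dl_sum (h2L : 2 * L ≤ a) (hb : b + L < (a + 1) * (a + 1)) (c : Fin (n + 1) → ℕ)
    (hc : c ∈ MF n (JC n b L) (n / L)) : a * ∑ p ∈ PR n a b, Dl n L c p ≤ 2 * L * n := by
  have h1 : ∑ p ∈ PR n a b, Dl n L c p = ∑ j : Fin (n + 1),
      c j * ∑ p ∈ PR n a b, ((L * (j : ℕ) + (L - 1)) / p - (L * (j : ℕ)) / p) := by
    unfold Dl
    rw [Finset.sum_comm]
    exact Finset.sum_congr rfl fun j _ => by rw [Finset.mul_sum]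
  rw [h1, Finset.mul_sum]
  have h2 : ∀ j : Fin (n + 1), a * (c j * ∑ p ∈ PR n a b,
      ((L * (j : ℕ) + (L - 1)) / p - (L * (j : ℕ)) / p)) ≤ 2 * L * L * ((j : ℕ) * c j) := by
    intro j
    by_cases hj : (j : ℕ) ∈ JC n b L
    · have hj' := hj
      unfold JC at hj'
      rw [mem_filter] at hj'
      have h3 := delta_sum n a b (L * (j : ℕ)) (L * (j : ℕ) + (L - 1)) (by omega) (by omega)
      have h4 : a * ((Ioc (L * (j : ℕ)) (L * (j : ℕ) + (L - 1))).filter (fun m => a < m)).card ≤
          2 * L * L * (j : ℕ) := by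
        rcases Nat.lt_or_ge a (L * (j : ℕ) + L) with h | h
        · have h5 : ((Ioc (L * (j : ℕ)) (L * (j : ℕ) + (L - 1))).filter (fun m => a < m)).card ≤ L := by
            refine (Finset.card_filter_le _ _).trans ?_
            rw [Nat.card_Ioc]; omega
          have h6 : a ≤ 2 * (L * (j : ℕ)) := by omega
          calc a * ((Ioc (L * (j : ℕ)) (L * (j : ℕ) + (L - 1))).filter (fun m => a < m)).card ≤
              (2 * (L * (j : ℕ))) * L := Nat.mul_le_mul h6 h5
            _ = 2 * L * L * (j : ℕ) := by ring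
        · have h5 : (Ioc (L * (j : ℕ)) (L * (j : ℕ) + (L - 1))).filter (fun m => a < m) = ∅ := by
            rw [Finset.filter_eq_empty_iff]
            intro m hm
            rw [mem_Ioc] at hm
            omega
          rw [h5]; simp
      calc a * (c j * ∑ p ∈ PR n a b, ((L * (j : ℕ) + (L - 1)) / p - (L * (j : ℕ)) / p))
          = c j * (a * ∑ p ∈ PR n a b, ((L * (j : ℕ) + (L - 1)) / p - (L * (j : ℕ)) / p)) := by ring
        _ ≤ c j * (2 * L * L * (j : ℕ)) :=
          Nat.mul_le_mul_left _ ((Nat.mul_le_mul_left _ h3).trans h4)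
        _ = _ := by ring
    · rw [eq_zero_of_mem hc j hj]
      simp
  refine (Finset.sum_le_sum fun j _ => h2 j).trans ?_
  rw [← Finset.mul_sum]
  have h3 := sum_le_of_mem hc
  calc 2 * L * L * ∑ j : Fin (n + 1), (j : ℕ) * c j ≤ 2 * L * L * (n / L) :=
        Nat.mul_le_mul_left _ h3
    _ = 2 * L * (L * (n / L)) := by ring
    _ ≤ 2 * L * n := Nat.mul_le_mul_left _ (Nat.mul_div_le n L)

/-! ### The cardinality bound -/

theorem card_SA (han : a ≤ n) : ((SA n a).card : ℝ) ≤ ((n : ℝ) + 1) ^ (Nat.primeCounting a) := by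
  have h1 : (SA n a).card = (n + 1) ^ (Nat.primeCounting a) := by
    unfold SA
    rw [Fintype.card_piFinset]
    have h2 : ∀ q : Fin (n + 1), (if (q : ℕ).Prime ∧ (q : ℕ) ≤ a then range (n + 1) else {0}).card =
        if (q : ℕ).Prime ∧ (q : ℕ) ≤ a then n + 1 else 1 := by
      intro q; split_ifs <;> simp
    rw [Finset.prod_congr rfl (fun q _ => h2 q), Fin.prod_univ_eq_prod_range
      (fun q => if q.Prime ∧ q ≤ a then n + 1 else 1) (n + 1), ← Finset.prod_filter,
      Finset.prod_const]
    congr 1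
    rw [Nat.primeCounting, Nat.primeCounting', Nat.count_eq_card_filter_range]
    congr 1
    ext q
    simp only [mem_filter, mem_range]
    constructor
    · rintro ⟨h3, h4, h5⟩; exact ⟨by omega, h4⟩
    · rintro ⟨h3, h4⟩; exact ⟨by omega, h4, by omega⟩
  rw [h1]
  push_cast
  exact le_rfl

theorem card_SD (h2L : 2 * L ≤ a) (ha : 1 ≤ a) (hb : b + L < (a + 1) * (a + 1)) (A : ℝ) (hA : 1 ≤ A)
    (c : Fin (n + 1) → ℕ) (hc : c ∈ MF n (JC n b L) (n / L)) :
    ((SD n a b L c).card : ℝ) ≤ Real.exp ((Nat.primeCounting b : ℝ) * Real.log A +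
      ((Nat.primeCounting b : ℝ) + 2 * L * n / a) / A) := by
  have hA0 : 0 < A := by linarith
  have ha0 : (0 : ℝ) < a := by exact_mod_cast ha
  have h1 : (SD n a b L c).card = ∏ p ∈ PR n a b, (Dl n L c p + 1) := by
    unfold SD
    rw [Fintype.card_piFinset]
    have h2 : ∀ p : Fin (n + 1), (if (p : ℕ).Prime ∧ a < (p : ℕ) ∧ (p : ℕ) ≤ b then
        range (Dl n L c p + 1) else {0}).card =
        if (p : ℕ).Prime ∧ a < (p : ℕ) ∧ (p : ℕ) ≤ b then Dl n L c p + 1 else 1 := by
      intro q; split_ifs <;> simp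
    rw [Finset.prod_congr rfl (fun q _ => h2 q), Fin.prod_univ_eq_prod_range
      (fun q => if q.Prime ∧ a < q ∧ q ≤ b then Dl n L c q + 1 else 1) (n + 1),
      ← Finset.prod_filter]
    rfl
  rw [h1]
  push_cast
  have h2 : ∀ p ∈ PR n a b, ((Dl n L c p : ℝ) + 1) ≤
      Real.exp (Real.log A + ((Dl n L c p : ℝ) + 1) / A) := by
    intro p _
    rw [Real.exp_add, Real.exp_log hA0]
    have h3 := Real.add_one_le_exp (((Dl n L c p : ℝ) + 1) / A)
    have h4 : ((Dl n L c p : ℝ) + 1) / A ≤ Real.exp (((Dl n L c p : ℝ) + 1) / A) := by linarith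
    rw [div_le_iff₀ hA0] at h4
    linarith
  refine (Finset.prod_le_prod (fun _ _ => by positivity) h2).trans ?_
  rw [← Real.exp_sum]
  apply Real.exp_le_exp.2
  rw [Finset.sum_add_distrib, Finset.sum_const, nsmul_eq_mul, ← Finset.sum_div]
  have hcard : ((PR n a b).card : ℝ) ≤ (Nat.primeCounting b : ℝ) := by
    rw [Nat.primeCounting, Nat.primeCounting', Nat.count_eq_card_filter_range]
    have : PR n a b ⊆ (range (b + 1)).filter Nat.Prime := by
      intro p hp
      unfold PR at hp
      rw [mem_filter] at hp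
      rw [mem_filter, mem_range]
      exact ⟨by omega, hp.2.1⟩
    exact_mod_cast Finset.card_le_card this
  have hD := Dl_sum n a b L h2L hb c hc
  have hD' : (∑ p ∈ PR n a b, (Dl n L c p : ℝ)) ≤ 2 * L * n / a := by
    rw [le_div_iff₀ ha0]
    have : ((a * ∑ p ∈ PR n a b, Dl n L c p : ℕ) : ℝ) ≤ ((2 * L * n : ℕ) : ℝ) := by exact_mod_cast hD
    push_cast at this
    linarith
  have h3 : ∑ p ∈ PR n a b, ((Dl n L c p : ℝ) + 1) ≤ (Nat.primeCounting b : ℝ) + 2 * L * n / a := by
    rw [Finset.sum_add_distrib, Finset.sum_const, nsmul_eq_mul, mul_one]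
    linarith
  have h4 := div_le_div_of_nonneg_right h3 hA0.le
  have h5 := mul_le_mul_of_nonneg_right hcard (Real.log_nonneg hA)
  linarith

/-- the number of values -/
def cnt (n : ℕ) : ℕ :=
  ((univ : Finset n.Partition).image (fun p => (p.parts.map Nat.factorial).prod)).card

theorem cnt_le (hL : 1 ≤ L) (h2L : 2 * L ≤ a) (han : a ≤ n) (hb : b + L < (a + 1) * (a + 1))
    (A : ℝ) (hA : 1 ≤ A) :
    (cnt n : ℝ) ≤ ((n : ℝ) + 1) ^ (Nat.primeCounting a) * ((MF n (Ioc b n) n).card : ℝ) *
      (((MF n (JC n b L) (n / L)).card : ℝ) *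
        Real.exp ((Nat.primeCounting b : ℝ) * Real.log A +
        ((Nat.primeCounting b : ℝ) + 2 * L * n / a) / A)) := by
  -- the code
  let F : n.Partition → (Fin (n + 1) → ℕ) × (Fin (n + 1) → ℕ) × (Σ _ : (Fin (n + 1) → ℕ), (Fin (n + 1) → ℕ)) :=
    fun p => (cA n a p.parts, cB n b p.parts, ⟨cC n b L p.parts, cD n a b L p.parts⟩)
  have hmem : ∀ p : n.Partition, ∀ m ∈ p.parts, m ≤ n := fun p m hm => by
    have h0 := single_le p.parts m hm
    rw [p.parts_sum] at h0
    exact h0
  have h1 : cnt n ≤ ((univ : Finset n.Partition).image F).card := by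
    unfold cnt
    have hsurj : ∀ y ∈ (univ : Finset n.Partition).image (fun p => (p.parts.map Nat.factorial).prod),
        ∃ z ∈ (univ : Finset n.Partition).image F, ∃ p : n.Partition, F p = z ∧ vv p.parts = y := by
      intro y hy
      rw [mem_image] at hy
      obtain ⟨p, _, hp⟩ := hy
      exact ⟨F p, mem_image_of_mem _ (mem_univ p), p, rfl, hp⟩
    choose! g hg1 hg2 using hsurj
    apply Finset.card_le_card_of_injOn g (fun y hy => hg1 y hy)
    intro y hy y' hy' hyy
    obtain ⟨p, hp1, hp2⟩ := hg2 y hy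
    obtain ⟨p', hp1', hp2'⟩ := hg2 y' hy'
    rw [← hp2, ← hp2']
    have hF : F p = F p' := by rw [hp1, hp1', hyy]
    simp only [F, Prod.mk.injEq, Sigma.mk.injEq, heq_eq_eq] at hF
    exact determined n a b L p.parts p'.parts (hmem p) (hmem p') (by omega) hF.1 hF.2.1
      hF.2.2.1 hF.2.2.2
  have h2 : (univ : Finset n.Partition).image F ⊆
      (SA n a) ×ˢ ((MF n (Ioc b n) n) ×ˢ ((MF n (JC n b L) (n / L)).sigma (fun c => SD n a b L c))) := by
    intro z hz
    rw [mem_image] at hz
    obtain ⟨p, _, rfl⟩ := hz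
    rw [mem_product, mem_product, mem_sigma]
    exact ⟨cA_mem n a _ p.parts_sum, cB_mem n b _ p.parts_sum, cC_mem n b L hL _ p.parts_sum,
      cD_mem n a b L hL (by omega) _ p.parts_sum⟩
  have h3 := h1.trans (Finset.card_le_card h2)
  rw [Finset.card_product, Finset.card_product, Finset.card_sigma] at h3
  have h4 : (cnt n : ℝ) ≤ ((SA n a).card : ℝ) * (((MF n (Ioc b n) n).card : ℝ) *
      ∑ c ∈ MF n (JC n b L) (n / L), ((SD n a b L c).card : ℝ)) := by exact_mod_cast h3
  refine h4.trans ?_
  rw [mul_assoc]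
  apply mul_le_mul (card_SA n a han) _ (by positivity) (by positivity)
  apply mul_le_mul_of_nonneg_left _ (Nat.cast_nonneg _)
  rw [← nsmul_eq_mul, ← Finset.sum_const]
  exact Finset.sum_le_sum fun c hc => card_SD n a b L h2L (by omega) hb A hA c hc

end code

end Pool.Agent.Q265.MultiVal
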