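import Pool.Agent.Q106.PK.Stm

/-!
# Project PK (helper106), job CAT: concatenation of two ominoes (helper265)
-/

set_option autoImplicit false

namespace Pool.Agent.Q106.PK

theorem cat_max (P : Finset (ℤ × ℤ)) (hP : P.Nonempty) :
    ∃ z ∈ P, ∀ p ∈ P, p.1 < z.1 ∨ (p.1 = z.1 ∧ p.2 ≤ z.2) := by
  obtain ⟨x, hx, hmax⟩ := P.exists_max_image Prod.fst hP
  obtain ⟨z, hz, hmax2⟩ := (P.filter (fun p => p.1 = x.1)).exists_max_image Prod.snd
    ⟨x, Finset.mem_filter.2 ⟨hx, rfl⟩⟩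
  rw [Finset.mem_filter] at hz
  refine ⟨z, hz.1, fun p hp => ?_⟩
  have h1 := hmax p hp
  by_cases h2 : p.1 = x.1
  · right
    exact ⟨h2.trans hz.2.symm, hmax2 p (Finset.mem_filter.2 ⟨hp, h2⟩)⟩
  · left
    rw [hz.2]
    exact lt_of_le_of_ne h1 h2

theorem t_CAT (h : S_UNI) : S_CAT := by
  intro m n P Q hP hPA hQ hQA
  obtain ⟨z, hz, hmax⟩ := cat_max P hP.2.1
  have hlx : ∀ a ∈ P, ∀ b ∈ tr (z.1, z.2 + 1) Q, lx a b := by
    intro a ha b hb
    rw [mem_tr] at hb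
    have h1 := hmax a ha
    have h2 := hQA.2 _ hb
    simp only [Prod.fst_sub, Prod.snd_sub] at h2
    unfold lx
    omega
  have hdisj : Disjoint P (tr (z.1, z.2 + 1) Q) := by
    rw [Finset.disjoint_left]
    intro a ha hb
    have h1 := hlx a ha a hb
    unfold lx at h1
    omega
  refine ⟨(z.1, z.2 + 1), ⟨?_, ?_⟩, ⟨?_, ?_⟩, hlx⟩
  · rw [Finset.card_union_of_disjoint hdisj, card_tr, hP.1, hQ.1]
  · refine h P _ z (z.1, z.2 + 1) hP.2 (conn_tr _ hQ.2) hz ?_ ?_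
    · rw [mem_tr, sub_self]
      exact hQA.1
    · left
      exact ⟨rfl, Or.inr rfl⟩
  · exact Finset.mem_union_left _ hPA.1
  · intro p hp
    rcases Finset.mem_union.1 hp with hp | hp
    · exact hPA.2 p hp
    · have h1 := hlx _ hPA.1 p hp
      unfold lx at h1
      simp only at h1
      omega

end Pool.Agent.Q106.PK
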