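import Pool.Agent.Q88.PS.Stm

/-!
# Project PS (helper88), job HFIN
-/

set_option autoImplicit false

open MeasureTheory Set Filter Topology
open scoped ENNReal NNReal

namespace Pool.Agent.Q265.PSHFIN

open Pool.Agent.Q88.PS

theorem psw_dist (w : List D) (x y : E2) : dist (psw w x) (psw w y) = (1 / 8) ^ w.length * dist x y := by
  induction w with
  | nil => simp [psw]
  | cons d w ih =>
    simp only [psw, psi, List.length_cons]
    rw [dist_smul₀, dist_add_right, ih]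
    norm_num
    ring

theorem cover (h : S_base) (n : ℕ) : KK ⊆ ⋃ w : {w // w ∈ wds n}, psw w.1 '' KK := by
  induction n with
  | zero =>
    intro x hx
    rw [mem_iUnion]
    exact ⟨⟨[], by simp [wds]⟩, x, hx, rfl⟩
  | succ n ih =>
    intro x hx
    rw [h.2.2.1] at hx
    obtain ⟨d, hd⟩ := mem_iUnion.1 hx
    obtain ⟨y, hy, rfl⟩ := hd
    obtain ⟨⟨w, hw⟩, hw2⟩ := mem_iUnion.1 (ih hy)
    obtain ⟨z, hz, rfl⟩ := hw2
    rw [mem_iUnion]
    refine ⟨⟨d :: w, ?_⟩, z, hz, rfl⟩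
    rw [mem_wds] at hw ⊢
    rw [List.length_cons, hw]

theorem dist_KK (h : S_base) {x y : E2} (hx : x ∈ KK) (hy : y ∈ KK) : dist x y ≤ 1 := by
  obtain ⟨hx0, hx1⟩ := h.2.2.2 x hx
  obtain ⟨hy0, hy1⟩ := h.2.2.2 y hy
  rw [EuclideanSpace.dist_eq, Fin.sum_univ_two, Real.dist_eq, Real.dist_eq, sq_abs, sq_abs]
  rw [Real.sqrt_le_one]
  have a1 : -(3 / 7) ≤ x 0 - y 0 := by linarith [hx0.1, hy0.2]
  have a2 : x 0 - y 0 ≤ 3 / 7 := by linarith [hx0.2, hy0.1]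
  have b1 : -(5 / 7) ≤ x 1 - y 1 := by linarith [hx1.1, hy1.2]
  have b2 : x 1 - y 1 ≤ 5 / 7 := by linarith [hx1.2, hy1.1]
  nlinarith

theorem diam_le (h : S_base) (n : ℕ) (w : List D) (hw : w.length = n) :
    Metric.ediam (psw w '' KK) ≤ (8 : ℝ≥0∞)⁻¹ ^ n := by
  refine Metric.ediam_le ?_
  rintro _ ⟨x, hx, rfl⟩ _ ⟨y, hy, rfl⟩
  rw [edist_dist, psw_dist, hw]
  have h1 : (1 / 8 : ℝ) ^ n * dist x y ≤ (1 / 8 : ℝ) ^ n := by
    have h2 := dist_KK h hx hy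
    have h3 : (0 : ℝ) ≤ (1 / 8 : ℝ) ^ n := by positivity
    nlinarith
  refine (ENNReal.ofReal_le_ofReal h1).trans (le_of_eq ?_)
  rw [ENNReal.ofReal_pow (by norm_num), one_div, ENNReal.ofReal_inv_of_pos (by norm_num)]
  norm_num

theorem pw (n : ℕ) : ((8 : ℝ≥0∞)⁻¹ ^ n) ^ (4 / 3 : ℝ) = (16 : ℝ≥0∞)⁻¹ ^ n := by
  have h1 : (8 : ℝ≥0∞)⁻¹ ^ (4 / 3 : ℝ) = (16 : ℝ≥0∞)⁻¹ := by
    rw [ENNReal.inv_rpow]
    apply congrArg
    have h2 : (8 : ℝ≥0∞) = 2 ^ (3 : ℝ) := by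
      rw [show (3 : ℝ) = ((3 : ℕ) : ℝ) by norm_num, ENNReal.rpow_natCast]
      norm_num
    rw [h2, ← ENNReal.rpow_mul, show (3 : ℝ) * (4 / 3) = ((4 : ℕ) : ℝ) by norm_num, ENNReal.rpow_natCast]
    norm_num
  rw [← ENNReal.rpow_natCast, ← ENNReal.rpow_mul, mul_comm, ENNReal.rpow_mul, h1, ENNReal.rpow_natCast]

theorem hfin (h : S_base) : S_hfin := by
  unfold S_hfin
  have h8 : Tendsto (fun n : ℕ => (8 : ℝ≥0∞)⁻¹ ^ n) atTop (𝓝 0) := by
    apply ENNReal.tendsto_pow_atTop_nhds_zero_of_lt_one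
    rw [ENNReal.inv_lt_one]
    norm_num
  have h1 := MeasureTheory.Measure.hausdorffMeasure_le_liminf_sum (X := E2) (4 / 3 : ℝ) KK
    (l := (atTop : Filter ℕ)) (ι := fun n => {w // w ∈ wds n}) (fun n => (8 : ℝ≥0∞)⁻¹ ^ n) h8
    (fun n w => psw w.1 '' KK) (Eventually.of_forall fun n w => diam_le h n w.1 (mem_wds.1 w.2))
    (Eventually.of_forall fun n => cover h n)
  refine h1.trans ?_
  refine Filter.liminf_le_of_le (by isBoundedDefault) fun b hb => ?_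
  obtain ⟨n, hn⟩ := hb.exists
  refine hn.trans ?_
  calc ∑ i : {w // w ∈ wds n}, Metric.ediam (psw i.1 '' KK) ^ (4 / 3 : ℝ)
      ≤ ∑ _i : {w // w ∈ wds n}, (16 : ℝ≥0∞)⁻¹ ^ n := by
        refine Finset.sum_le_sum fun i _ => ?_
        rw [← pw n]
        exact ENNReal.rpow_le_rpow (diam_le h n i.1 (mem_wds.1 i.2)) (by norm_num)
    _ = 1 := by
        rw [Finset.sum_const, Finset.card_univ, Fintype.card_coe, card_wds, nsmul_eq_mul]
        push_cast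
        rw [← mul_pow, ENNReal.mul_inv_cancel (by norm_num) (by norm_num), one_pow]

end Pool.Agent.Q265.PSHFIN
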