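import Pool.Agent.Q88.PS.Stm

/-!
# Project PS (helper88), job PRE
-/

set_option autoImplicit false

open MeasureTheory Set Filter Topology
open scoped ENNReal NNReal

namespace Pool.Agent.Q265.PSPRE

open Pool.Agent.Q88.PS

theorem term (n : ℕ) : ENNReal.ofReal (2 * ((1 / 8 : ℝ) ^ n / 16)) ^ (1 / 3 : ℝ) = 2⁻¹ * (2 : ℝ≥0∞)⁻¹ ^ n := by
  have h1 : (2 : ℝ) * ((1 / 8 : ℝ) ^ n / 16) = ((1 / 2 : ℝ) ^ (n + 1)) ^ 3 := by
    rw [← pow_mul, mul_comm (n + 1) 3, pow_mul]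
    norm_num
    ring
  have h2 : ENNReal.ofReal ((1 / 2 : ℝ) ^ (n + 1)) = (2 : ℝ≥0∞)⁻¹ ^ (n + 1) := by
    rw [ENNReal.ofReal_pow (by norm_num), one_div, ENNReal.ofReal_inv_of_pos (by norm_num)]
    norm_num
  rw [h1, ENNReal.ofReal_pow (by positivity), h2, ← ENNReal.rpow_natCast, ← ENNReal.rpow_mul]
  norm_num
  rw [pow_succ, mul_comm]

theorem pre (h : S_sepw) : S_pre := by
  classical
  intro F m A hAC hA δ hδ
  have hx : ∀ w : List D, ∃ (x : E2) (y : E2), w ∈ A → (x ∈ psw w '' KK ∧ y ∈ F ∧ dist x y < (1 / 8 : ℝ) ^ w.length / 32) := by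
    intro w
    by_cases hw : w ∈ A
    · obtain ⟨x, hx1, hx2⟩ := (hA w hw).2
      obtain ⟨y, hy1, hy2⟩ := Metric.mem_closure_iff.1 hx1 ((1 / 8 : ℝ) ^ w.length / 32) (by positivity)
      exact ⟨x, y, fun _ => ⟨hx2, hy1, hy2⟩⟩
    · exact ⟨0, 0, fun h => absurd h hw⟩
  choose x y hxy using hx
  have hdist : ∀ w ∈ A, ∀ w' ∈ A, w ≠ w' →
      (1 / 8 : ℝ) ^ w.length / 16 + (1 / 8 : ℝ) ^ w'.length / 16 < dist (y w) (y w') := by
    intro w hw w' hw' hne
    obtain ⟨⟨k, hk, hkx⟩, _, hd⟩ := hxy w hw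
    obtain ⟨⟨k', hk', hkx'⟩, _, hd'⟩ := hxy w' hw'
    have h1 := h w w' (fun hp => hne (hAC w hw w' hw' hp)) (fun hp => hne (hAC w' hw' w hw hp).symm) k hk k' hk'
    rw [hkx, hkx'] at h1
    obtain ⟨a, ha⟩ : ∃ a : ℝ, a = (1 / 8 : ℝ) ^ w.length := ⟨_, rfl⟩
    obtain ⟨b, hb⟩ : ∃ b : ℝ, b = (1 / 8 : ℝ) ^ w'.length := ⟨_, rfl⟩
    rw [← ha, ← hb] at h1 ⊢
    rw [← ha] at hd
    rw [← hb] at hd'
    have ha0 : 0 < a := by rw [ha]; positivity
    have hb0 : 0 < b := by rw [hb]; positivity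
    have h2 : a ≤ max a b := le_max_left _ _
    have h3 : b ≤ max a b := le_max_right _ _
    have h4 : dist (x w) (x w') ≤ dist (x w) (y w) + dist (y w) (y w') + dist (y w') (x w') :=
      dist_triangle4 _ _ _ _
    rw [dist_comm (y w') (x w')] at h4
    linarith
  have hinj : Set.InjOn (fun w => (y w, (1 / 8 : ℝ) ^ w.length / 16)) (A : Set (List D)) := by
    intro w hw w' hw' he
    by_contra hne
    have h1 := hdist w hw w' hw' hne
    have h2 : y w = y w' := congrArg Prod.fst he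
    rw [h2, dist_self] at h1
    have h3 : (0 : ℝ) < (1 / 8 : ℝ) ^ w.length / 16 := by positivity
    have h4 : (0 : ℝ) < (1 / 8 : ℝ) ^ w'.length / 16 := by positivity
    linarith
  have hpack : IsPacking δ F (A.image fun w => (y w, (1 / 8 : ℝ) ^ w.length / 16)) := by
    constructor
    · intro p hp
      obtain ⟨w, hw, rfl⟩ := Finset.mem_image.1 hp
      refine ⟨(hxy w hw).2.1, by positivity, ?_⟩
      have h1 : (1 / 8 : ℝ) ^ w.length ≤ (1 / 8 : ℝ) ^ m :=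
        pow_le_pow_of_le_one (by norm_num) (by norm_num) (hA w hw).1
      have h2 : (0 : ℝ) < (1 / 8 : ℝ) ^ w.length := by positivity
      show (1 / 8 : ℝ) ^ w.length / 16 ≤ δ
      linarith
    · intro p hp q hq hne
      obtain ⟨w, hw, rfl⟩ := Finset.mem_image.1 hp
      obtain ⟨w', hw', rfl⟩ := Finset.mem_image.1 hq
      have hne' : w ≠ w' := fun e => hne (by rw [e])
      exact Metric.closedBall_disjoint_closedBall (hdist w hw w' hw' hne')
  have hle : ∑ p ∈ A.image (fun w => (y w, (1 / 8 : ℝ) ^ w.length / 16)), ENNReal.ofReal (2 * p.2) ^ (1 / 3 : ℝ) ≤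
      packSup (1 / 3) δ F :=
    le_iSup₂ (f := fun (I : Finset (E2 × ℝ)) (_ : IsPacking δ F I) => ∑ p ∈ I, ENNReal.ofReal (2 * p.2) ^ (1 / 3 : ℝ))
      _ hpack
  refine le_trans (le_of_eq ?_) hle
  rw [Finset.sum_image hinj, Finset.mul_sum]
  refine Finset.sum_congr rfl fun w _ => ?_
  exact (term w.length).symm

end Pool.Agent.Q265.PSPRE
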