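import Mathlib

set_option autoImplicit false

/-! # Right closed repeats: a string with many right closed repeats starting at few positions -/

namespace Pool.Agent.Q265.Rcr

/-- the string `s[i..j]` occurs in `s` (of length `n`) at position `p` -/
def OccursAt (n : ℕ) (s : ℕ → ℕ) (i j p : ℕ) : Prop :=
  1 ≤ p ∧ p + (j - i) ≤ n ∧ ∀ q ≤ j - i, s (p + q) = s (i + q)

/-- `s[i..j]` is a right closed repeat of `s` -/
def IsRcr (n : ℕ) (s : ℕ → ℕ) (i j : ℕ) : Prop :=
  1 ≤ i ∧ i ≤ j ∧ j ≤ n ∧ ∃ i', i < i' ∧ OccursAt n s i j i' ∧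
    (∀ p, i < p → p < i' → ¬ OccursAt n s i j p) ∧
    (i' + (j - i) = n ∨ s (j + 1) ≠ s (i' + (j - i) + 1))

/-- base `b` digit -/
def dig (b l m : ℕ) : ℕ := m / b ^ l % b

/-- half of the block length -/
def hl (R t : ℕ) : ℕ := t * R

/-- position of offset `y` in block `m` -/
def pos (R t m y : ℕ) : ℕ := m * (2 * hl R t) + y + 1

/-- the letter at offset `y` of block `m` -/
def letr (R t m y : ℕ) : ℕ :=
  if y < hl R t then y + 2
  else if dig (R + 1) ((y - hl R t) / R) m = (y - hl R t) % R + 1 then 1 else 0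

/-- the string -/
def str (R t x : ℕ) : ℕ := letr R t ((x - 1) / (2 * hl R t)) ((x - 1) % (2 * hl R t))

variable {R t : ℕ}

theorem str_pos (m y : ℕ) (hy : y < 2 * hl R t) : str R t (pos R t m y) = letr R t m y := by
  unfold str pos
  have h0 : 0 < 2 * hl R t := by omega
  have h1 : (m * (2 * hl R t) + y + 1 - 1) / (2 * hl R t) = m := by
    rw [Nat.add_sub_cancel, mul_comm, Nat.mul_add_div h0, Nat.div_eq_of_lt hy, add_zero]
  have h2 : (m * (2 * hl R t) + y + 1 - 1) % (2 * hl R t) = y := by
    rw [Nat.add_sub_cancel, mul_comm, Nat.mul_add_mod, Nat.mod_eq_of_lt hy]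
  rw [h1, h2]

theorem dig_add_lt {b m d j l : ℕ} (hb : 0 < b) (hl : l < j) : dig b l (m + d * b ^ j) = dig b l m := by
  unfold dig
  obtain ⟨k, rfl⟩ := Nat.exists_eq_add_of_lt hl
  have h : d * b ^ (l + k + 1) = b ^ l * (b * (d * b ^ k)) := by ring
  rw [h, Nat.add_mul_div_left _ _ (pow_pos hb l), Nat.add_mul_mod_self_left]

theorem dig_add_eq {b m d j : ℕ} (hb : 0 < b) (hd : d < b) (h0 : dig b j m = 0) :
    dig b j (m + d * b ^ j) = d := by
  unfold dig at h0 ⊢
  rw [mul_comm d, Nat.add_mul_div_left _ _ (pow_pos hb j), Nat.add_mod, h0, zero_add, Nat.mod_mod,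
    Nat.mod_eq_of_lt hd]

theorem lt_of_dig {b m d j t : ℕ} (hb : 0 < b) (hd : d < b) (h0 : dig b j m = 0) (hm : m < b ^ t)
    (hj : j < t) : m + d * b ^ j < b ^ t := by
  unfold dig at h0
  obtain ⟨k, rfl⟩ := Nat.exists_eq_add_of_lt hj
  have h1 : m / b ^ j < b ^ (k + 1) := by
    rw [Nat.div_lt_iff_lt_mul (pow_pos hb j)]
    calc m < b ^ (j + k + 1) := hm
      _ = b ^ (k + 1) * b ^ j := by ring
  obtain ⟨c, hc⟩ := Nat.dvd_of_mod_eq_zero h0
  have h2 : c < b ^ k := by
    rw [hc, pow_succ, mul_comm (b ^ k)] at h1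
    exact lt_of_mul_lt_mul_left h1 (Nat.zero_le b)
  have h3 : (m + d * b ^ j) / b ^ j < b ^ (k + 1) := by
    rw [mul_comm d, Nat.add_mul_div_left _ _ (pow_pos hb j), hc]
    calc b * c + d < b * c + b := by omega
      _ = b * (c + 1) := by ring
      _ ≤ b * b ^ k := Nat.mul_le_mul_left _ h2
      _ = b ^ (k + 1) := by ring
  rw [Nat.div_lt_iff_lt_mul (pow_pos hb j)] at h3
  calc m + d * b ^ j < b ^ (k + 1) * b ^ j := h3
    _ = b ^ (j + k + 1) := by ring

theorem mod_eq_of_dig {b : ℕ} {m m' j : ℕ} (h : ∀ l < j, dig b l m' = dig b l m) :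
    m' % b ^ j = m % b ^ j := by
  induction j with
  | zero => simp [Nat.mod_one]
  | succ j ih =>
    rw [Nat.mod_pow_succ, Nat.mod_pow_succ, ih fun l hl => h l (by omega)]
    have := h j (by omega)
    unfold dig at this
    rw [this]

/-- the main lemma: every body position of a block with a vanishing digit is the start of `R`
right closed repeats -/
theorem isRcr {m j o d : ℕ} (hm : m < (R + 1) ^ t) (hj : j < t) (hR : 0 < R)
    (hlow : ∀ l < j, dig (R + 1) l m ≠ 0) (h0 : dig (R + 1) j m = 0) (ho : o < hl R t)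
    (hd : d < R) :
    IsRcr ((2 * hl R t) * (R + 1) ^ t) (str R t) (pos R t m o)
      (pos R t m o + (hl R t - o + j * R + d) - 1) := by
  have hb : 0 < R + 1 := by omega
  have hjR : j * R + R ≤ hl R t := by
    unfold hl
    calc j * R + R = (j + 1) * R := by ring
      _ ≤ t * R := Nat.mul_le_mul_right R hj
  obtain ⟨m', hm'⟩ : ∃ m', m' = m + (d + 1) * (R + 1) ^ j := ⟨_, rfl⟩
  have hm'N : m' < (R + 1) ^ t := by
    rw [hm']
    exact lt_of_dig hb (by omega) h0 hm hj
  have hmm' : m < m' := by
    rw [hm']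
    have := pow_pos hb j
    have : 0 < (d + 1) * (R + 1) ^ j := by positivity
    omega
  have hji : pos R t m o + (hl R t - o + j * R + d) - 1 - pos R t m o =
      hl R t - o + j * R + d - 1 := by omega
  have hblock : ∀ m'' y, m'' < (R + 1) ^ t → y < 2 * hl R t →
      pos R t m'' y ≤ (2 * hl R t) * (R + 1) ^ t := by
    intro m'' y h1 h2
    unfold pos
    calc m'' * (2 * hl R t) + y + 1 ≤ (m'' + 1) * (2 * hl R t) := by
          rw [add_mul, one_mul]; omega
      _ ≤ (R + 1) ^ t * (2 * hl R t) := Nat.mul_le_mul_right _ h1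
      _ = _ := by ring
  have hshift : ∀ m'' y q, pos R t m'' y + q = pos R t m'' (y + q) := by
    intro m'' y q
    unfold pos
    ring
  -- digits of `m'`
  have dlow : ∀ l < j, dig (R + 1) l m' = dig (R + 1) l m := by
    intro l hl
    rw [hm']
    exact dig_add_lt hb hl
  have dj : dig (R + 1) j m' = d + 1 := by
    rw [hm']
    exact dig_add_eq hb (by omega) h0
  -- equality of letters
  have heq : ∀ y, y < hl R t + j * R + d → letr R t m' y = letr R t m y := by
    intro y hy
    unfold letr
    split_ifs with h1 h2 h3 h4 <;> try rfl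
    · exfalso
      apply h3
      rcases lt_or_ge ((y - hl R t) / R) j with h5 | h5
      · rw [← dlow _ h5]
        exact h2
      · have h6 : (y - hl R t) / R = j := by
          refine le_antisymm ?_ h5
          have h7 : y - hl R t < (j + 1) * R := by
            rw [add_mul, one_mul]; omega
          exact Nat.lt_succ_iff.1 ((Nat.div_lt_iff_lt_mul hR).2 h7)
        rw [h6, dj] at h2
        have h8 := Nat.div_add_mod (y - hl R t) R
        rw [h6, mul_comm] at h8
        omega
    · exfalso
      apply h2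
      rcases lt_or_ge ((y - hl R t) / R) j with h5 | h5
      · rw [dlow _ h5]
        exact h4
      · have h6 : (y - hl R t) / R = j := by
          refine le_antisymm ?_ h5
          have h7 : y - hl R t < (j + 1) * R := by
            rw [add_mul, one_mul]; omega
          exact Nat.lt_succ_iff.1 ((Nat.div_lt_iff_lt_mul hR).2 h7)
        rw [h6, h0] at h4
        omega
  have hne : letr R t m' (hl R t + j * R + d) ≠ letr R t m (hl R t + j * R + d) := by
    unfold letr
    have h1 : ¬ (hl R t + j * R + d < hl R t) := by omega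
    have h2 : hl R t + j * R + d - hl R t = d + R * j := by rw [mul_comm R]; omega
    have h3 : (d + R * j) / R = j := by
      rw [Nat.add_mul_div_left _ _ hR, Nat.div_eq_of_lt hd, zero_add]
    have h4 : (d + R * j) % R = d := by
      rw [Nat.add_mul_mod_self_left, Nat.mod_eq_of_lt hd]
    rw [if_neg h1, if_neg h1, h2, h3, h4, dj, h0, if_pos rfl, if_neg (by omega)]
    norm_num
  refine ⟨by unfold pos; omega, by omega, ?_, pos R t m' o, ?_, ?_, ?_, ?_⟩
  · have h1 : pos R t m o + (hl R t - o + j * R + d) - 1 ≤ pos R t m (hl R t + j * R + d) := by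
      unfold pos; omega
    exact h1.trans (hblock m _ hm (by omega))
  · unfold pos
    have : m * (2 * hl R t) < m' * (2 * hl R t) := Nat.mul_lt_mul_of_pos_right hmm' (by omega)
    omega
  · refine ⟨by unfold pos; omega, ?_, ?_⟩
    · rw [hji, hshift]
      exact hblock m' _ hm'N (by omega)
    · intro q hq
      rw [hji] at hq
      rw [hshift, hshift, str_pos _ _ (by omega), str_pos _ _ (by omega)]
      exact heq _ (by omega)
  · intro p hp1 hp2 hocc
    obtain ⟨hp0, -, hocc⟩ := hocc
    rw [hji] at hocc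
    obtain ⟨m'', hm''⟩ : ∃ m'', m'' = (p - 1) / (2 * hl R t) := ⟨_, rfl⟩
    obtain ⟨y, hy⟩ : ∃ y, y = (p - 1) % (2 * hl R t) := ⟨_, rfl⟩
    have hyB : y < 2 * hl R t := by rw [hy]; exact Nat.mod_lt _ (by omega)
    have hpp : p = pos R t m'' y := by
      unfold pos
      have := Nat.div_add_mod (p - 1) (2 * hl R t)
      rw [← hm'', ← hy, mul_comm] at this
      omega
    -- the offset is `o`
    have hyo : y = o := by
      have h1 := hocc 0 (by omega)
      rw [add_zero, add_zero, hpp, str_pos _ _ hyB, str_pos _ _ (by omega)] at h1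
      unfold letr at h1
      rw [if_pos ho] at h1
      split_ifs at h1 <;> omega
    rw [hyo] at hpp
    rw [hpp] at hp1 hp2 hocc
    have hmm1 : m < m'' := by
      by_contra hcon
      push Not at hcon
      have := Nat.mul_le_mul_right (2 * hl R t) hcon
      unfold pos at hp1
      omega
    have hmm2 : m'' < m' := by
      by_contra hcon
      push Not at hcon
      have := Nat.mul_le_mul_right (2 * hl R t) hcon
      unfold pos at hp2
      omega
    have hhead : ∀ z, z < j * R + d →
        (dig (R + 1) (z / R) m'' = z % R + 1 ↔ dig (R + 1) (z / R) m = z % R + 1) := by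
      intro z hz
      have h1 := hocc (hl R t - o + z) (by omega)
      rw [hshift, hshift, str_pos _ _ (by omega), str_pos _ _ (by omega),
        show o + (hl R t - o + z) = hl R t + z by omega] at h1
      unfold letr at h1
      have h2 : ¬ (hl R t + z < hl R t) := by omega
      rw [if_neg h2, if_neg h2, Nat.add_sub_cancel_left] at h1
      by_cases ha : dig (R + 1) (z / R) m'' = z % R + 1
      · by_cases hb' : dig (R + 1) (z / R) m = z % R + 1
        · exact ⟨fun _ => hb', fun _ => ha⟩
        · rw [if_pos ha, if_neg hb'] at h1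
          omega
      · by_cases hb' : dig (R + 1) (z / R) m = z % R + 1
        · rw [if_neg ha, if_pos hb'] at h1
          omega
        · exact ⟨fun h => absurd h ha, fun h => absurd h hb'⟩
    have hcode : ∀ l c, c < R → (c + R * l) / R = l ∧ (c + R * l) % R = c := by
      intro l c hc
      constructor
      · rw [Nat.add_mul_div_left _ _ hR, Nat.div_eq_of_lt hc, zero_add]
      · rw [Nat.add_mul_mod_self_left, Nat.mod_eq_of_lt hc]
    have hA : ∀ l < j, dig (R + 1) l m'' = dig (R + 1) l m := by
      intro l hl'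
      have h1 : dig (R + 1) l m < R + 1 := Nat.mod_lt _ hb
      have h2 := hlow l hl'
      obtain ⟨c, hc⟩ : ∃ c, dig (R + 1) l m = c + 1 := ⟨dig (R + 1) l m - 1, by omega⟩
      obtain ⟨h3, h4⟩ := hcode l c (by omega)
      have h5 : c + R * l < j * R + d := by
        have : (l + 1) * R ≤ j * R := Nat.mul_le_mul_right R hl'
        have e : (l + 1) * R = R * l + R := by ring
        omega
      have h6 := hhead _ h5
      rw [h3, h4] at h6
      rw [h6.2 hc, hc]
    have hB := mod_eq_of_dig hA
    have hdvd : (R + 1) ^ j ∣ m'' - m := (Nat.modEq_iff_dvd' hmm1.le).1 (show m ≡ m'' [MOD _] from hB.symm)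
    obtain ⟨e, he⟩ := hdvd
    have he' : m'' = m + e * (R + 1) ^ j := by
      rw [mul_comm] at he
      omega
    have he0 : 0 < e := by
      rcases Nat.eq_zero_or_pos e with h | h
      · rw [h] at he'
        omega
      · exact h
    have hed : e < d + 1 := by
      by_contra hcon
      push Not at hcon
      have := Nat.mul_le_mul_right ((R + 1) ^ j) hcon
      omega
    have hdj : dig (R + 1) j m'' = e := by
      rw [he']
      exact dig_add_eq hb (by omega) h0
    obtain ⟨c, hc⟩ : ∃ c, e = c + 1 := ⟨e - 1, by omega⟩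
    obtain ⟨h3, h4⟩ := hcode j c (by omega)
    have h5 : c + R * j < j * R + d := by
      rw [mul_comm R]; omega
    have h6 := hhead _ h5
    rw [h3, h4] at h6
    have h7 := h6.1 (by rw [hdj, hc])
    omega
  · right
    rw [hji]
    have e1 : pos R t m o + (hl R t - o + j * R + d) - 1 + 1 = pos R t m (hl R t + j * R + d) := by
      unfold pos; omega
    have e2 : pos R t m' o + (hl R t - o + j * R + d - 1) + 1 = pos R t m' (hl R t + j * R + d) := by
      unfold pos; omega
    rw [e1, e2, str_pos _ _ (by omega), str_pos _ _ (by omega)]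
    exact hne.symm

end Pool.Agent.Q265.Rcr
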