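import Pool.Agent.Q265.Rcr

set_option autoImplicit false

/-! # Counting the right closed repeats -/

namespace Pool.Agent.Q265.Rcr

/-- blocks all of whose digits are nonzero -/
def nz (R t : ℕ) : Finset ℕ := {m ∈ Finset.range ((R + 1) ^ t) | ∀ l < t, dig (R + 1) l m ≠ 0}

/-- blocks with a vanishing digit -/
def bl (R t : ℕ) : Finset ℕ := {m ∈ Finset.range ((R + 1) ^ t) | ∃ l < t, dig (R + 1) l m = 0}

theorem card_nz (R t : ℕ) : (nz R t).card ≤ R ^ t := by
  induction t with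
  | zero =>
    unfold nz
    calc _ ≤ (Finset.range ((R + 1) ^ 0)).card := Finset.card_filter_le _ _
      _ = R ^ 0 := by simp
  | succ t ih =>
    have hb : 0 < R + 1 := by omega
    have h1 : (nz R (t + 1)).card ≤ ((Finset.Icc 1 R) ×ˢ (nz R t)).card := by
      refine Finset.card_le_card_of_injOn (fun m => (m % (R + 1), m / (R + 1))) ?_ ?_
      · intro m hm
        simp only [nz, Finset.coe_filter, Finset.mem_range, Set.mem_ofPred_eq] at hm
        simp only [Finset.coe_product, Set.mem_prod, Finset.mem_coe, Finset.mem_Icc, nz,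
          Finset.mem_filter, Finset.mem_range]
        refine ⟨⟨?_, ?_⟩, ?_, ?_⟩
        · have := hm.2 0 (by omega)
          simp only [dig, pow_zero, Nat.div_one] at this
          omega
        · have := Nat.mod_lt m hb
          omega
        · rw [Nat.div_lt_iff_lt_mul hb]
          calc m < (R + 1) ^ (t + 1) := hm.1
            _ = _ := by ring
        · intro l hl
          have := hm.2 (l + 1) (by omega)
          unfold dig at this ⊢
          rw [Nat.div_div_eq_div_mul, mul_comm, ← pow_succ]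
          exact this
      · intro m _ m' _ h
        simp only [Prod.mk.injEq] at h
        rw [← Nat.div_add_mod m (R + 1), ← Nat.div_add_mod m' (R + 1), h.1, h.2]
    refine h1.trans ?_
    rw [Finset.card_product, Nat.card_Icc, Nat.add_sub_cancel, pow_succ, mul_comm]
    exact Nat.mul_le_mul_right R ih

theorem card_bl (R t : ℕ) : (R + 1) ^ t ≤ R ^ t + (bl R t).card := by
  have h1 : (nz R t).card + (bl R t).card = (R + 1) ^ t := by
    have h := Finset.card_filter_add_card_filter_not (s := Finset.range ((R + 1) ^ t))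
      (fun m => ∀ l < t, dig (R + 1) l m ≠ 0)
    rw [Finset.card_range] at h
    have e : bl R t = Finset.filter (fun m => ¬ ∀ l < t, dig (R + 1) l m ≠ 0)
        (Finset.range ((R + 1) ^ t)) := by
      unfold bl
      refine Finset.filter_congr fun m _ => ?_
      push Not
      rfl
    rw [e]
    exact h
  have := card_nz R t
  omega

/-- the set `P` -/
def PP (R t : ℕ) : Finset ℕ :=
  ((bl R t) ×ˢ (Finset.range (hl R t))).image fun mo => pos R t mo.1 mo.2

theorem pos_inj {R t m o m' o' : ℕ} (ho : o < hl R t) (ho' : o' < hl R t)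
    (h : pos R t m o = pos R t m' o') : m = m' ∧ o = o' := by
  unfold pos at h
  have h1 : m * (2 * hl R t) + o = m' * (2 * hl R t) + o' := by omega
  have h0 : 0 < 2 * hl R t := by omega
  have h2 : m = m' := by
    have e1 : (m * (2 * hl R t) + o) / (2 * hl R t) = m := by
      rw [mul_comm, Nat.mul_add_div h0, Nat.div_eq_of_lt (by omega), add_zero]
    have e2 : (m' * (2 * hl R t) + o') / (2 * hl R t) = m' := by
      rw [mul_comm, Nat.mul_add_div h0, Nat.div_eq_of_lt (by omega), add_zero]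
    rw [← e1, h1, e2]
  subst h2
  exact ⟨rfl, by omega⟩

theorem card_PP (R t : ℕ) : (PP R t).card = (bl R t).card * hl R t := by
  unfold PP
  rw [Finset.card_image_of_injOn, Finset.card_product, Finset.card_range]
  rintro ⟨m, o⟩ hmo ⟨m', o'⟩ hmo' h
  simp only [Finset.coe_product, Set.mem_prod, Finset.mem_coe, Finset.mem_range] at hmo hmo'
  obtain ⟨h1, h2⟩ := pos_inj hmo.2 hmo'.2 h
  exact Prod.ext h1 h2

theorem PP_sub (R t : ℕ) : PP R t ⊆ Finset.Icc 1 ((2 * hl R t) * (R + 1) ^ t) := by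
  intro x hx
  unfold PP at hx
  rw [Finset.mem_image] at hx
  obtain ⟨⟨m, o⟩, hmo, rfl⟩ := hx
  simp only [Finset.mem_product, Finset.mem_range, bl, Finset.mem_filter] at hmo
  obtain ⟨⟨hm, -⟩, ho⟩ := hmo
  rw [Finset.mem_Icc]
  unfold pos
  refine ⟨by omega, ?_⟩
  calc m * (2 * hl R t) + o + 1 ≤ (m + 1) * (2 * hl R t) := by
        rw [add_mul, one_mul]; omega
    _ ≤ (R + 1) ^ t * (2 * hl R t) := Nat.mul_le_mul_right _ hm
    _ = _ := by ring

/-- many right closed repeats start at positions of `P` -/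
theorem count (R t : ℕ) (hR : 0 < R) :
    (PP R t).card * R ≤
      {ij : ℕ × ℕ | ij.1 ∈ PP R t ∧ IsRcr ((2 * hl R t) * (R + 1) ^ t) (str R t) ij.1 ij.2}.ncard := by
  have hex : ∀ m : ℕ, m ∈ bl R t → ∃ j, j < t ∧ (∀ l < j, dig (R + 1) l m ≠ 0) ∧
      dig (R + 1) j m = 0 := by
    intro m hm
    simp only [bl, Finset.mem_filter] at hm
    obtain ⟨-, hm⟩ := hm
    classical
    refine ⟨Nat.find hm, (Nat.find_spec hm).1, ?_, (Nat.find_spec hm).2⟩
    intro l hl' h0
    exact Nat.find_min hm hl' ⟨hl'.trans (Nat.find_spec hm).1, h0⟩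
  choose! jm hjm using hex
  rw [card_PP]
  have hcard : (bl R t).card * hl R t * R =
      (((bl R t) ×ˢ (Finset.range (hl R t))) ×ˢ Finset.range R).card := by
    rw [Finset.card_product, Finset.card_product, Finset.card_range, Finset.card_range]
  rw [hcard]
  have hfin : {ij : ℕ × ℕ | ij.1 ∈ PP R t ∧
      IsRcr ((2 * hl R t) * (R + 1) ^ t) (str R t) ij.1 ij.2}.Finite := by
    refine ((Finset.Icc 1 ((2 * hl R t) * (R + 1) ^ t)) ×ˢ
      (Finset.Icc 1 ((2 * hl R t) * (R + 1) ^ t))).finite_toSet.subset ?_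
    rintro ⟨i, j⟩ ⟨h1, h2⟩
    simp only [Finset.coe_product, Set.mem_prod, Finset.mem_coe, Finset.mem_Icc]
    have := h2.1
    have := h2.2.1
    have := h2.2.2.1
    simp only at *
    omega
  rw [← Set.ncard_coe_finset]
  refine Set.ncard_le_ncard_of_injOn
    (fun x : (ℕ × ℕ) × ℕ => (pos R t x.1.1 x.1.2,
      pos R t x.1.1 x.1.2 + (hl R t - x.1.2 + jm x.1.1 * R + x.2) - 1)) ?_ ?_ hfin
  · rintro ⟨⟨m, o⟩, d⟩ hx
    simp only [Finset.coe_product, Set.mem_prod, Finset.mem_coe, Finset.mem_range] at hx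
    obtain ⟨⟨hm, ho⟩, hd⟩ := hx
    obtain ⟨h1, h2, h3⟩ := hjm m hm
    refine ⟨?_, ?_⟩
    · unfold PP
      rw [Finset.mem_image]
      exact ⟨(m, o), by simp [hm, ho], rfl⟩
    · simp only [bl, Finset.mem_filter, Finset.mem_range] at hm
      exact isRcr hm.1 h1 hR h2 h3 ho hd
  · rintro ⟨⟨m, o⟩, d⟩ hx ⟨⟨m', o'⟩, d'⟩ hx' h
    simp only [Finset.coe_product, Set.mem_prod, Finset.mem_coe, Finset.mem_range] at hx hx'
    simp only [Prod.mk.injEq] at h
    obtain ⟨h1, h2⟩ := pos_inj hx.1.2 hx'.1.2 h.1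
    subst h1 h2
    have : d = d' := by
      have := h.2
      have h0 : 1 ≤ pos R t m o := by unfold pos; omega
      omega
    rw [this]

/-- `R ^ t + t R ^ (t-1) ≤ (R+1) ^ t` -/
theorem bern (R t : ℕ) : R ^ (t + 1) + (t + 1) * R ^ t ≤ (R + 1) ^ (t + 1) := by
  induction t with
  | zero => simp
  | succ t ih =>
    calc R ^ (t + 1 + 1) + (t + 1 + 1) * R ^ (t + 1)
        ≤ (R + 1) * (R ^ (t + 1) + (t + 1) * R ^ t) := by ring_nf; omega
      _ ≤ (R + 1) * (R + 1) ^ (t + 1) := Nat.mul_le_mul_left _ ih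
      _ = _ := by ring

theorem growth (t : ℕ) (ht : 1 ≤ t) : t * (t + 1) ^ 2 < 8 * (2 ^ t - 1) := by
  rcases lt_or_ge t 3 with h | h
  · interval_cases t <;> norm_num
  · have key : t * (t + 1) ^ 2 + 8 < 8 * 2 ^ t := by
      induction t, h using Nat.le_induction with
      | base => norm_num
      | succ t ht3 ih =>
        have ih' := ih (by omega)
        have e : (t + 1) * (t + 1 + 1) ^ 2 + 8 ≤ 2 * (t * (t + 1) ^ 2 + 8) := by
          obtain ⟨u, rfl⟩ := Nat.exists_eq_add_of_le ht3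
          ring_nf
          nlinarith [sq_nonneg u, pow_pos (show 0 < u + 1 by omega) 3]
        calc (t + 1) * (t + 1 + 1) ^ 2 + 8 ≤ 2 * (t * (t + 1) ^ 2 + 8) := e
          _ < 2 * (8 * 2 ^ t) := by omega
          _ = 8 * 2 ^ (t + 1) := by ring
    omega

/-- the final inequality -/
theorem final (C : ℝ) : ∃ (R t : ℕ), 0 < R ∧ 0 < hl R t ∧
    C * (((2 * hl R t) * (R + 1) ^ t : ℕ) + ((PP R t).card : ℝ) *
      Real.logb 2 (((2 * hl R t) * (R + 1) ^ t : ℕ) : ℝ)) < ((PP R t).card * R : ℕ) := by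
  obtain ⟨t', ht'⟩ : ∃ t' : ℕ, 16 * C < t' := exists_nat_gt _
  obtain ⟨t, ht⟩ : ∃ t, t = t' + 1 := ⟨_, rfl⟩
  have htC : 16 * C < t := by rw [ht]; push_cast; linarith
  have ht1 : 1 ≤ t := by omega
  obtain ⟨R, hR⟩ : ∃ R, R = 2 ^ t - 1 := ⟨_, rfl⟩
  have h2t : 2 ≤ 2 ^ t := by
    calc 2 = 2 ^ 1 := by norm_num
      _ ≤ 2 ^ t := Nat.pow_le_pow_right (by norm_num) ht1
  have hR1 : R + 1 = 2 ^ t := by omega
  have hR0 : 0 < R := by omega
  have hhl : 0 < hl R t := by
    unfold hl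
    positivity
  refine ⟨R, t, hR0, hhl, ?_⟩
  -- growth
  have hg := growth t ht1
  rw [← hR] at hg
  -- the number of blocks
  have hT : t * (R + 1) ^ t ≤ 2 * (R + 1) * (bl R t).card := by
    have h1 := card_bl R t
    have h2 := bern R t'
    rw [← ht] at h2
    have h3 : t * R ^ t' ≤ (bl R t).card := by omega
    -- `(R+1)^t' ≤ 2 R^t'`
    have h4 : (R + 1) ^ t' ≤ 2 * R ^ t' := by
      have h5 : 2 * t' ≤ R + 1 := by
        rw [hR1, ht, pow_succ]
        have := Nat.lt_two_pow_self (n := t')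
        omega
      have hx : (1 : ℝ) + t' * (-1 / (R + 1 : ℝ)) ≤ (1 + -1 / (R + 1 : ℝ)) ^ t' := by
        refine one_add_mul_le_pow ?_ t'
        have : (-1 / (R + 1 : ℝ)) ≥ -1 := by
          rw [ge_iff_le, le_div_iff₀ (by positivity)]
          have : (0 : ℝ) ≤ R := by positivity
          linarith
        linarith
      have hy : (1 / 2 : ℝ) ≤ 1 + t' * (-1 / (R + 1 : ℝ)) := by
        have : (t' : ℝ) / (R + 1) ≤ 1 / 2 := by
          rw [div_le_div_iff₀ (by positivity) (by norm_num)]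
          have : ((2 * t' : ℕ) : ℝ) ≤ ((R + 1 : ℕ) : ℝ) := by exact_mod_cast h5
          push_cast at this
          linarith
        have e : (t' : ℝ) * (-1 / (R + 1)) = -((t' : ℝ) / (R + 1)) := by ring
        rw [e]
        linarith
      have hz : (1 + -1 / (R + 1 : ℝ)) = R / (R + 1) := by
        field_simp
        ring
      rw [hz, div_pow] at hx
      have hw : (1 / 2 : ℝ) ≤ (R : ℝ) ^ t' / (R + 1) ^ t' := hy.trans hx
      rw [le_div_iff₀ (by positivity)] at hw
      have : ((R : ℝ) + 1) ^ t' ≤ 2 * (R : ℝ) ^ t' := by linarith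
      exact_mod_cast this
    calc t * (R + 1) ^ t = t * (R + 1) * (R + 1) ^ t' := by rw [ht]; ring
      _ ≤ t * (R + 1) * (2 * R ^ t') := Nat.mul_le_mul_left _ h4
      _ = 2 * (R + 1) * (t * R ^ t') := by ring
      _ ≤ _ := Nat.mul_le_mul_left _ h3
  rw [card_PP]
  obtain ⟨K, hK⟩ : ∃ K, K = (bl R t).card := ⟨_, rfl⟩
  rw [← hK] at hT ⊢
  have hK0 : 0 < K := by
    rcases Nat.eq_zero_or_pos K with h | h
    · rw [h, mul_zero] at hT
      have : 0 < t * (R + 1) ^ t := by positivity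
      omega
    · exact h
  -- the logarithm
  have hn0 : (0 : ℝ) < (((2 * hl R t) * (R + 1) ^ t : ℕ) : ℝ) := by
    have : 0 < (2 * hl R t) * (R + 1) ^ t := by positivity
    exact_mod_cast this
  have hlog : Real.logb 2 (((2 * hl R t) * (R + 1) ^ t : ℕ) : ℝ) ≤ ((t : ℝ) + 1) ^ 2 := by
    rw [Real.logb_le_iff_le_rpow (by norm_num) hn0]
    have h1 : (2 * hl R t) * (R + 1) ^ t ≤ 2 ^ ((t + 1) ^ 2) := by
      calc (2 * hl R t) * (R + 1) ^ t = 2 * t * R * (2 ^ t) ^ t := by rw [hR1]; unfold hl; ring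
        _ ≤ 2 * 2 ^ t * 2 ^ t * (2 ^ t) ^ t := by
          gcongr
          · exact Nat.lt_two_pow_self.le
          · omega
        _ = 2 ^ ((t + 1) ^ 2) := by ring
    have h2 : ((((2 * hl R t) * (R + 1) ^ t : ℕ)) : ℝ) ≤ (2 : ℝ) ^ ((t + 1) ^ 2) := by exact_mod_cast h1
    refine h2.trans (le_of_eq ?_)
    rw [← Real.rpow_natCast]
    push_cast
    rfl
  have hlog0 : 0 ≤ Real.logb 2 (((2 * hl R t) * (R + 1) ^ t : ℕ) : ℝ) := by
    refine Real.logb_nonneg (by norm_num) ?_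
    have : 1 ≤ (2 * hl R t) * (R + 1) ^ t := Nat.succ_le_of_lt (by positivity)
    exact_mod_cast this
  have hRr : (0 : ℝ) < R := by exact_mod_cast hR0
  have htr : (1 : ℝ) ≤ t := by exact_mod_cast ht1
  have hKr : (0 : ℝ) < K := by exact_mod_cast hK0
  have hhlr : (0 : ℝ) < hl R t := by exact_mod_cast hhl
  -- `n ≤ 8 R k / t`
  have hn : (t : ℝ) * (((2 * hl R t) * (R + 1) ^ t : ℕ) : ℝ) ≤ 8 * R * (K * hl R t) := by
    have h1 : t * ((2 * hl R t) * (R + 1) ^ t) ≤ 8 * R * (K * hl R t) := by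
      calc t * ((2 * hl R t) * (R + 1) ^ t) = 2 * hl R t * (t * (R + 1) ^ t) := by ring
        _ ≤ 2 * hl R t * (2 * (R + 1) * K) := Nat.mul_le_mul_left _ hT
        _ ≤ 2 * hl R t * (2 * (2 * R) * K) := by gcongr; omega
        _ = _ := by ring
    exact_mod_cast h1
  have hg' : (t : ℝ) * ((t : ℝ) + 1) ^ 2 < 8 * R := by exact_mod_cast hg
  push_cast
  push_cast at hn hlog hlog0
  obtain ⟨L, hL⟩ : ∃ L, L = Real.logb 2 (2 * (hl R t : ℝ) * ((R : ℝ) + 1) ^ t) := ⟨_, rfl⟩
  rw [← hL] at hlog hlog0 ⊢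
  obtain ⟨n, hn'⟩ : ∃ n : ℝ, n = 2 * (hl R t : ℝ) * ((R : ℝ) + 1) ^ t := ⟨_, rfl⟩
  rw [← hn'] at hn ⊢
  have hnpos : 0 < n := by rw [hn']; positivity
  obtain ⟨k, hk⟩ : ∃ k : ℝ, k = (K : ℝ) * hl R t := ⟨_, rfl⟩
  rw [← hk] at hn ⊢
  have hkpos : 0 < k := by rw [hk]; positivity
  have hD : 0 < n + k * L := by positivity
  have h1 : C * (n + k * L) < (t / 16) * (n + k * L) :=
    mul_lt_mul_of_pos_right (by linarith) hD
  have h2 : (t : ℝ) * L ≤ 8 * R := by
    calc (t : ℝ) * L ≤ t * ((t : ℝ) + 1) ^ 2 := by gcongr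
      _ ≤ 8 * R := hg'.le
  have h3 : (t : ℝ) * L * k ≤ 8 * R * k := mul_le_mul_of_nonneg_right h2 hkpos.le
  nlinarith

end Pool.Agent.Q265.Rcr
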