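import Mathlib

set_option autoImplicit false

/-! # Toms decompositions of contracted proportionally modular numerical semigroups -/

namespace Pool.Agent.Q265.Toms

/-- the window lemma: membership of `L x` in `⟨q, m⟩` when `q ∣ m s + L` -/
theorem mem_iff {q m s L t x : ℕ} (hqm : Nat.Coprime q m) (hq : 0 < q) (h : m * s + L = q * t) :
    L * x ∈ AddSubmonoid.closure ({q, m} : Set ℕ) ↔
      ∃ k : ℕ, s * x ≤ k * q ∧ (k * q - s * x) * m ≤ L * x := by
  rw [AddSubmonoid.mem_closure_pair]
  constructor
  · rintro ⟨i, j, hij⟩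
    simp only [smul_eq_mul] at hij
    -- `q ∣ j + s x`
    have h1 : q ∣ m * (j + s * x) := by
      have e : m * (j + s * x) + i * q = q * (t * x) := by
        calc m * (j + s * x) + i * q = (i * q + j * m) + m * s * x := by ring
          _ = L * x + m * s * x := by rw [hij]
          _ = (m * s + L) * x := by ring
          _ = q * (t * x) := by rw [h]; ring
      have h2 : q ∣ m * (j + s * x) + i * q := ⟨_, e⟩
      exact (Nat.dvd_add_left (Dvd.intro_left i rfl)).1 h2
    obtain ⟨k, hk⟩ := hqm.dvd_of_dvd_mul_left h1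
    refine ⟨k, by rw [mul_comm k, ← hk]; omega, ?_⟩
    have e : k * q - s * x = j := by rw [mul_comm k, ← hk]; omega
    rw [e, ← hij]
    omega
  · rintro ⟨k, h1, h2⟩
    obtain ⟨j, hj⟩ := Nat.exists_eq_add_of_le h1
    rw [hj, Nat.add_sub_cancel_left] at h2
    -- `L x - j m = q (t x - m k)`
    have e : L * x + m * k * q = q * (t * x) + j * m := by
      calc L * x + m * k * q = L * x + m * (k * q) := by ring
        _ = (m * s + L) * x + j * m := by rw [hj]; ring
        _ = q * (t * x) + j * m := by rw [h]; ring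
    have h3 : m * k ≤ t * x := by
      have h4 : m * k * q ≤ t * x * q := by
        have : m * k * q + j * m ≤ t * x * q + j * m := by
          calc m * k * q + j * m ≤ m * k * q + L * x := by omega
            _ = t * x * q + j * m := by rw [add_comm, e]; ring
        omega
      exact Nat.le_of_mul_le_mul_right h4 hq
    obtain ⟨i, hi⟩ := Nat.exists_eq_add_of_le h3
    refine ⟨i, j, ?_⟩
    simp only [smul_eq_mul]
    rw [hi] at e
    have : L * x + m * k * q = i * q + j * m + m * k * q := by
      rw [e]; ring
    omega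

theorem core (a b c d x q L : ℕ) (hb : 0 < b) (hab : a < b) (hx : 0 < x)
    (hgap : c * x < (a * x) % b + d) (hq : q.Prime) (hqx : 2 * x ^ 2 + 2 * x ≤ q) (hL : L.Prime)
    (hLq : 2 * q ^ 2 ≤ L) :
    ∃ m, 0 < m ∧ Nat.Coprime q m ∧ Nat.Coprime L m ∧
      (∀ g, 0 < g → (a * g) % b + d ≤ c * g → L * g ∈ AddSubmonoid.closure ({q, m} : Set ℕ)) ∧
      L * x ∉ AddSubmonoid.closure ({q, m} : Set ℕ) := by
  obtain ⟨K, hK⟩ : ∃ K, K = a * x / b := ⟨_, rfl⟩
  have hKx : K < x := by
    rw [hK, Nat.div_lt_iff_lt_mul hb, mul_comm x b]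
    exact Nat.mul_lt_mul_of_pos_right hab hx
  have hK1 : b * K + (a * x) % b = a * x := by rw [hK]; exact Nat.div_add_mod _ _
  have hK2 : a * x < b * (K + 1) := by
    have := Nat.mod_lt (a * x) hb
    rw [mul_add, mul_one]
    omega
  obtain ⟨s, hs⟩ : ∃ s, s = K * q / x + 1 := ⟨_, rfl⟩
  have hs1 : K * q < s * x := by
    rw [hs]
    have := Nat.lt_div_mul_add hx (a := K * q)
    calc K * q < K * q / x * x + x := this
      _ = _ := by ring
  have hs2 : s * x ≤ K * q + x := by
    rw [hs]
    have := Nat.div_mul_le_self (K * q) x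
    calc (K * q / x + 1) * x = K * q / x * x + x := by ring
      _ ≤ _ := by omega
  have hqpos := hq.pos
  have hxq : x < q := by nlinarith
  have hsq : s < q := by
    have h1 : s * x < q * x := by
      calc s * x ≤ K * q + x := hs2
        _ < K * q + q := by omega
        _ = (K + 1) * q := by ring
        _ ≤ x * q := Nat.mul_le_mul_right q hKx
        _ = q * x := by ring
    exact lt_of_mul_lt_mul_right h1 (Nat.zero_le x)
  have hs0 : 0 < s := by rw [hs]; exact Nat.succ_pos _
  obtain ⟨B, hB⟩ : ∃ B, B = L * x / (q - x) + 1 := ⟨_, rfl⟩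
  have hqx0 : 0 < q - x := by omega
  have hB1 : L * x < B * (q - x) := by
    rw [hB]
    have := Nat.lt_div_mul_add hqx0 (a := L * x)
    calc L * x < L * x / (q - x) * (q - x) + (q - x) := this
      _ = _ := by ring
  have hB2 : B * (q - x) ≤ L * x + (q - x) := by
    rw [hB]
    have := Nat.div_mul_le_self (L * x) (q - x)
    calc (L * x / (q - x) + 1) * (q - x) = L * x / (q - x) * (q - x) + (q - x) := by ring
      _ ≤ _ := by omega
  have hLq' : q < L := by nlinarith
  obtain ⟨r, hr, hr2⟩ : ∃ r, r < q ∧ q ∣ (B + r) * s + L := by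
    have : Fact q.Prime := ⟨hq⟩
    have hs3 : (s : ZMod q) ≠ 0 := by
      rw [Ne, ZMod.natCast_eq_zero_iff]
      exact Nat.not_dvd_of_pos_of_lt hs0 hsq
    refine ⟨(-(L : ZMod q) / s - B).val, ZMod.val_lt _, ?_⟩
    rw [← ZMod.natCast_eq_zero_iff]
    push_cast
    rw [ZMod.natCast_zmod_val]
    field_simp
    ring
  obtain ⟨m, hm⟩ : ∃ m, m = B + r := ⟨_, rfl⟩
  rw [← hm] at hr2
  obtain ⟨t, ht⟩ := hr2
  have hm1 : L * x < m * (q - x) := by
    rw [hm]
    calc L * x < B * (q - x) := hB1
      _ ≤ (B + r) * (q - x) := Nat.mul_le_mul_right _ (by omega)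
  have hm2 : m * (q - x) ≤ L * x + q * (q - x) := by
    rw [hm]
    have h1 : (r + 1) * (q - x) ≤ q * (q - x) := Nat.mul_le_mul_right _ hr
    calc (B + r) * (q - x) = B * (q - x) + r * (q - x) := by ring
      _ ≤ L * x + (q - x) + r * (q - x) := by omega
      _ = L * x + (r + 1) * (q - x) := by ring
      _ ≤ _ := by omega
  have hm0 : 0 < m := by
    rw [hm, hB]
    exact Nat.add_pos_left (Nat.succ_pos _) _
  have hqm : Nat.Coprime q m := by
    rw [Nat.Prime.coprime_iff_not_dvd hq]
    intro h
    have h1 : q ∣ L := by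
      have h2 : q ∣ m * s + L := ⟨t, ht⟩
      exact (Nat.dvd_add_right (h.mul_right s)).1 h2
    have := (Nat.prime_dvd_prime_iff_eq hq hL).1 h1
    omega
  -- pass to the integers
  obtain ⟨Q, hQ⟩ : ∃ Q : ℕ, q = x + Q := Nat.exists_eq_add_of_le hxq.le
  have hQe : q - x = Q := by omega
  rw [hQe] at hm1 hm2 hqx0
  have hLm : Nat.Coprime L m := by
    rw [Nat.Prime.coprime_iff_not_dvd hL]
    intro h
    have h1 := Nat.le_of_dvd hm0 h
    have h2 : L * Q ≤ m * Q := Nat.mul_le_mul_right _ h1
    have h3 : L * Q ≤ L * x + q * Q := h2.trans hm2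
    have h4 : 2 * x ^ 2 + x ≤ Q := by omega
    have h5 : 2 * x ≤ Q := by nlinarith
    have h6 : L * (2 * x) ≤ L * Q := Nat.mul_le_mul_left _ h5
    have h7 : 2 * q ^ 2 * Q ≤ L * Q := Nat.mul_le_mul_right _ hLq
    have h8 : 2 * (q * Q) < L * Q := by
      have : 2 * q * Q < 2 * q ^ 2 * Q := by
        refine Nat.mul_lt_mul_of_pos_right ?_ hqx0
        have := hq.two_le
        nlinarith
      linarith
    linarith
  refine ⟨m, hm0, hqm, hLm, ?_, ?_⟩
  · intro g hg hgS
    rw [mem_iff hqm hqpos ht]
    rcases lt_trichotomy g x with hgx | hgx | hgx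
    · -- `g < x`
      obtain ⟨M, hM⟩ : ∃ M, M = a * g / b := ⟨_, rfl⟩
      have hM1 : b * M + (a * g) % b = a * g := by rw [hM]; exact Nat.div_add_mod _ _
      have hbM : a * g + d ≤ b * M + c * g := by omega
      have hbK : b * K + c * x < a * x + d := by omega
      have k1 : K * g < M * x := by
        have h1 : (b : ℤ) * (K * g) < b * (M * x) := by
          have e1 : (a * g + d : ℤ) ≤ b * M + c * g := by exact_mod_cast hbM
          have e2 : (b * K + c * x : ℤ) < a * x + d := by exact_mod_cast hbK
          have e3 : (0 : ℤ) < g := by exact_mod_cast hg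
          have e4 : (g : ℤ) ≤ x := by exact_mod_cast hgx.le
          have e5 := mul_le_mul_of_nonneg_right e1 (by positivity : (0 : ℤ) ≤ x)
          have e6 := mul_lt_mul_of_pos_right e2 e3
          have e7 := mul_le_mul_of_nonneg_left e4 (by positivity : (0 : ℤ) ≤ d)
          linarith
        have h2 : ((K * g : ℕ) : ℤ) < ((M * x : ℕ) : ℤ) := by
          push_cast
          exact lt_of_mul_lt_mul_left h1 (by positivity)
        exact_mod_cast h2
      have k2 : M * x < (K + 1) * g := by
        have h1 : b * (M * x) < b * ((K + 1) * g) := by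
          calc b * (M * x) = b * M * x := by ring
            _ ≤ a * g * x := Nat.mul_le_mul_right _ (by omega)
            _ = a * x * g := by ring
            _ < b * (K + 1) * g := Nat.mul_lt_mul_of_pos_right hK2 hg
            _ = _ := by ring
        exact lt_of_mul_lt_mul_left h1 (Nat.zero_le b)
      have hsg : s * g ≤ M * q := by
        have h1 : s * g * x ≤ M * q * x := by
          calc s * g * x = s * x * g := by ring
            _ ≤ (K * q + x) * g := Nat.mul_le_mul_right _ hs2
            _ = K * g * q + x * g := by ring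
            _ ≤ K * g * q + q := by
              have : x * g ≤ q := by nlinarith
              omega
            _ = (K * g + 1) * q := by ring
            _ ≤ M * x * q := Nat.mul_le_mul_right _ k1
            _ = M * q * x := by ring
        exact Nat.le_of_mul_le_mul_right h1 hx
      refine ⟨M, hsg, ?_⟩
      obtain ⟨j, hj⟩ := Nat.exists_eq_add_of_le hsg
      rw [hj, Nat.add_sub_cancel_left]
      -- `x j ≤ q (g - 1)`
      have hj1 : x * j ≤ q * (g - 1) := by
        obtain ⟨g', rfl⟩ : ∃ g', g = g' + 1 := ⟨g - 1, by omega⟩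
        rw [Nat.add_sub_cancel]
        have h1 : x * j + s * x * (g' + 1) = M * x * q := by
          calc x * j + s * x * (g' + 1) = x * (s * (g' + 1) + j) := by ring
            _ = _ := by rw [← hj]; ring
        have h2 : (K * q + 1) * (g' + 1) ≤ s * x * (g' + 1) := Nat.mul_le_mul_right _ hs1
        have h3 : M * x * q ≤ (K * (g' + 1) + g') * q := by
          refine Nat.mul_le_mul_right _ ?_
          have : (K + 1) * (g' + 1) = K * (g' + 1) + g' + 1 := by ring
          omega
        linarith
      -- conclude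
      have h1 : x * Q * (j * m) ≤ x * Q * (L * g) := by
        calc x * Q * (j * m) = (x * j) * (m * Q) := by ring
          _ ≤ (q * (g - 1)) * (L * x + q * Q) := Nat.mul_le_mul hj1 hm2
          _ ≤ x * Q * (L * g) := by
            obtain ⟨g', rfl⟩ : ∃ g', g = g' + 1 := ⟨g - 1, by omega⟩
            rw [Nat.add_sub_cancel]
            -- `g' q² Q ≤ L x (Q - g' x)`
            have h2 : g' * q ^ 2 * Q + L * x * (g' * x) ≤ L * x * Q := by
              have h3 : g' * x ≤ x ^ 2 := by nlinarith
              have h4 : 2 * x ^ 2 + x ≤ Q := by omega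
              have h5 : L * x * (2 * (g' * x)) ≤ L * x * Q := Nat.mul_le_mul_left _ (by omega)
              have h6 : 2 * (g' * q ^ 2 * Q) ≤ L * x * Q := by
                calc 2 * (g' * q ^ 2 * Q) = g' * (2 * q ^ 2) * Q := by ring
                  _ ≤ x * L * Q := by
                    refine Nat.mul_le_mul_right _ (Nat.mul_le_mul (by omega) hLq)
                  _ = L * x * Q := by ring
              linarith
            calc q * g' * (L * x + q * Q) = g' * q ^ 2 * Q + L * x * (g' * x) + L * x * (g' * Q) := by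
                  rw [hQ]; ring
              _ ≤ L * x * Q + L * x * (g' * Q) := by omega
              _ = x * Q * (L * (g' + 1)) := by ring
      exact Nat.le_of_mul_le_mul_left h1 (by positivity)
    · -- `g = x` is impossible
      rw [hgx] at hgS
      omega
    · -- `x < g`
      obtain ⟨k, hk⟩ : ∃ k, k = (s * g + (q - 1)) / q := ⟨_, rfl⟩
      have h1 : s * g ≤ k * q := by
        have := Nat.lt_div_mul_add hqpos (a := s * g + (q - 1))
        rw [← hk] at this
        omega
      have h2 : k * q ≤ s * g + (q - 1) := by rw [hk]; exact Nat.div_mul_le_self _ _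
      refine ⟨k, h1, ?_⟩
      have h3 : k * q - s * g ≤ q := by omega
      have h4 : q * m ≤ L * (x + 1) := by
        have h5 : Q * (q * m) ≤ Q * (L * (x + 1)) := by
          calc Q * (q * m) = q * (m * Q) := by ring
            _ ≤ q * (L * x + q * Q) := Nat.mul_le_mul_left _ hm2
            _ ≤ Q * (L * (x + 1)) := by
              have h4 : 2 * x ^ 2 + x ≤ Q := by omega
              have h5 : L * (2 * x ^ 2) ≤ L * Q := Nat.mul_le_mul_left _ (by omega)
              have h6 : 2 * q ^ 2 * Q ≤ L * Q := Nat.mul_le_mul_right _ hLq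
              calc q * (L * x + q * Q) = L * x * Q + (L * x ^ 2 + q ^ 2 * Q) := by
                    rw [hQ]; ring
                _ ≤ L * x * Q + L * Q := by linarith
                _ = _ := by ring
        exact Nat.le_of_mul_le_mul_left h5 hqx0
      calc (k * q - s * g) * m ≤ q * m := Nat.mul_le_mul_right _ h3
        _ ≤ L * (x + 1) := h4
        _ ≤ L * g := Nat.mul_le_mul_left _ hgx
  · rw [mem_iff hqm hqpos ht]
    rintro ⟨k, h1, h2⟩
    have h3 : K < k := by
      by_contra hcon
      push Not at hcon
      have := Nat.mul_le_mul_right q hcon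
      omega
    obtain ⟨j, hj⟩ := Nat.exists_eq_add_of_le h1
    rw [hj, Nat.add_sub_cancel_left] at h2
    have h4 : (K + 1) * q ≤ k * q := Nat.mul_le_mul_right _ h3
    have h5 : Q ≤ j := by
      have : (K + 1) * q = K * q + q := by ring
      omega
    have h6 : Q * m ≤ j * m := Nat.mul_le_mul_right _ h5
    have : m * Q = Q * m := mul_comm _ _
    omega

end Pool.Agent.Q265.Toms
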