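import Mathlib
import Pool.Agent.Helper256.KM.Mertens

/-! # Turan's inequality for the number of prime divisors -/

set_option autoImplicit false

namespace Pool.Agent.Q265.Turan

open Finset Filter Topology

/-- the sum of `1/p` over the primes `p ≤ N` -/
noncomputable def S (N : ℕ) : ℝ := ∑ p ∈ (Icc 1 N).filter Nat.Prime, (1 : ℝ) / p

theorem omega_eq (N n : ℕ) (hn : n ∈ Icc 1 N) :
    (n.primeFactors.card : ℝ) =
      ∑ p ∈ (Icc 1 N).filter Nat.Prime, (if p ∣ n then (1 : ℝ) else 0) := by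
  rw [mem_Icc] at hn
  have h : n.primeFactors = ((Icc 1 N).filter Nat.Prime).filter (fun p => p ∣ n) := by
    ext p
    simp only [Nat.mem_primeFactors, mem_filter, mem_Icc]
    constructor
    · rintro ⟨h1, h2, h3⟩
      exact ⟨⟨⟨h1.one_lt.le, (Nat.le_of_dvd (by omega) h2).trans hn.2⟩, h1⟩, h2⟩
    · rintro ⟨⟨_, h1⟩, h2⟩
      exact ⟨h1, h2, by omega⟩
  rw [h, Finset.sum_boole]

theorem count_dvd (N d : ℕ) :
    ∑ n ∈ Icc 1 N, (if d ∣ n then (1 : ℝ) else 0) = ((N / d : ℕ) : ℝ) := by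
  rw [Finset.sum_boole]
  congr 1
  have : Icc 1 N = Ioc 0 N := by ext; simp [Nat.succ_le_iff]
  rw [this]
  exact Nat.Ioc_filter_dvd_card_eq_div N d

theorem S_nonneg (N : ℕ) : 0 ≤ S N := Finset.sum_nonneg fun p _ => by positivity

theorem first_moment (N : ℕ) :
    (N : ℝ) * S N - N ≤ ∑ n ∈ Icc 1 N, (n.primeFactors.card : ℝ) := by
  rw [Finset.sum_congr rfl (fun n hn => omega_eq N n hn), Finset.sum_comm]
  have h1 : ∀ p ∈ (Icc 1 N).filter Nat.Prime, (N : ℝ) * (1 / p) - 1 ≤
      ∑ n ∈ Icc 1 N, (if p ∣ n then (1 : ℝ) else 0) := by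
    intro p hp
    rw [count_dvd]
    rw [mem_filter, mem_Icc] at hp
    have hp0 : (0 : ℝ) < p := by exact_mod_cast (show 0 < p by omega)
    have h2 : (N : ℝ) ≤ (p : ℝ) * ((N / p : ℕ) : ℝ) + p := by
      have h3 := Nat.div_add_mod N p
      have h4 := Nat.mod_lt N (show 0 < p by omega)
      have h5 : N ≤ p * (N / p) + p := by omega
      exact_mod_cast h5
    rw [mul_one_div, sub_le_iff_le_add, div_le_iff₀ hp0]
    linarith
  refine le_trans ?_ (Finset.sum_le_sum h1)
  rw [Finset.sum_sub_distrib, ← Finset.mul_sum]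
  have h2 : ∑ _p ∈ (Icc 1 N).filter Nat.Prime, (1 : ℝ) ≤ N := by
    rw [Finset.sum_const, nsmul_eq_mul, mul_one]
    have := Finset.card_filter_le (Icc 1 N) Nat.Prime
    rw [Nat.card_Icc] at this
    exact_mod_cast (by omega : ((Icc 1 N).filter Nat.Prime).card ≤ N)
  unfold S
  linarith

theorem second_raw (N : ℕ) :
    ∑ n ∈ Icc 1 N, (n.primeFactors.card : ℝ) ^ 2 ≤ N * S N ^ 2 + N * S N := by
  have h0 : ∀ n ∈ Icc 1 N, (n.primeFactors.card : ℝ) ^ 2 =
      ∑ p ∈ (Icc 1 N).filter Nat.Prime, ∑ q ∈ (Icc 1 N).filter Nat.Prime,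
        (if p ∣ n then (1 : ℝ) else 0) * (if q ∣ n then (1 : ℝ) else 0) := by
    intro n hn
    rw [sq, omega_eq N n hn, Finset.sum_mul_sum]
  rw [Finset.sum_congr rfl h0, Finset.sum_comm]
  have h1 : ∀ p ∈ (Icc 1 N).filter Nat.Prime,
      ∑ n ∈ Icc 1 N, ∑ q ∈ (Icc 1 N).filter Nat.Prime,
        (if p ∣ n then (1 : ℝ) else 0) * (if q ∣ n then (1 : ℝ) else 0) ≤
      ∑ q ∈ (Icc 1 N).filter Nat.Prime, ((N : ℝ) * (1 / p) * (1 / q)) + N * (1 / p) := by
    intro p hp
    rw [Finset.sum_comm]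
    have hpp : p.Prime := (mem_filter.1 hp).2
    have hp0 : (0 : ℝ) < p := by exact_mod_cast hpp.pos
    have h2 : ∀ q ∈ (Icc 1 N).filter Nat.Prime,
        ∑ n ∈ Icc 1 N, (if p ∣ n then (1 : ℝ) else 0) * (if q ∣ n then (1 : ℝ) else 0) ≤
        (N : ℝ) * (1 / p) * (1 / q) + (if p = q then (N : ℝ) * (1 / p) else 0) := by
      intro q hq
      have hqp : q.Prime := (mem_filter.1 hq).2
      have hq0 : (0 : ℝ) < q := by exact_mod_cast hqp.pos
      by_cases hpq : p = q
      · subst hpq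
        rw [if_pos rfl]
        have h3 : ∀ n, (if p ∣ n then (1 : ℝ) else 0) * (if p ∣ n then (1 : ℝ) else 0) =
            (if p ∣ n then (1 : ℝ) else 0) := by
          intro n; split_ifs <;> simp
        rw [Finset.sum_congr rfl (fun n _ => h3 n), count_dvd]
        have h4 : ((N / p : ℕ) : ℝ) ≤ N / p := Nat.cast_div_le
        have h5 : (N : ℝ) * (1 / p) = N / p := by ring
        have h6 : 0 ≤ (N : ℝ) * (1 / p) * (1 / p) := by positivity
        linarith
      · rw [if_neg hpq, add_zero]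
        have h3 : ∀ n, (if p ∣ n then (1 : ℝ) else 0) * (if q ∣ n then (1 : ℝ) else 0) =
            (if p * q ∣ n then (1 : ℝ) else 0) := by
          intro n
          have hc : Nat.Coprime p q := (Nat.coprime_primes hpp hqp).2 hpq
          have h4 : p * q ∣ n ↔ p ∣ n ∧ q ∣ n :=
            ⟨fun h => ⟨dvd_of_mul_right_dvd h, dvd_of_mul_left_dvd h⟩,
              fun h => hc.mul_dvd_of_dvd_of_dvd h.1 h.2⟩
          by_cases h5 : p ∣ n <;> by_cases h6 : q ∣ n <;> simp [h4, h5, h6]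
        rw [Finset.sum_congr rfl (fun n _ => h3 n), count_dvd]
        have h4 : ((N / (p * q) : ℕ) : ℝ) ≤ N / ((p * q : ℕ) : ℝ) := Nat.cast_div_le
        refine h4.trans (le_of_eq ?_)
        push_cast
        field_simp
    refine (Finset.sum_le_sum h2).trans ?_
    rw [Finset.sum_add_distrib, Finset.sum_ite_eq, if_pos hp]
  refine (Finset.sum_le_sum h1).trans (le_of_eq ?_)
  rw [Finset.sum_add_distrib]
  have h3 : ∑ p ∈ (Icc 1 N).filter Nat.Prime, ∑ q ∈ (Icc 1 N).filter Nat.Prime,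
      ((N : ℝ) * (1 / p) * (1 / q)) = N * S N ^ 2 := by
    unfold S
    rw [sq, Finset.sum_mul_sum, Finset.mul_sum]
    refine Finset.sum_congr rfl fun p _ => ?_
    rw [Finset.mul_sum]
    refine Finset.sum_congr rfl fun q _ => ?_
    ring
  rw [h3, ← Finset.mul_sum]
  rfl

/-- Turan's inequality -/
theorem turan (N : ℕ) :
    ∑ n ∈ Icc 1 N, ((n.primeFactors.card : ℝ) - S N) ^ 2 ≤ 3 * N * S N := by
  have h0 : ∀ n ∈ Icc 1 N, ((n.primeFactors.card : ℝ) - S N) ^ 2 =
      (n.primeFactors.card : ℝ) ^ 2 - 2 * S N * (n.primeFactors.card : ℝ) + S N ^ 2 := by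
    intro n _; ring
  rw [Finset.sum_congr rfl h0, Finset.sum_add_distrib, Finset.sum_sub_distrib, ← Finset.mul_sum,
    Finset.sum_const, Nat.card_Icc, Nat.add_sub_cancel, nsmul_eq_mul]
  have h1 := first_moment N
  have h2 := second_raw N
  have h3 := mul_le_mul_of_nonneg_left h1 (mul_nonneg (by norm_num : (0:ℝ) ≤ 2) (S_nonneg N))
  nlinarith

/-- The number of `n ≤ N` with fewer than `(3/4) log log N` distinct prime factors is `o(N)`. -/
theorem few_small :
    Tendsto (fun N : ℕ => (((Icc 1 N).filter (fun n : ℕ =>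
      (n.primeFactors.card : ℝ) < 3 / 4 * Real.log (Real.log N))).card : ℝ) / N) atTop (𝓝 0) := by
  obtain ⟨C, hC⟩ := Pool.Agent.Helper256.KM.mertens_inv
  have hll : Tendsto (fun N : ℕ => Real.log (Real.log N)) atTop atTop :=
    Real.tendsto_log_atTop.comp (Real.tendsto_log_atTop.comp tendsto_natCast_atTop_atTop)
  have hbound : ∀ᶠ N : ℕ in atTop, (((Icc 1 N).filter (fun n : ℕ =>
      (n.primeFactors.card : ℝ) < 3 / 4 * Real.log (Real.log N))).card : ℝ) / N ≤
      384 / Real.log (Real.log N) := by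
    filter_upwards [hll.eventually_ge_atTop (8 * |C| + 1), eventually_ge_atTop 3] with N h1 h2
    set L := Real.log (Real.log N) with hL
    have hCabs : 0 ≤ |C| := abs_nonneg C
    have hC' := hC N h2
    have hCle : C ≤ |C| := le_abs_self C
    have hS : |S N - L| ≤ |C| := hC'.trans hCle
    rw [abs_le] at hS
    have hL0 : 0 < L := by linarith
    have hN0 : (0 : ℝ) < N := by exact_mod_cast (show 0 < N by omega)
    have h3 := turan N
    have h4 : ∑ n ∈ (Icc 1 N).filter (fun n : ℕ => (n.primeFactors.card : ℝ) < 3 / 4 * L),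
        (L / 8) ^ 2 ≤ ∑ n ∈ Icc 1 N, ((n.primeFactors.card : ℝ) - S N) ^ 2 := by
      refine (Finset.sum_le_sum ?_).trans
        (Finset.sum_le_sum_of_subset_of_nonneg (Finset.filter_subset _ _)
          (fun _ _ _ => sq_nonneg _))
      intro n hn
      have h5 := (mem_filter.1 hn).2
      have h6 : L / 8 ≤ S N - (n.primeFactors.card : ℝ) := by linarith [hS.1]
      nlinarith
    rw [Finset.sum_const, nsmul_eq_mul] at h4
    have h5 : 3 * (N : ℝ) * S N ≤ 3 * N * (2 * L) := by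
      apply mul_le_mul_of_nonneg_left _ (by positivity)
      linarith [hS.2]
    rw [div_le_div_iff₀ hN0 hL0]
    have h6 := h4.trans (h3.trans h5)
    have h7 : (((Icc 1 N).filter (fun n : ℕ =>
        (n.primeFactors.card : ℝ) < 3 / 4 * L)).card : ℝ) * L * L ≤ 384 * N * L := by
      linarith
    exact le_of_mul_le_mul_right h7 hL0
  refine tendsto_of_tendsto_of_tendsto_of_le_of_le' tendsto_const_nhds
    (Tendsto.const_div_atTop hll 384) ?_ hbound
  exact Eventually.of_forall fun N => by positivity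

end Pool.Agent.Q265.Turan
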