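import Mathlib

/-! Weighted sums over partitions: the definitions of the problem MP_62fa17_nt. -/

set_option autoImplicit false

namespace Q265.WP

open Finset

/-- The part `λ_{i+1}` of an `n`-tuple `λ` (parts are numbered from `0` here), with the
convention that all parts with an index beyond the tuple are `0`. -/
def part {n : ℕ} (l : Fin n → ℕ) (i : ℕ) : ℕ := if h : i < n then l ⟨i, h⟩ else 0

/-- The set `Λ_n` of the `n`-tuples `λ_1 ≥ λ_2 ≥ ... ≥ λ_n ≥ 0` of integers with sum `n`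
(each entry is at most `n`, which is why the tuples can be taken with entries in `range (n + 1)`). -/
def Lam (n : ℕ) : Finset (Fin n → ℕ) :=
  (Fintype.piFinset fun _ => range (n + 1)).filter fun l => Antitone l ∧ ∑ i, l i = n

/-- `C(λ) = ∏_{i=1}^n binom(λ_i, λ_{i+1})`, with `λ_{n+1} = 0`. -/
def C {n : ℕ} (l : Fin n → ℕ) : ℚ := ∏ i ∈ range n, ((part l i).choose (part l (i + 1)) : ℚ)

/-- The numbers `a_1 = 1`, `a_i = 2 i - 3` for `i ≥ 2`. -/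
def a (i : ℕ) : ℚ := if i = 1 then 1 else 2 * (i : ℚ) - 3

/-- `u(λ) = ∏_{i=1}^n (a_i / i)^{λ_i}`. -/
def u {n : ℕ} (l : Fin n → ℕ) : ℚ := ∏ i ∈ range n, (a (i + 1) / ((i + 1 : ℕ) : ℚ)) ^ part l i

/-- `v(λ) = ∏_{i=1}^n ((2 i - 1) / i)^{λ_i}`. -/
def v {n : ℕ} (l : Fin n → ℕ) : ℚ :=
  ∏ i ∈ range n, ((2 * ((i + 1 : ℕ) : ℚ) - 1) / ((i + 1 : ℕ) : ℚ)) ^ part l i

/-- `A_n = ∑_{λ ∈ Λ_n} (1 + λ_1) C(λ) u(λ)`. -/
def A (n : ℕ) : ℚ := ∑ l ∈ Lam n, (1 + (part l 0 : ℚ)) * C l * u l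

/-- `B_n = ∑_{λ ∈ Λ_n} (-1)^{1 + λ_1} (1 + λ_1) C(λ) v(λ)`. -/
def B (n : ℕ) : ℚ := ∑ l ∈ Lam n, (-1) ^ (1 + part l 0) * (1 + (part l 0 : ℚ)) * C l * v l

end Q265.WP
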