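import Mathlib

set_option autoImplicit false

namespace Q265.WP

open Finset PowerSeries


theorem geom_two : (1 - 2 * X : ℚ⟦X⟧) * PowerSeries.mk (fun k => (2 : ℚ) ^ k) = 1 := by
  ext k
  cases k with
  | zero => simp [sub_mul, mul_assoc]
  | succ k =>
    rw [sub_mul, one_mul, map_sub, mul_assoc, show (2 : ℚ⟦X⟧) = PowerSeries.C (2 : ℚ) from rfl,
      PowerSeries.coeff_C_mul, PowerSeries.coeff_succ_X_mul]
    simp [PowerSeries.coeff_one]
    ring

/-- `R² (1 - 2X)⁻¹ = 1` for the series with `(1 - 2X) R' = - R`, `R(0) = 1` -/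
theorem sq_of_ode (R : ℚ⟦X⟧) (h0 : constantCoeff R = 1)
    (h : (1 - 2 * X : ℚ⟦X⟧) * d⁄dX ℚ R = - R) : R ^ 2 = 1 - 2 * X := by
  set E : ℚ⟦X⟧ := PowerSeries.mk (fun k => (2 : ℚ) ^ k) with hE
  have hE1 : (1 - 2 * X : ℚ⟦X⟧) * E = 1 := geom_two
  have hne : (1 - 2 * X : ℚ⟦X⟧) ≠ 0 := by
    intro h1
    rw [h1, zero_mul] at hE1
    exact zero_ne_one hE1
  have h2' : d⁄dX ℚ (2 : ℚ⟦X⟧) = 0 := by
    rw [show (2 : ℚ⟦X⟧) = PowerSeries.C (2 : ℚ) from rfl]
    exact PowerSeries.derivative_C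
  have hd1 : d⁄dX ℚ (1 - 2 * X : ℚ⟦X⟧) = -2 := by
    rw [map_sub, Derivation.map_one_eq_zero, Derivation.leibniz, PowerSeries.derivative_X, h2']
    simp
  have hE2 : (1 - 2 * X : ℚ⟦X⟧) * d⁄dX ℚ E = 2 * E := by
    have h3 := congrArg (d⁄dX ℚ) hE1
    rw [Derivation.leibniz, hd1, Derivation.map_one_eq_zero] at h3
    simp only [smul_eq_mul] at h3
    linear_combination h3
  have hG : d⁄dX ℚ (R ^ 2 * E) = 0 := by
    apply mul_left_cancel₀ hne
    rw [mul_zero, Derivation.leibniz, Derivation.leibniz_pow]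
    simp only [smul_eq_mul, nsmul_eq_mul, Nat.cast_ofNat]
    linear_combination (2 * R * E) * h + R ^ 2 * hE2
  have hG1 : R ^ 2 * E = 1 := by
    apply PowerSeries.derivative.ext
    · rw [hG, Derivation.map_one_eq_zero]
    · rw [map_mul, map_pow, h0]
      simp [hE]
  calc R ^ 2 = R ^ 2 * ((1 - 2 * X : ℚ⟦X⟧) * E) := by rw [hE1, mul_one]
    _ = (1 - 2 * X) * (R ^ 2 * E) := by ring
    _ = 1 - 2 * X := by rw [hG1, mul_one]

/-- `(1 - 2X) T² = 1` for the series with `(1 - 2X) T' = T`, `T(0) = 1` -/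
theorem sq_of_ode' (T : ℚ⟦X⟧) (h0 : constantCoeff T = 1)
    (h : (1 - 2 * X : ℚ⟦X⟧) * d⁄dX ℚ T = T) : (1 - 2 * X) * T ^ 2 = 1 := by
  have h2' : d⁄dX ℚ (2 : ℚ⟦X⟧) = 0 := by
    rw [show (2 : ℚ⟦X⟧) = PowerSeries.C (2 : ℚ) from rfl]
    exact PowerSeries.derivative_C
  have hd1 : d⁄dX ℚ (1 - 2 * X : ℚ⟦X⟧) = -2 := by
    rw [map_sub, Derivation.map_one_eq_zero, Derivation.leibniz, PowerSeries.derivative_X, h2']
    simp
  apply PowerSeries.derivative.ext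
  · rw [Derivation.map_one_eq_zero, Derivation.leibniz, Derivation.leibniz_pow, hd1]
    simp only [smul_eq_mul, nsmul_eq_mul, Nat.cast_ofNat]
    linear_combination (2 * T) * h
  · rw [map_mul, map_pow, h0]
    simp

theorem ode_coeff (R : ℚ⟦X⟧) (s : ℚ)
    (h : ∀ k : ℕ, ((k : ℚ) + 1) * coeff (k + 1) R = (2 * k + s) * coeff k R) :
    (1 - 2 * X : ℚ⟦X⟧) * d⁄dX ℚ R = s • R := by
  ext k
  rw [sub_mul, one_mul, map_sub, mul_assoc, show (2 : ℚ⟦X⟧) = PowerSeries.C (2 : ℚ) from rfl,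
    PowerSeries.coeff_C_mul, PowerSeries.coeff_derivative]
  cases k with
  | zero =>
    have := h 0
    simp at this ⊢
    linarith
  | succ k =>
    rw [PowerSeries.coeff_succ_X_mul, PowerSeries.coeff_derivative]
    have := h (k + 1)
    simp at this ⊢
    linarith

end Q265.WP
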