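import Pool.Agent.Q265.WPProof
import Pool.Agent.Q265.WPSeries

set_option autoImplicit false

namespace Q265.WP

open Finset

theorem dvd_of_coeff {N : ℕ} {f g : PowerSeries ℚ}
    (h : ∀ k < N, PowerSeries.coeff k f = PowerSeries.coeff k g) :
    (PowerSeries.X : PowerSeries ℚ) ^ N ∣ f - g := by
  rw [PowerSeries.X_pow_dvd_iff]
  intro m hm
  rw [map_sub, h m hm, sub_self]

theorem coeff_of_dvd {N k : ℕ} {f g : PowerSeries ℚ} (hk : k < N)
    (h : (PowerSeries.X : PowerSeries ℚ) ^ N ∣ f - g) :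
    PowerSeries.coeff k f = PowerSeries.coeff k g := by
  rw [PowerSeries.X_pow_dvd_iff] at h
  have := h k hk
  rw [map_sub] at this
  linarith

theorem X_dvd_y (w : ℕ → ℚ) (L : ℕ) :
    (PowerSeries.X : PowerSeries ℚ) ∣
      ((Polynomial.C (w 0) * Polynomial.X * Q (fun i => w (i + 1)) L : Polynomial ℚ) :
        PowerSeries ℚ) := by
  rw [PowerSeries.X_dvd_iff, ← PowerSeries.coeff_zero_eq_constantCoeff_apply, Polynomial.coeff_coe]
  exact coeff_y_zero L w

theorem prod_succ_mul (w : ℕ → ℚ) (k : ℕ) :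
    PowerSeries.coeff (k + 1) (P w) = PowerSeries.coeff k (P w) * w k := by
  unfold P
  rw [PowerSeries.coeff_mk, PowerSeries.coeff_mk, Finset.prod_range_succ]

/-! ### the sum `A` -/

theorem A_eq (n : ℕ) : A (n + 1) = 2 ^ (n + 1) := by
  set w : ℕ → ℚ := fun i => a (i + 1) / ((i + 1 : ℕ) : ℚ) with hw
  have h1 : A (n + 1) = ∑ l ∈ Lam (n + 1), (fun m : ℕ => 1 + (m : ℚ)) (part l 0) * C l *
      ∏ i ∈ range (n + 1), w i ^ part l i := by
    unfold A u
    rfl
  rw [h1, main_sum w (fun m : ℕ => 1 + (m : ℚ)) n]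
  set y : Polynomial ℚ := Polynomial.C (w 0) * Polynomial.X * Q (fun i => w (i + 1)) n with hy
  set S : Polynomial ℚ := ∑ m ∈ range (n + 2), Polynomial.C (1 + (m : ℚ)) * y ^ m with hS
  have hXy : (PowerSeries.X : PowerSeries ℚ) ∣ (y : PowerSeries ℚ) := X_dvd_y w n
  -- the series R = 1 - φ
  set R : PowerSeries ℚ := 2 - P w with hR
  have hR0 : PowerSeries.constantCoeff R = 1 := by
    have : PowerSeries.constantCoeff (P w) = 1 := by
      rw [← PowerSeries.coeff_zero_eq_constantCoeff_apply, P, PowerSeries.coeff_mk]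
      simp
    rw [hR, map_sub, this]
    have h2 : PowerSeries.constantCoeff (2 : PowerSeries ℚ) = 2 := by
      rw [show (2 : PowerSeries ℚ) = PowerSeries.C (2 : ℚ) from rfl, PowerSeries.constantCoeff_C]
    rw [h2]; norm_num
  have hRc : ∀ k : ℕ, PowerSeries.coeff (k + 1) R = - PowerSeries.coeff (k + 1) (P w) := by
    intro k
    rw [hR, map_sub, show (2 : PowerSeries ℚ) = PowerSeries.C (2 : ℚ) from rfl,
      PowerSeries.coeff_C]
    simp
  have hode : (1 - 2 * PowerSeries.X : PowerSeries ℚ) * PowerSeries.derivative ℚ R = - R := by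
    have := ode_coeff R (-1) (by
      intro k
      cases k with
      | zero =>
        rw [hRc, prod_succ_mul]
        rw [PowerSeries.coeff_zero_eq_constantCoeff_apply,
          PowerSeries.coeff_zero_eq_constantCoeff_apply, hR0]
        have : PowerSeries.constantCoeff (P w) = 1 := by
          rw [← PowerSeries.coeff_zero_eq_constantCoeff_apply, P, PowerSeries.coeff_mk]
          simp
        rw [this]
        simp [hw, a]
      | succ k =>
        rw [hRc, hRc, prod_succ_mul w (k + 1)]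
        have hk : w (k + 1) = (2 * ((k : ℚ) + 1) - 1) / ((k : ℚ) + 2) := by
          simp only [hw, a]
          rw [if_neg (by omega)]
          push_cast
          congr 1 <;> ring
        rw [hk]
        have : (k : ℚ) + 2 ≠ 0 := by positivity
        push_cast
        field_simp
        ring)
    rw [this]
    simp
  have hR2 := sq_of_ode R hR0 hode
  -- 1 - y and R agree up to degree n + 1
  have hyR : (PowerSeries.X : PowerSeries ℚ) ^ (n + 2) ∣ (1 - (y : PowerSeries ℚ)) - R := by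
    apply dvd_of_coeff
    intro k hk
    cases k with
    | zero =>
      rw [PowerSeries.coeff_zero_eq_constantCoeff_apply,
          PowerSeries.coeff_zero_eq_constantCoeff_apply, hR0, map_sub]
      have : PowerSeries.constantCoeff (y : PowerSeries ℚ) = 0 := by
        rwa [PowerSeries.X_dvd_iff] at hXy
      rw [this]; simp
    | succ k =>
      rw [hRc, map_sub, Polynomial.coeff_coe, hy, coeff_y n k w (by omega), P,
        PowerSeries.coeff_mk, PowerSeries.coeff_one]
      simp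
  have hsum : (1 - (y : PowerSeries ℚ)) ^ 2 * (S : PowerSeries ℚ) =
      1 - (((n + 2 : ℕ) : PowerSeries ℚ) + 1) * (y : PowerSeries ℚ) ^ (n + 2) +
        ((n + 2 : ℕ) : PowerSeries ℚ) * (y : PowerSeries ℚ) ^ (n + 2 + 1) := by
    rw [← one_sub_sq_sum]
    congr 1
    rw [hS, ← Polynomial.coeToPowerSeries.ringHom_apply, map_sum]
    refine Finset.sum_congr rfl fun m _ => ?_
    rw [map_mul, map_pow]
    simp only [Polynomial.coeToPowerSeries.ringHom_apply, Polynomial.coe_C]
    congr 1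
    rw [map_add, map_one, map_natCast]
  have hyp : (PowerSeries.X : PowerSeries ℚ) ^ (n + 2) ∣ (y : PowerSeries ℚ) ^ (n + 2) :=
    pow_dvd_pow_of_dvd hXy _
  have h3 : (PowerSeries.X : PowerSeries ℚ) ^ (n + 2) ∣
      (1 - (y : PowerSeries ℚ)) ^ 2 * (S : PowerSeries ℚ) - 1 := by
    rw [hsum]
    have e : (1 - (((n + 2 : ℕ) : PowerSeries ℚ) + 1) * (y : PowerSeries ℚ) ^ (n + 2) +
        ((n + 2 : ℕ) : PowerSeries ℚ) * (y : PowerSeries ℚ) ^ (n + 2 + 1)) - 1 =
        (y : PowerSeries ℚ) ^ (n + 2) * (((n + 2 : ℕ) : PowerSeries ℚ) * (y : PowerSeries ℚ) -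
          (((n + 2 : ℕ) : PowerSeries ℚ) + 1)) := by ring
    rw [e]
    exact hyp.mul_right _
  have h4 : (PowerSeries.X : PowerSeries ℚ) ^ (n + 2) ∣
      (1 - 2 * PowerSeries.X) * (S : PowerSeries ℚ) - 1 := by
    rw [← hR2]
    have e : R ^ 2 * (S : PowerSeries ℚ) - 1 = ((1 - (y : PowerSeries ℚ)) ^ 2 *
        (S : PowerSeries ℚ) - 1) - ((1 - (y : PowerSeries ℚ)) - R) *
        ((1 - (y : PowerSeries ℚ) + R) * (S : PowerSeries ℚ)) := by ring
    rw [e]
    exact dvd_sub h3 (hyR.mul_right _)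
  have h5 : (PowerSeries.X : PowerSeries ℚ) ^ (n + 2) ∣
      (S : PowerSeries ℚ) - PowerSeries.mk (fun k => (2 : ℚ) ^ k) := by
    have e : (S : PowerSeries ℚ) - PowerSeries.mk (fun k => (2 : ℚ) ^ k) =
        PowerSeries.mk (fun k => (2 : ℚ) ^ k) *
          ((1 - 2 * PowerSeries.X) * (S : PowerSeries ℚ) - 1) := by
      linear_combination (-(S : PowerSeries ℚ)) * geom_two
    rw [e]
    exact h4.mul_left _
  have h6 := coeff_of_dvd (k := n + 1) (by omega) h5
  rw [Polynomial.coeff_coe, PowerSeries.coeff_mk] at h6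
  exact h6

/-! ### the sum `B` -/

theorem B_eq (n : ℕ) (hn : 1 ≤ n) : B (n + 1) = 0 := by
  set w : ℕ → ℚ := fun i => (2 * ((i + 1 : ℕ) : ℚ) - 1) / ((i + 1 : ℕ) : ℚ) with hw
  have h1 : B (n + 1) = ∑ l ∈ Lam (n + 1),
      (fun m : ℕ => (-1) ^ (1 + m) * (1 + (m : ℚ))) (part l 0) * C l *
      ∏ i ∈ range (n + 1), w i ^ part l i := by
    unfold B v
    rfl
  rw [h1, main_sum w (fun m : ℕ => (-1) ^ (1 + m) * (1 + (m : ℚ))) n]
  set y : Polynomial ℚ := Polynomial.C (w 0) * Polynomial.X * Q (fun i => w (i + 1)) n with hy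
  set S : Polynomial ℚ := ∑ m ∈ range (n + 2),
    Polynomial.C ((-1) ^ (1 + m) * (1 + (m : ℚ))) * y ^ m with hS
  have hXy : (PowerSeries.X : PowerSeries ℚ) ∣ (y : PowerSeries ℚ) := X_dvd_y w n
  set T : PowerSeries ℚ := P w with hT
  have hT0 : PowerSeries.constantCoeff T = 1 := by
    rw [← PowerSeries.coeff_zero_eq_constantCoeff_apply, hT, P, PowerSeries.coeff_mk]
    simp
  have hode : (1 - 2 * PowerSeries.X : PowerSeries ℚ) * PowerSeries.derivative ℚ T = T := by
    have := ode_coeff T 1 (by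
      intro k
      rw [hT, prod_succ_mul w k]
      have hk : w k = (2 * (k : ℚ) + 1) / ((k : ℚ) + 1) := by
        simp only [hw]
        push_cast
        congr 1; ring
      rw [hk]
      have : (k : ℚ) + 1 ≠ 0 := by positivity
      field_simp)
    rw [this]
    simp
  have hT2 := sq_of_ode' T hT0 hode
  have hyT : (PowerSeries.X : PowerSeries ℚ) ^ (n + 2) ∣ (1 + (y : PowerSeries ℚ)) - T := by
    apply dvd_of_coeff
    intro k hk
    cases k with
    | zero =>
      rw [PowerSeries.coeff_zero_eq_constantCoeff_apply,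
          PowerSeries.coeff_zero_eq_constantCoeff_apply, hT0, map_add]
      have : PowerSeries.constantCoeff (y : PowerSeries ℚ) = 0 := by
        rwa [PowerSeries.X_dvd_iff] at hXy
      rw [this]; simp
    | succ k =>
      rw [map_add, Polynomial.coeff_coe, hy, coeff_y n k w (by omega), hT, P,
        PowerSeries.coeff_mk, PowerSeries.coeff_one]
      simp
  have hsum : (1 - (-(y : PowerSeries ℚ))) ^ 2 * (-(S : PowerSeries ℚ)) =
      1 - (((n + 2 : ℕ) : PowerSeries ℚ) + 1) * (-(y : PowerSeries ℚ)) ^ (n + 2) +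
        ((n + 2 : ℕ) : PowerSeries ℚ) * (-(y : PowerSeries ℚ)) ^ (n + 2 + 1) := by
    rw [← one_sub_sq_sum]
    congr 1
    rw [hS, ← Polynomial.coeToPowerSeries.ringHom_apply, map_sum, ← Finset.sum_neg_distrib]
    refine Finset.sum_congr rfl fun m _ => ?_
    rw [map_mul, map_pow]
    simp only [Polynomial.coeToPowerSeries.ringHom_apply, Polynomial.coe_C]
    rw [map_mul, map_add, map_one, map_natCast, map_pow, map_neg, map_one, neg_pow (y : PowerSeries ℚ)]
    ring
  have hyp : (PowerSeries.X : PowerSeries ℚ) ^ (n + 2) ∣ (-(y : PowerSeries ℚ)) ^ (n + 2) :=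
    pow_dvd_pow_of_dvd (hXy.neg_right) _
  have h3 : (PowerSeries.X : PowerSeries ℚ) ^ (n + 2) ∣
      (1 + (y : PowerSeries ℚ)) ^ 2 * (S : PowerSeries ℚ) + 1 := by
    have e : (1 + (y : PowerSeries ℚ)) ^ 2 * (S : PowerSeries ℚ) + 1 =
        (-(y : PowerSeries ℚ)) ^ (n + 2) * ((((n + 2 : ℕ) : PowerSeries ℚ) + 1) -
          ((n + 2 : ℕ) : PowerSeries ℚ) * (-(y : PowerSeries ℚ))) := by
      linear_combination -hsum
    rw [e]
    exact hyp.mul_right _
  have h4 : (PowerSeries.X : PowerSeries ℚ) ^ (n + 2) ∣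
      (S : PowerSeries ℚ) - (-(1 - 2 * PowerSeries.X)) := by
    have e : (S : PowerSeries ℚ) - (-(1 - 2 * PowerSeries.X)) =
        (1 - 2 * PowerSeries.X) * (((1 + (y : PowerSeries ℚ)) ^ 2 * (S : PowerSeries ℚ) + 1) -
          ((1 + (y : PowerSeries ℚ)) - T) * ((1 + (y : PowerSeries ℚ) + T) *
            (S : PowerSeries ℚ))) := by
      linear_combination (-(S : PowerSeries ℚ)) * hT2
    rw [e]
    exact (dvd_sub h3 (hyT.mul_right _)).mul_left _
  have h5 := coeff_of_dvd (k := n + 1) (by omega) h4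
  rw [Polynomial.coeff_coe] at h5
  rw [h5, map_neg, map_sub, show (2 : PowerSeries ℚ) = PowerSeries.C (2 : ℚ) from rfl,
    PowerSeries.coeff_C_mul, PowerSeries.coeff_X, PowerSeries.coeff_one]
  have : n ≠ 0 := by omega
  simp [this]

end Q265.WP
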