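import Pool.Agent.Q265.WPDefs

set_option autoImplicit false

namespace Q265.WP

open Finset Polynomial

/-- nested polynomial `1 + w₀ X (1 + w₁ X (...))` with `L` levels -/
noncomputable def Q : (ℕ → ℚ) → ℕ → ℚ[X]
  | _, 0 => 1
  | w, L + 1 => 1 + Polynomial.C (w 0) * X * Q (fun i => w (i + 1)) L

/-- product of binomials along a tuple, starting from `m` -/
def chain : (L : ℕ) → ℕ → (Fin L → ℕ) → ℚ
  | 0, _, _ => 1
  | L + 1, m, l => (m.choose (l 0) : ℚ) * chain L (l 0) (Fin.tail l)

theorem sum_pi_succ {β : Type*} [AddCommMonoid β] (L N : ℕ) (f : (Fin (L + 1) → ℕ) → β) :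
    ∑ l ∈ Fintype.piFinset (fun _ : Fin (L + 1) => range N), f l =
      ∑ k ∈ range N, ∑ l ∈ Fintype.piFinset (fun _ : Fin L => range N), f (Fin.cons k l) := by
  rw [← Finset.sum_product']
  refine Finset.sum_bij' (fun l _ => (l 0, Fin.tail l)) (fun p _ => Fin.cons p.1 p.2) ?_ ?_ ?_ ?_ ?_
  · intro l hl
    rw [Fintype.mem_piFinset] at hl
    rw [Finset.mem_product, Fintype.mem_piFinset]
    exact ⟨hl 0, fun i => hl i.succ⟩
  · intro p hp
    rw [Finset.mem_product, Fintype.mem_piFinset] at hp
    rw [Fintype.mem_piFinset]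
    intro i
    refine Fin.cases ?_ ?_ i
    · simpa using hp.1
    · intro j; simpa using hp.2 j
  · intro l _
    simp
  · intro p _
    simp
  · intro l _
    simp

theorem sum_chain_poly : ∀ (L N m : ℕ) (w : ℕ → ℚ), m < N →
    ∑ l ∈ Fintype.piFinset (fun _ : Fin L => range N),
      Polynomial.C (chain L m l) * ∏ i : Fin L, (Polynomial.C (w i) * X) ^ l i = Q w L ^ m := by
  intro L
  induction L with
  | zero =>
    intro N m w _
    simp [chain, Q]
  | succ L ih =>
    intro N m w hm
    rw [sum_pi_succ]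
    have h1 : ∀ k ∈ range N, ∑ l ∈ Fintype.piFinset (fun _ : Fin L => range N),
        Polynomial.C (chain (L + 1) m (Fin.cons k l)) *
          ∏ i : Fin (L + 1), (Polynomial.C (w i) * X) ^ (Fin.cons k l : Fin (L + 1) → ℕ) i =
        Polynomial.C (m.choose k : ℚ) * ((Polynomial.C (w 0) * X) ^ k *
          Q (fun i => w (i + 1)) L ^ k) := by
      intro k hk
      rw [← ih N k (fun i => w (i + 1)) (mem_range.1 hk), Finset.mul_sum, Finset.mul_sum]
      refine Finset.sum_congr rfl fun l _ => ?_
      rw [Fin.prod_univ_succ]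
      simp only [chain, Fin.cons_zero, Fin.cons_succ, Fin.tail_cons, Fin.val_zero, Fin.val_succ,
        map_mul]
      ring
    rw [Finset.sum_congr rfl h1, Q, add_comm (1 : ℚ[X]), add_pow]
    have h2 : ∀ k ∈ range N, k ∉ range (m + 1) → Polynomial.C (m.choose k : ℚ) *
        ((Polynomial.C (w 0) * X) ^ k * Q (fun i => w (i + 1)) L ^ k) = 0 := by
      intro k _ hk
      rw [mem_range, not_lt] at hk
      rw [Nat.choose_eq_zero_of_lt (by omega)]
      simp
    rw [← Finset.sum_subset (fun k hk => by
      rw [mem_range] at *; omega) h2]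
    refine Finset.sum_congr rfl fun k _ => ?_
    rw [one_pow, mul_one, mul_pow (Polynomial.C (w 0) * X)]
    simp only [map_natCast]
    ring

theorem chain_eq : ∀ (L m : ℕ) (l : Fin L → ℕ), chain L m l =
    ((m.choose (part l 0) : ℚ)) * ∏ i ∈ range L, ((part l i).choose (part l (i + 1)) : ℚ) := by
  intro L
  induction L with
  | zero => intro m l; simp [chain, part]
  | succ L ih =>
    intro m l
    rw [chain, ih, Finset.prod_range_succ']
    have h0 : part l 0 = l 0 := by simp [part]
    have h1 : ∀ i, part (Fin.tail l) i = part l (i + 1) := by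
      intro i
      unfold part
      by_cases h : i < L
      · simp [h, Fin.tail, Fin.succ]
      · simp [h]
    rw [h0]
    simp only [h1]
    ring

/-- tuples which are not antitone do not contribute -/
theorem chain_zero_of_not_antitone {n : ℕ} (l : Fin n → ℕ) (h : ¬ Antitone l) :
    C l = 0 := by
  unfold C
  rw [Finset.prod_eq_zero_iff]
  by_contra hcon
  apply h
  push Not at hcon
  cases n with
  | zero => intro i; exact i.elim0
  | succ n =>
    rw [Fin.antitone_iff_succ_le]
    intro i
    have h1 := hcon i (mem_range.2 (by omega))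
    have h2 : part l i = l i.castSucc := by
      unfold part
      have : (i : ℕ) < n + 1 := by omega
      rw [dif_pos this]
      rfl
    have h3 : part l (i + 1) = l i.succ := by
      unfold part
      have : (i : ℕ) + 1 < n + 1 := by omega
      rw [dif_pos this]
      rfl
    rw [h2, h3] at h1
    by_contra hlt
    push Not at hlt
    exact h1 (by exact_mod_cast Nat.choose_eq_zero_of_lt hlt)

theorem main_sum (w g : ℕ → ℚ) (n : ℕ) :
    ∑ l ∈ Lam (n + 1), g (part l 0) * C l * ∏ i ∈ range (n + 1), w i ^ part l i =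
      (∑ m ∈ range (n + 2), Polynomial.C (g m) *
        (Polynomial.C (w 0) * X * Q (fun i => w (i + 1)) n) ^ m).coeff (n + 1) := by
  have h1 : ∀ m ∈ range (n + 2), Polynomial.C (g m) *
        (Polynomial.C (w 0) * X * Q (fun i => w (i + 1)) n) ^ m =
      ∑ l ∈ Fintype.piFinset (fun _ : Fin n => range (n + 2)),
        Polynomial.C (g m) * (Polynomial.C (chain n m l) *
          ((Polynomial.C (w 0) * X) ^ m *
            ∏ i : Fin n, (Polynomial.C (w (i + 1)) * X) ^ l i)) := by
    intro m hm
    rw [mul_pow, ← sum_chain_poly n (n + 2) m (fun i => w (i + 1)) (mem_range.1 hm),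
      Finset.mul_sum, Finset.mul_sum]
    refine Finset.sum_congr rfl fun l _ => ?_
    ring
  rw [Finset.sum_congr rfl h1]
  have h2 := sum_pi_succ n (n + 2) (fun l : Fin (n + 1) → ℕ =>
    Polynomial.C (g (part l 0)) * (Polynomial.C (C l) *
      ∏ i : Fin (n + 1), (Polynomial.C (w i) * X) ^ l i))
  have h3 : ∀ k ∈ range (n + 2), ∀ l ∈ Fintype.piFinset (fun _ : Fin n => range (n + 2)),
      Polynomial.C (g (part (Fin.cons k l : Fin (n + 1) → ℕ) 0)) *
        (Polynomial.C (C (Fin.cons k l : Fin (n + 1) → ℕ)) *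
      ∏ i : Fin (n + 1), (Polynomial.C (w i) * X) ^ (Fin.cons k l : Fin (n + 1) → ℕ) i) =
      Polynomial.C (g k) * (Polynomial.C (chain n k l) *
          ((Polynomial.C (w 0) * X) ^ k *
            ∏ i : Fin n, (Polynomial.C (w (i + 1)) * X) ^ l i)) := by
    intro k _ l _
    have e0 : part (Fin.cons k l : Fin (n + 1) → ℕ) 0 = k := by simp [part]
    have e1 : ∀ i, part (Fin.cons k l : Fin (n + 1) → ℕ) (i + 1) = part l i := by
      intro i
      unfold part
      by_cases h : i < n
      · have : i + 1 < n + 1 := by omega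
        rw [dif_pos this, dif_pos h]
        rfl
      · have : ¬ i + 1 < n + 1 := by omega
        rw [dif_neg this, dif_neg h]
    have e2 : C (Fin.cons k l : Fin (n + 1) → ℕ) = chain n k l := by
      rw [chain_eq]
      unfold C
      rw [Finset.prod_range_succ']
      simp only [e0, e1]
      ring
    rw [e0, e2, Fin.prod_univ_succ]
    simp
  rw [Finset.sum_congr rfl (fun k hk => Finset.sum_congr rfl (h3 k hk))] at h2
  rw [← h2, Polynomial.finsetSum_coeff]
  unfold Lam
  rw [Finset.sum_filter]
  refine Finset.sum_congr rfl fun l _ => ?_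
  have h4 : ∏ i : Fin (n + 1), (Polynomial.C (w i) * X) ^ l i =
      Polynomial.C (∏ i ∈ range (n + 1), w i ^ part l i) * X ^ (∑ i, l i) := by
    simp only [mul_pow]
    rw [Finset.prod_mul_distrib, Finset.prod_pow_eq_pow_sum, ← Fin.prod_univ_eq_prod_range
      (fun i => w i ^ part l i)]
    congr 1
    rw [map_prod]
    refine Finset.prod_congr rfl fun i _ => ?_
    have : part l i = l i := by
      unfold part
      rw [dif_pos i.isLt]
    rw [this, map_pow]
  rw [h4, Polynomial.coeff_C_mul, Polynomial.coeff_C_mul, Polynomial.coeff_C_mul,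
    Polynomial.coeff_X_pow]
  by_cases ha : Antitone l
  · by_cases hs : ∑ i, l i = n + 1
    · simp [ha, hs]
      ring
    · have hs' : ¬ (n + 1 = ∑ i, l i) := fun h => hs h.symm
      simp [hs, hs']
  · rw [if_neg (fun h => ha h.1), chain_zero_of_not_antitone l ha]
    simp

/-! ### the generating functions -/

/-- coefficients of `w₀ X Q(shift w) n` -/
theorem coeff_y : ∀ (L k : ℕ) (w : ℕ → ℚ), k ≤ L →
    (Polynomial.C (w 0) * X * Q (fun i => w (i + 1)) L).coeff (k + 1) =
      ∏ i ∈ range (k + 1), w i := by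
  intro L
  induction L with
  | zero =>
    intro k w h
    have : k = 0 := by omega
    subst this
    simp [Q]
  | succ L ih =>
    intro k w hk
    rw [mul_assoc, Polynomial.coeff_C_mul, Polynomial.coeff_X_mul, Q, Polynomial.coeff_add]
    cases k with
    | zero => simp [mul_assoc]
    | succ k =>
      rw [ih k (fun i => w (i + 1)) (by omega), Finset.prod_range_succ' _ (k + 1)]
      simp [Polynomial.coeff_one, mul_comm]

theorem coeff_y_zero (L : ℕ) (w : ℕ → ℚ) :
    (Polynomial.C (w 0) * X * Q (fun i => w (i + 1)) L).coeff 0 = 0 := by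
  rw [mul_assoc, Polynomial.coeff_C_mul, Polynomial.mul_coeff_zero]
  simp

open PowerSeries in
/-- the power series with coefficients `∏_{i<k} w i` -/
noncomputable def P (w : ℕ → ℚ) : ℚ⟦X⟧ := PowerSeries.mk fun k => ∏ i ∈ range k, w i

theorem one_sub_sq_sum {R : Type*} [CommRing R] (y : R) (K : ℕ) :
    (1 - y) ^ 2 * ∑ m ∈ range K, (1 + (m : R)) * y ^ m =
      1 - ((K : R) + 1) * y ^ K + K * y ^ (K + 1) := by
  induction K with
  | zero => simp
  | succ K ih =>
    rw [Finset.sum_range_succ, mul_add, ih]
    push_cast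
    ring

end Q265.WP
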